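import Pool.Agent.NGN.A.Defs

/-!
# NGN, part A: linear trial functions; the centroid
-/

set_option autoImplicit false
set_option linter.unusedVariables false
set_option linter.unusedSectionVars false

noncomputable section

namespace Pool.Agent.NGN.A

open MeasureTheory Pool.Agent.Stk Set

variable {n : ℕ} [NeZero n] {P : ZMod n → ℂ} {Ω : Set ℂ}

omit [NeZero n] in
private theorem lin_ne (h : PolyN Ω P) (i : ZMod n) : P i ≠ P (i + 1) := by
  intro he
  apply h.angle i
  rw [he, Set.insert_eq_of_mem (Set.mem_singleton _)]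
  exact collinear_pair ℝ _ _

private theorem lin_int {f : ℂ → ℝ} (hf : Continuous f) (A B : ℂ) :
    IntervalIntegrable (fun t : ℝ => f (A + (t : ℂ) * (B - A))) volume 0 1 := by
  apply Continuous.intervalIntegrable
  fun_prop

private theorem lin_segAdd {f g : ℂ → ℝ} (hf : Continuous f) (hg : Continuous g) (A B : ℂ) :
    segInt A B (fun z => f z + g z) = segInt A B f + segInt A B g := by
  unfold segInt
  rw [← mul_add, ← intervalIntegral.integral_add (lin_int hf A B) (lin_int hg A B)]

private theorem lin_segMul (c : ℝ) (f : ℂ → ℝ) (A B : ℂ) :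
    segInt A B (fun z => c * f z) = c * segInt A B f := by
  unfold segInt
  rw [intervalIntegral.integral_const_mul]
  ring

private theorem lin_bdAdd {f g : ℂ → ℝ} (hf : Continuous f) (hg : Continuous g) :
    bdN P (fun z => f z + g z) = bdN P f + bdN P g := by
  unfold bdN
  rw [← Finset.sum_add_distrib]
  exact Finset.sum_congr rfl fun i _ => lin_segAdd hf hg _ _

private theorem lin_bdMul (c : ℝ) (f : ℂ → ℝ) :
    bdN P (fun z => c * f z) = c * bdN P f := by
  unfold bdN
  rw [Finset.mul_sum]
  exact Finset.sum_congr rfl fun i _ => lin_segMul c f _ _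

private theorem lin_segNonneg {f : ℂ → ℝ} (hf : ∀ z, 0 ≤ f z) (A B : ℂ) : 0 ≤ segInt A B f := by
  unfold segInt
  exact mul_nonneg dist_nonneg
    (intervalIntegral.integral_nonneg (by norm_num) fun t _ => hf _)

private theorem lin_bdNonneg {f : ℂ → ℝ} (hf : ∀ z, 0 ≤ f z) : 0 ≤ bdN P f :=
  Finset.sum_nonneg fun i _ => lin_segNonneg hf _ _

private theorem lin_segOne (A B : ℂ) : segInt A B (fun _ => 1) = dist A B := by
  unfold segInt
  rw [intervalIntegral.integral_const]
  simp

/-- the integral of an affine function over a segment -/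
private theorem lin_segAff (al be ga : ℝ) (A B : ℂ) :
    segInt A B (fun z => al * z.re + be * z.im + ga) =
      dist A B * (((al * A.re + be * A.im + ga) + (al * B.re + be * B.im + ga)) / 2) := by
  unfold segInt
  congr 1
  have h1 : ∀ t : ℝ, al * (A + (t : ℂ) * (B - A)).re + be * (A + (t : ℂ) * (B - A)).im + ga =
      (al * A.re + be * A.im + ga) + t * (al * (B.re - A.re) + be * (B.im - A.im)) := by
    intro t
    simp only [Complex.add_re, Complex.add_im, Complex.mul_re, Complex.mul_im, Complex.ofReal_re,
      Complex.ofReal_im, Complex.sub_re, Complex.sub_im]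
    ring
  simp only [h1]
  rw [intervalIntegral.integral_add (by simp) (by
      apply Continuous.intervalIntegrable; fun_prop),
    intervalIntegral.integral_const, intervalIntegral.integral_mul_const, integral_id]
  simp only [smul_eq_mul]
  ring

theorem inj_of_poly (hn : 3 ≤ n) (h : PolyN Ω P) : Function.Injective P := by
  intro i j hij
  by_contra hne
  by_cases h1 : j = i + 1
  · subst h1
    exact lin_ne h i hij
  · by_cases h2 : i = j + 1
    · subst h2
      exact lin_ne h j hij.symm
    · have h3 := h.opp i j (Ne.symm hne) h1 h2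
      exact Set.disjoint_left.1 h3 (left_mem_segment ℝ _ _) (by
        rw [hij]
        exact left_mem_segment ℝ _ _)

theorem perN_pos (h : PolyN Ω P) : 0 < perN P := by
  unfold perN bdN
  refine Finset.sum_pos (fun i _ => ?_) ⟨0, Finset.mem_univ _⟩
  rw [lin_segOne]
  exact dist_pos.2 (lin_ne h i)

theorem bdN_affine (h : 0 < perN P) (al be ga : ℝ) :
    bdN P (fun z => al * z.re + be * z.im + ga) =
      perN P * (al * (cen P).re + be * (cen P).im + ga) := by
  have h0 : Continuous fun z : ℂ => al * z.re + be * z.im := by fun_prop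
  have h1 : Continuous fun z : ℂ => al * z.re := by fun_prop
  have h2 : Continuous fun z : ℂ => be * z.im := by fun_prop
  rw [lin_bdAdd (f := fun z => al * z.re + be * z.im) (g := fun _ => ga) h0 continuous_const,
    lin_bdAdd (f := fun z => al * z.re) (g := fun z => be * z.im) h1 h2, lin_bdMul, lin_bdMul]
  have h3 : bdN P (fun _ => ga) = ga * perN P := by
    have h4 : bdN P (fun _ => ga * 1) = ga * perN P := lin_bdMul ga fun _ => 1
    rw [← h4]
    simp only [mul_one]
  rw [h3]
  have h4 : perN P ≠ 0 := h.ne'
  show al * bdN P (fun z => z.re) + be * bdN P (fun z => z.im) + ga * perN P =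
    perN P * (al * (bdN P (fun z => z.re) / perN P) + be * (bdN P (fun z => z.im) / perN P) + ga)
  field_simp

/-- the trial function `al re + be im + ga` -/
private theorem lin_aff {k : WithTop ℕ∞} (h : PolyN Ω P) (al be : ℝ)
    (hab : al ^ 2 + be ^ 2 = 1) :
    sigN k Ω P * bdN P (fun z => (al * (z.re - (cen P).re) + be * (z.im - (cen P).im)) ^ 2) ≤
      volume.real Ω := by
  obtain ⟨B, hB⟩ : ∃ B, B =
    bdN P (fun z => (al * (z.re - (cen P).re) + be * (z.im - (cen P).im)) ^ 2) := ⟨_, rfl⟩
  have hB0 : 0 ≤ B := by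
    rw [hB]
    exact lin_bdNonneg fun z => sq_nonneg _
  rw [← hB]
  rcases hB0.eq_or_lt with h0 | h0
  · rw [← h0, mul_zero]
    exact measureReal_nonneg
  have hg : ∀ z : ℂ, grad2 (fun z => al * (z.re - (cen P).re) + be * (z.im - (cen P).im)) z = 1 := by
    intro z
    have h1 : HasFDerivAt (fun z : ℂ => al * (z.re - (cen P).re) + be * (z.im - (cen P).im))
        (al • Complex.reCLM + be • Complex.imCLM) z := by
      have e1 : HasFDerivAt (fun z : ℂ => z.re - (cen P).re) Complex.reCLM z :=
        (Complex.reCLM.hasFDerivAt).sub_const _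
      have e2 : HasFDerivAt (fun z : ℂ => z.im - (cen P).im) Complex.imCLM z :=
        (Complex.imCLM.hasFDerivAt).sub_const _
      exact (e1.const_mul al).add (e2.const_mul be)
    unfold grad2
    rw [h1.fderiv]
    simp only [add_apply, smul_apply, Complex.reCLM_apply, Complex.imCLM_apply, Complex.one_re, Complex.one_im, Complex.I_re,
      Complex.I_im, smul_eq_mul, mul_one, mul_zero, add_zero, zero_add]
    exact hab
  have h2 : sigN k Ω P ≤ volume.real Ω / B := by
    apply csInf_le
    · refine ⟨0, ?_⟩
      rintro _ ⟨u, _, _, _, rfl⟩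
      refine div_nonneg (integral_nonneg fun z => ?_) (lin_bdNonneg fun z => sq_nonneg _)
      unfold grad2
      positivity
    · refine ⟨fun z => al * (z.re - (cen P).re) + be * (z.im - (cen P).im), ?_, ?_, ?_, ?_⟩
      · have e1 : ContDiff ℝ k fun z : ℂ => z.re := Complex.reCLM.contDiff
        have e2 : ContDiff ℝ k fun z : ℂ => z.im := Complex.imCLM.contDiff
        exact (contDiff_const.mul (e1.sub contDiff_const)).add
          (contDiff_const.mul (e2.sub contDiff_const))
      · have h3 := bdN_affine (perN_pos h) al be (-(al * (cen P).re + be * (cen P).im))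
        have h4 : (fun z : ℂ => al * (z.re - (cen P).re) + be * (z.im - (cen P).im)) =
            fun z => al * z.re + be * z.im + -(al * (cen P).re + be * (cen P).im) := by
          funext z; ring
        rw [h4, h3, add_neg_cancel, mul_zero]
      · show bdN P (fun z => (al * (z.re - (cen P).re) + be * (z.im - (cen P).im)) ^ 2) ≠ 0
        rw [← hB]
        exact h0.ne'
      · show volume.real Ω / B = (∫ z in Ω, grad2 _ z) /
          bdN P (fun z => (al * (z.re - (cen P).re) + be * (z.im - (cen P).im)) ^ 2)
        rw [← hB]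
        simp only [hg]
        rw [setIntegral_const, smul_eq_mul, mul_one]
  rw [le_div_iff₀ h0] at h2
  exact h2

theorem lin_trial {k : ℕ∞} (h : PolyN Ω P) :
    sigN k Ω P * bdN P (fun z => ‖z - cen P‖ ^ 2) ≤ 2 * volume.real Ω := by
  have h1 := lin_aff (k := k) h 1 0 (by norm_num)
  have h2 := lin_aff (k := k) h 0 1 (by norm_num)
  have c1 : Continuous fun z : ℂ => (1 * (z.re - (cen P).re) + 0 * (z.im - (cen P).im)) ^ 2 := by
    fun_prop
  have c2 : Continuous fun z : ℂ => (0 * (z.re - (cen P).re) + 1 * (z.im - (cen P).im)) ^ 2 := by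
    fun_prop
  have h3 : (fun z : ℂ => ‖z - cen P‖ ^ 2) = fun z =>
      (1 * (z.re - (cen P).re) + 0 * (z.im - (cen P).im)) ^ 2 +
      (0 * (z.re - (cen P).re) + 1 * (z.im - (cen P).im)) ^ 2 := by
    funext z
    rw [← Complex.normSq_eq_norm_sq, Complex.normSq_apply, Complex.sub_re, Complex.sub_im]
    ring
  rw [h3, lin_bdAdd c1 c2, mul_add]
  linarith

omit [NeZero n] in
private theorem lin_interior (h : PolyN Ω P) : (interior (KH P)).Nonempty := by
  unfold KH
  rw [interior_convexHull_nonempty_iff_affineSpan_eq_top]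
  have h1 := affineIndependent_iff_not_collinear_set.2 (h.angle 0)
  have h2 := h1.affineSpan_eq_top_iff_card_eq_finrank_add_one.2 (by
    rw [Complex.finrank_real_complex, Fintype.card_fin])
  rw [eq_top_iff, ← h2]
  apply affineSpan_mono
  rintro _ ⟨j, rfl⟩
  fin_cases j
  · exact ⟨_, rfl⟩
  · exact ⟨_, rfl⟩
  · exact ⟨_, rfl⟩

theorem cen_interior (hn : 3 ≤ n) (h : PolyN Ω P) : cen P ∈ interior (KH P) := by
  by_contra hc
  have hne := lin_interior h
  have hcv : Convex ℝ (KH P) := convex_convexHull ℝ _
  obtain ⟨f, hf⟩ := geometric_hahn_banach_open_point hcv.interior isOpen_interior hc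
  have hle : ∀ i, f (P i) ≤ f (cen P) := by
    intro i
    have h1 : P i ∈ closure (interior (KH P)) := by
      rw [hcv.closure_interior_eq_closure_of_nonempty_interior hne]
      exact subset_closure (subset_convexHull ℝ _ ⟨i, rfl⟩)
    have h2 : closure (interior (KH P)) ⊆ {z | f z ≤ f (cen P)} :=
      closure_minimal (fun z hz => (hf z hz).le) (isClosed_le f.continuous continuous_const)
    exact h2 h1
  have hfz : ∀ z : ℂ, f z = f 1 * z.re + f Complex.I * z.im := by
    intro z
    have h1 : z = z.re • (1 : ℂ) + z.im • Complex.I := by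
      apply Complex.ext <;> simp
    conv_lhs => rw [h1, map_add, map_smul, map_smul, smul_eq_mul, smul_eq_mul]
    ring
  have hbd := bdN_affine (perN_pos h) (-f 1) (-f Complex.I) (f (cen P))
  have h0 : perN P * (-f 1 * (cen P).re + -f Complex.I * (cen P).im + f (cen P)) = 0 := by
    rw [hfz (cen P)]
    ring
  rw [h0] at hbd
  unfold bdN at hbd
  have hterm : ∀ i, segInt (P i) (P (i + 1))
      (fun z => -f 1 * z.re + -f Complex.I * z.im + f (cen P)) =
      dist (P i) (P (i + 1)) * (((f (cen P) - f (P i)) + (f (cen P) - f (P (i + 1)))) / 2) := by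
    intro i
    rw [lin_segAff, hfz (P i), hfz (P (i + 1))]
    ring
  rw [Finset.sum_congr rfl fun i _ => hterm i] at hbd
  have hnn : ∀ i ∈ Finset.univ, 0 ≤
      dist (P i) (P (i + 1)) * (((f (cen P) - f (P i)) + (f (cen P) - f (P (i + 1)))) / 2) := by
    intro i _
    have e1 := hle i
    have e2 := hle (i + 1)
    have e3 : 0 ≤ ((f (cen P) - f (P i)) + (f (cen P) - f (P (i + 1)))) / 2 := by linarith
    exact mul_nonneg dist_nonneg e3
  rw [Finset.sum_eq_zero_iff_of_nonneg hnn] at hbd
  have heq : ∀ i, f (P i) = f (cen P) := by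
    intro i
    have e1 := hle i
    have e2 := hle (i + 1)
    have e3 := (mul_eq_zero.1 (hbd i (Finset.mem_univ i))).resolve_left
      (dist_ne_zero.2 (lin_ne h i))
    linarith
  obtain ⟨a, ha⟩ := hne
  have h1 : a ∈ KH P := interior_subset ha
  have h2 : KH P ⊆ {z | f z = f (cen P)} := by
    refine convexHull_min ?_ ?_
    · rintro _ ⟨i, rfl⟩
      exact heq i
    · exact (convex_hyperplane f.toLinearMap.isLinear (f (cen P)))
  exact (hf a ha).ne (h2 h1)

end Pool.Agent.NGN.A
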