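import Pool.Agent.NGN.A.HE
import Pool.Agent.NGN.A.Lin

/-!
# NGN, part A: all vertices are vertices of the hull

Every `P i` is the first end point of a hull edge, so it is extreme (`HE_extreme`).  PLAN (`conv_sign`).
Let `f_i z = cr (P (i + 1) - P i) (z - P i)`.
* (a) `f_i (P k) ≠ 0` for `k ≠ i, i + 1`: otherwise `P i, P (i + 1), P k` are three different collinear
  points, one of them is in the open segment of the other two, contradiction to `HE_extreme`.
* (b) all `f_i (P k)`, `k ≠ i, i + 1`, have the same sign: otherwise two consecutive `P j, P (j + 1)`,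
  `j, j + 1 ∉ {i, i + 1}`, are on different sides (go along `i + 2, i + 3, …, i + n - 1`), so there is
  `x ∈ openSegment (P j) (P (j + 1))` with `f_i x = 0`, i.e. `x = P i + s (P (i + 1) - P i)`.  `0 ≤ s ≤ 1`
  contradicts `opp`; `s > 1`: `P (i + 1) ∈ openSegment (P i) x`, `x ∈ KH P`, contradiction to
  `HE_extreme`; `s < 0`: `P i ∈ openSegment x (P (i + 1))`, the same.
* (c) `f_i (P (i + 2)) = f_(i+1) (P i)` (both are the cross product of the triangle), so the sign is the
  same for `i` and `i + 1`, hence for all `i`.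
* `conv_cases`: `P' = P` or `P' i = P (-i)`.  `bdN P' = bdN P`: `segInt` is symmetric
  (`t ↦ 1 - t`), `Equiv.sum_comp (Equiv.neg _)` and a shift.  `Cvx (P' - cen P)`: `left` does not change under
  translations; `pos`: `cr (P' i - c) (P' (i + 1) - c) = f'_i c > 0` since `f'_i ≥ 0` on `KH P`, `c` is in the
  interior (`cen_interior`) and `f'_i` is affine, not constant.
-/

set_option autoImplicit false
set_option linter.unusedSectionVars false

noncomputable section

namespace Pool.Agent.NGN.A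

open MeasureTheory Pool.Agent.Stk Set

variable {n : ℕ} [NeZero n] {P : ZMod n → ℂ} {Ω : Set ℂ}

/-- strict positivity inside -/
private theorem cv64_int {K : Set ℂ} {z D A : ℂ} (hz : z ∈ interior K) (hD : D ≠ 0)
    (h : ∀ y ∈ K, 0 ≤ cr D (y - A)) : 0 < cr D (z - A) := by
  rw [mem_interior_iff_mem_nhds, Metric.mem_nhds_iff] at hz
  obtain ⟨r, hr, hb⟩ := hz
  have hDn : 0 < ‖D‖ := norm_pos_iff.2 hD
  have hε : 0 < r / (2 * ‖D‖) := by positivity
  have hmem : z + ((r / (2 * ‖D‖) : ℝ) : ℂ) * (-Complex.I * D) ∈ Metric.ball z r := by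
    rw [Metric.mem_ball, dist_eq_norm]
    have : z + ((r / (2 * ‖D‖) : ℝ) : ℂ) * (-Complex.I * D) - z =
        ((r / (2 * ‖D‖) : ℝ) : ℂ) * (-Complex.I * D) := by ring
    rw [this, norm_mul, norm_mul, norm_neg, Complex.norm_I, one_mul, Complex.norm_real,
      Real.norm_of_nonneg hε.le]
    have : r / (2 * ‖D‖) * ‖D‖ = r / 2 := by field_simp
    rw [this]
    linarith
  have h1 := h _ (hb hmem)
  have h2 : cr D (z + ((r / (2 * ‖D‖) : ℝ) : ℂ) * (-Complex.I * D) - A) =
      cr D (z - A) - r / (2 * ‖D‖) * (D.re ^ 2 + D.im ^ 2) := by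
    have : z + ((r / (2 * ‖D‖) : ℝ) : ℂ) * (-Complex.I * D) - A =
        (z - A) + ((r / (2 * ‖D‖) : ℝ) : ℂ) * (-Complex.I * D) := by ring
    rw [this, cr_add_right, cr_smul_right]
    simp only [cr, Complex.mul_re, Complex.mul_im, Complex.neg_re, Complex.neg_im, Complex.I_re,
      Complex.I_im]
    ring
  rw [h2] at h1
  have h3 : 0 < D.re ^ 2 + D.im ^ 2 := by
    have : D.re ^ 2 + D.im ^ 2 = ‖D‖ ^ 2 := by
      rw [Complex.sq_norm, Complex.normSq_apply]; ring
    rw [this]
    positivity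
  have h4 : 0 < r / (2 * ‖D‖) * (D.re ^ 2 + D.im ^ 2) := mul_pos hε h3
  linarith

private theorem cv64_aff (D A x y : ℂ) (a b : ℝ) (hab : a + b = 1) :
    cr D (a • x + b • y - A) = a * cr D (x - A) + b * cr D (y - A) := by
  have h : b = 1 - a := by linarith
  subst h
  simp only [cr, Complex.sub_re, Complex.sub_im, Complex.add_re, Complex.add_im,
    Complex.real_smul, Complex.mul_re, Complex.mul_im, Complex.ofReal_re, Complex.ofReal_im]
  ring

private theorem cv64_mem (P : ZMod n → ℂ) (k : ZMod n) : P k ∈ KH P :=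
  subset_convexHull ℝ _ ⟨k, rfl⟩

/-- points of the hull on the line of a side belong to the side -/
private theorem cv64_seg (hn : 3 ≤ n) (h : PolyN Ω P) (hall : ∀ i, ∃ j, (i, j) ∈ HE P)
    (i : ZMod n) {z : ℂ} (hz : z ∈ KH P) (h0 : cr (P (i + 1) - P i) (z - P i) = 0) :
    z ∈ segment ℝ (P i) (P (i + 1)) := by
  have hinj := inj_of_poly hn h
  have hne : P i ≠ P (i + 1) := fun e => zmod_ne_succ hn i (hinj e)
  have hD : P (i + 1) - P i ≠ 0 := sub_ne_zero.2 hne.symm
  obtain ⟨s, hs⟩ : ∃ s : ℝ, z = P i + (s : ℂ) * (P (i + 1) - P i) := by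
    have hq : 0 < (P (i + 1) - P i).re ^ 2 + (P (i + 1) - P i).im ^ 2 := by
      have : (P (i + 1) - P i).re ^ 2 + (P (i + 1) - P i).im ^ 2 = ‖P (i + 1) - P i‖ ^ 2 := by
        rw [Complex.sq_norm, Complex.normSq_apply]; ring
      rw [this]
      have : 0 < ‖P (i + 1) - P i‖ := norm_pos_iff.2 hD
      positivity
    refine ⟨((P (i + 1) - P i).re * (z - P i).re + (P (i + 1) - P i).im * (z - P i).im) /
      ((P (i + 1) - P i).re ^ 2 + (P (i + 1) - P i).im ^ 2), ?_⟩
    generalize P (i + 1) - P i = D at *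
    have e : z - P i = ((D.re * (z - P i).re + D.im * (z - P i).im) /
        (D.re ^ 2 + D.im ^ 2) : ℝ) * D := by
      generalize z - P i = w at *
      unfold cr at h0
      apply Complex.ext
      · rw [Complex.re_ofReal_mul]
        field_simp
        linear_combination (-D.im) * h0
      · rw [Complex.im_ofReal_mul]
        field_simp
        linear_combination D.re * h0
    rw [← e]
    ring
  rcases lt_trichotomy s 0 with h1 | h1 | h1
  · exfalso
    obtain ⟨j, hj⟩ := hall i
    have hop : P i ∈ openSegment ℝ z (P (i + 1)) := by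
      have h2 : 0 < 1 - s := by linarith
      refine ⟨1 / (1 - s), -s / (1 - s), by positivity, div_pos (by linarith) h2,
        by field_simp; ring, ?_⟩
      rw [hs]
      simp only [Complex.real_smul]
      have h3 : ((1 - s : ℝ) : ℂ) ≠ 0 := by exact_mod_cast h2.ne'
      push_cast at h3 ⊢
      field_simp
      ring
    exact hne (HE_extreme hj hz (cv64_mem P (i + 1)) hop).2.symm
  · rw [hs, h1]
    have : P i + ((0 : ℝ) : ℂ) * (P (i + 1) - P i) = P i := by push_cast; ring
    rw [this]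
    exact left_mem_segment ℝ _ _
  · rcases le_or_gt s 1 with h2 | h2
    · refine ⟨1 - s, s, by linarith, h1.le, by ring, ?_⟩
      rw [hs]
      simp only [Complex.real_smul]
      push_cast
      ring
    · exfalso
      obtain ⟨j, hj⟩ := hall (i + 1)
      have hop : P (i + 1) ∈ openSegment ℝ (P i) z := by
        refine ⟨(s - 1) / s, 1 / s, div_pos (by linarith) h1, by positivity,
          by field_simp; ring, ?_⟩
        rw [hs]
        simp only [Complex.real_smul]
        have h3 : (s : ℂ) ≠ 0 := by exact_mod_cast h1.ne'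
        push_cast
        field_simp
        ring
      exact hne (HE_extreme hj (cv64_mem P i) hz hop).1

/-- (a) -/
private theorem cv64_ne (hn : 3 ≤ n) (h : PolyN Ω P) (hall : ∀ i, ∃ j, (i, j) ∈ HE P)
    {i k : ZMod n} (h1 : k ≠ i) (h2 : k ≠ i + 1) : cr (P (i + 1) - P i) (P k - P i) ≠ 0 := by
  intro h0
  have hinj := inj_of_poly hn h
  have hs := cv64_seg hn h hall i (cv64_mem P k) h0
  have hop : P k ∈ openSegment ℝ (P i) (P (i + 1)) :=
    mem_openSegment_of_ne_left_right (fun e => h1 (hinj e.symm)) (fun e => h2 (hinj e.symm)) hs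
  obtain ⟨j, hj⟩ := hall k
  exact h1 (hinj (HE_extreme hj (cv64_mem P i) (cv64_mem P (i + 1)) hop).1.symm)

/-- (b), one step -/
private theorem cv64_step (hn : 3 ≤ n) (h : PolyN Ω P) (hall : ∀ i, ∃ j, (i, j) ∈ HE P)
    {i j : ZMod n} (h1 : j ≠ i) (h2 : j ≠ i + 1) (h3 : i ≠ j + 1) :
    0 < cr (P (i + 1) - P i) (P j - P i) * cr (P (i + 1) - P i) (P (j + 1) - P i) := by
  have h4 : j + 1 ≠ i + 1 := fun e => h1 (add_right_cancel e)
  have n1 := cv64_ne hn h hall h1 h2
  have n2 := cv64_ne hn h hall (Ne.symm h3) h4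
  obtain ⟨a, ha⟩ : ∃ a, a = cr (P (i + 1) - P i) (P j - P i) := ⟨_, rfl⟩
  obtain ⟨b, hb⟩ : ∃ b, b = cr (P (i + 1) - P i) (P (j + 1) - P i) := ⟨_, rfl⟩
  rw [← ha] at n1 ⊢
  rw [← hb] at n2 ⊢
  by_contra hcon
  have hneg : a * b < 0 := lt_of_le_of_ne (not_lt.1 hcon) (mul_ne_zero n1 n2)
  have hab : a - b ≠ 0 := by
    intro e
    have : a = b := by linarith
    rw [this] at hneg
    nlinarith
  have hsq : 0 < (a - b) ^ 2 := by positivity
  have t0 : 0 ≤ a / (a - b) := by
    have : a / (a - b) = (a ^ 2 - a * b) / (a - b) ^ 2 := by field_simp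
    rw [this]
    have := sq_nonneg a
    exact div_nonneg (by linarith) hsq.le
  have t1 : 0 ≤ -b / (a - b) := by
    have : -b / (a - b) = (b ^ 2 - a * b) / (a - b) ^ 2 := by field_simp; ring
    rw [this]
    have := sq_nonneg b
    exact div_nonneg (by linarith) hsq.le
  have hsum : -b / (a - b) + a / (a - b) = 1 := by field_simp; ring
  have hx : (-b / (a - b)) • P j + (a / (a - b)) • P (j + 1) ∈
      segment ℝ (P j) (P (j + 1)) := ⟨_, _, t1, t0, hsum, rfl⟩
  have hK : (-b / (a - b)) • P j + (a / (a - b)) • P (j + 1) ∈ KH P :=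
    (convex_convexHull ℝ (range P)) (cv64_mem P j) (cv64_mem P (j + 1)) t1 t0 hsum
  have h0 : cr (P (i + 1) - P i)
      ((-b / (a - b)) • P j + (a / (a - b)) • P (j + 1) - P i) = 0 := by
    rw [cv64_aff _ _ _ _ _ _ hsum, ← ha, ← hb]
    field_simp
    ring
  exact Set.disjoint_left.1 (h.opp i j h1 h2 h3) (cv64_seg hn h hall i hK h0) hx

private theorem cv64_cast {m : ℕ} (hm : 0 < m) (hmn : m < n) : ((m : ℕ) : ZMod n) ≠ 0 := by
  intro e
  rw [ZMod.natCast_eq_zero_iff] at e
  have := Nat.le_of_dvd hm e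
  omega

/-- (b) -/
private theorem cv64_all (hn : 3 ≤ n) (h : PolyN Ω P) (hall : ∀ i, ∃ j, (i, j) ∈ HE P)
    (i : ZMod n) (m : ℕ) (hm : m + 3 ≤ n) :
    0 < cr (P (i + 1) - P i) (P (i + 1 + 1) - P i) *
      cr (P (i + 1) - P i) (P (i + 1 + 1 + (m : ℕ)) - P i) := by
  induction m with
  | zero =>
    have h1 := cv64_ne hn h hall (i := i) (k := i + 1 + 1) (Ne.symm (zmod_ne_succ2 hn i))
      (Ne.symm (zmod_ne_succ hn (i + 1)))
    have : i + 1 + 1 + ((0 : ℕ) : ZMod n) = i + 1 + 1 := by push_cast; ring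
    rw [this]
    exact mul_self_pos.2 h1
  | succ m ih =>
    have ih' := ih (by omega)
    have hj1 : i + 1 + 1 + (m : ZMod n) ≠ i := by
      intro e
      apply cv64_cast (n := n) (m := m + 2) (by omega) (by omega)
      push_cast
      have := congrArg (fun x => x - i) e
      simp only [sub_self] at this
      rw [← this]
      ring
    have hj2 : i + 1 + 1 + (m : ZMod n) ≠ i + 1 := by
      intro e
      apply cv64_cast (n := n) (m := m + 1) (by omega) (by omega)
      push_cast
      have := congrArg (fun x => x - (i + 1)) e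
      simp only [sub_self] at this
      rw [← this]
      ring
    have hj3 : i ≠ i + 1 + 1 + (m : ZMod n) + 1 := by
      intro e
      apply cv64_cast (n := n) (m := m + 3) (by omega) (by omega)
      push_cast
      have := congrArg (fun x => x - i) e.symm
      simp only [sub_self] at this
      rw [← this]
      ring
    have st := cv64_step hn h hall hj1 hj2 hj3
    have e : i + 1 + 1 + ((m + 1 : ℕ) : ZMod n) = i + 1 + 1 + (m : ZMod n) + 1 := by
      push_cast; ring
    rw [e]
    rcases pos_and_pos_or_neg_and_neg_of_mul_pos ih' with ⟨p1, p2⟩ | ⟨p1, p2⟩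
    · exact mul_pos p1 ((mul_pos_iff_of_pos_left p2).1 st)
    · rcases pos_and_pos_or_neg_and_neg_of_mul_pos st with ⟨q1, q2⟩ | ⟨q1, q2⟩
      · exact absurd q1 (not_lt.2 p2.le)
      · exact mul_pos_of_neg_of_neg p1 q2

/-- (b), final form -/
private theorem cv64_same (hn : 3 ≤ n) (h : PolyN Ω P) (hall : ∀ i, ∃ j, (i, j) ∈ HE P)
    {i k : ZMod n} (h1 : k ≠ i) (h2 : k ≠ i + 1) :
    0 < cr (P (i + 1) - P i) (P (i + 1 + 1) - P i) * cr (P (i + 1) - P i) (P k - P i) := by
  obtain ⟨m, hm⟩ : ∃ m : ℕ, m = (k - (i + 1 + 1)).val := ⟨_, rfl⟩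
  have hk : k = i + 1 + 1 + (m : ZMod n) := by
    rw [hm, ZMod.natCast_zmod_val]
    ring
  have hlt : m < n := by rw [hm]; exact ZMod.val_lt _
  have hm1 : m + 1 ≠ n := by
    intro e
    apply h2
    have e2 : ((m + 1 : ℕ) : ZMod n) = 0 := by rw [e]; exact ZMod.natCast_self n
    push_cast at e2
    have e3 : (m : ZMod n) = -1 := eq_neg_of_add_eq_zero_left e2
    rw [hk, e3]
    ring
  have hm2 : m + 2 ≠ n := by
    intro e
    apply h1
    have e2 : ((m + 2 : ℕ) : ZMod n) = 0 := by rw [e]; exact ZMod.natCast_self n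
    push_cast at e2
    have e3 : (m : ZMod n) = -2 := eq_neg_of_add_eq_zero_left e2
    rw [hk, e3]
    ring
  rw [hk]
  exact cv64_all hn h hall i m (by omega)

/-- (c) -/
private theorem cv64_next (hn : 3 ≤ n) (h : PolyN Ω P) (hall : ∀ i, ∃ j, (i, j) ∈ HE P)
    (i : ZMod n) : 0 < cr (P (i + 1) - P i) (P (i + 1 + 1) - P i) *
      cr (P (i + 1 + 1) - P (i + 1)) (P (i + 1 + 1 + 1) - P (i + 1)) := by
  have h1 := cv64_same hn h hall (i := i + 1) (k := i) (zmod_ne_succ hn i) (zmod_ne_succ2 hn i)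
  have h2 : cr (P (i + 1 + 1) - P (i + 1)) (P i - P (i + 1)) =
      cr (P (i + 1) - P i) (P (i + 1 + 1) - P i) := by
    simp only [cr, Complex.sub_re, Complex.sub_im]
    ring
  rw [h2] at h1
  linarith

theorem conv_sign (hn : 3 ≤ n) (h : PolyN Ω P) (hall : ∀ i, ∃ j, (i, j) ∈ HE P) :
    (∀ i k, k ≠ i → k ≠ i + 1 → 0 < cr (P (i + 1) - P i) (P k - P i)) ∨
    (∀ i k, k ≠ i → k ≠ i + 1 → cr (P (i + 1) - P i) (P k - P i) < 0) := by
  obtain ⟨F, hF⟩ : ∃ F : ZMod n → ℝ, ∀ i, F i = cr (P (i + 1) - P i) (P (i + 1 + 1) - P i) :=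
    ⟨_, fun _ => rfl⟩
  have hnext : ∀ i, 0 < F i * F (i + 1) := by
    intro i
    rw [hF, hF]
    exact cv64_next hn h hall i
  have hsame : ∀ i k, k ≠ i → k ≠ i + 1 → 0 < F i * cr (P (i + 1) - P i) (P k - P i) := by
    intro i k h1 h2
    rw [hF]
    exact cv64_same hn h hall h1 h2
  have hne : F 0 ≠ 0 := by
    intro e
    have := hnext 0
    rw [e, zero_mul] at this
    exact lt_irrefl _ this
  have hm : ∀ m : ℕ, 0 < F 0 * F (m : ZMod n) := by
    intro m
    induction m with
    | zero =>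
      push_cast
      exact mul_self_pos.2 hne
    | succ m ih =>
      have st := hnext (m : ZMod n)
      push_cast
      rcases pos_and_pos_or_neg_and_neg_of_mul_pos ih with ⟨p1, p2⟩ | ⟨p1, p2⟩
      · exact mul_pos p1 ((mul_pos_iff_of_pos_left p2).1 st)
      · rcases pos_and_pos_or_neg_and_neg_of_mul_pos st with ⟨q1, q2⟩ | ⟨q1, q2⟩
        · exact absurd q1 (not_lt.2 p2.le)
        · exact mul_pos_of_neg_of_neg p1 q2
  have hi : ∀ i, 0 < F 0 * F i := by
    intro i
    have := hm i.val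
    rwa [ZMod.natCast_zmod_val] at this
  rcases lt_or_gt_of_ne hne with hs | hs
  · right
    intro i k h1 h2
    have a1 : F i < 0 := by
      by_contra hc
      have := mul_nonpos_of_nonpos_of_nonneg hs.le (not_lt.1 hc)
      linarith [hi i]
    by_contra hc
    have := mul_nonpos_of_nonpos_of_nonneg a1.le (not_lt.1 hc)
    linarith [hsame i k h1 h2]
  · left
    intro i k h1 h2
    have a1 : 0 < F i := (mul_pos_iff_of_pos_left hs).1 (hi i)
    exact (mul_pos_iff_of_pos_left a1).1 (hsame i k h1 h2)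

theorem segInt_symm (a b : ℂ) (f : ℂ → ℝ) : segInt a b f = segInt b a f := by
  unfold segInt
  rw [dist_comm a b]
  congr 1
  have h1 := intervalIntegral.integral_comp_sub_left
    (a := (0 : ℝ)) (b := 1) (fun t : ℝ => f (b + (t : ℂ) * (a - b))) 1
  simp only [sub_self, sub_zero] at h1
  rw [← h1]
  apply intervalIntegral.integral_congr
  intro t _
  show f (a + (t : ℂ) * (b - a)) = f (b + ((1 - t : ℝ) : ℂ) * (a - b))
  congr 1
  push_cast
  ring

private theorem cv64_cvx (hn : 3 ≤ n) {Q : ZMod n → ℂ} {c : ℂ} (hc : c ∈ interior (KH Q))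
    (hl : ∀ i k, k ≠ i → k ≠ i + 1 → 0 < cr (Q (i + 1) - Q i) (Q k - Q i)) :
    Cvx (fun i => Q i - c) := by
  refine ⟨fun i => ?_, fun i k h1 h2 => ?_⟩
  · have hD : Q (i + 1) - Q i ≠ 0 := by
      intro e
      have := hl i (i + 1 + 1) (Ne.symm (zmod_ne_succ2 hn i)) (Ne.symm (zmod_ne_succ hn (i + 1)))
      rw [e, cr_zero_left] at this
      exact lt_irrefl _ this
    have hy : ∀ y ∈ KH Q, 0 ≤ cr (Q (i + 1) - Q i) (y - Q i) := by
      intro y hy
      have hcv : Convex ℝ {z : ℂ | 0 ≤ cr (Q (i + 1) - Q i) (z - Q i)} := by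
        intro x hx y hy a b ha hb hab
        show 0 ≤ cr (Q (i + 1) - Q i) (a • x + b • y - Q i)
        rw [cv64_aff _ _ _ _ _ _ hab]
        exact add_nonneg (mul_nonneg ha hx) (mul_nonneg hb hy)
      refine convexHull_min ?_ hcv hy
      rintro _ ⟨k, rfl⟩
      show 0 ≤ cr (Q (i + 1) - Q i) (Q k - Q i)
      by_cases h1 : k = i
      · rw [h1, sub_self, cr_zero_right]
      · by_cases h2 : k = i + 1
        · rw [h2, cr_self]
        · exact (hl i k h1 h2).le
    have h3 := cv64_int hc hD hy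
    have h4 : cr (Q i - c) (Q (i + 1) - c) = cr (Q (i + 1) - Q i) (c - Q i) := by
      simp only [cr, Complex.sub_re, Complex.sub_im]
      ring
    show 0 < cr (Q i - c) (Q (i + 1) - c)
    rw [h4]
    exact h3
  · have h3 := hl i k h1 h2
    show 0 < cr (Q (i + 1) - c - (Q i - c)) (Q k - c - (Q i - c))
    have e1 : Q (i + 1) - c - (Q i - c) = Q (i + 1) - Q i := by ring
    have e2 : Q k - c - (Q i - c) = Q k - Q i := by ring
    rw [e1, e2]
    exact h3

theorem conv_cases (hn : 3 ≤ n) (h : PolyN Ω P) (hall : ∀ i, ∃ j, (i, j) ∈ HE P) :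
    ∃ P' : ZMod n → ℂ, (∀ f : ℂ → ℝ, bdN P' f = bdN P f) ∧ Cvx (fun i => P' i - cen P) ∧
      range P' = range P := by
  have hcen := cen_interior hn h
  rcases conv_sign hn h hall with hs | hs
  · exact ⟨P, fun _ => rfl, cv64_cvx hn hcen hs, rfl⟩
  · have hr : range (fun i => P (-i)) = range P := by
      ext z
      constructor
      · rintro ⟨i, rfl⟩
        exact ⟨-i, rfl⟩
      · rintro ⟨i, rfl⟩
        exact ⟨-i, by simp⟩
    refine ⟨fun i => P (-i), fun f => ?_, ?_, hr⟩
    · unfold bdN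
      have e := Equiv.sum_comp ((Equiv.addRight (1 : ZMod n)).trans (Equiv.neg _))
        (fun i => segInt (P i) (P (i + 1)) f)
      rw [← e]
      refine Finset.sum_congr rfl fun i _ => ?_
      show segInt (P (-i)) (P (-(i + 1))) f = segInt (P (-(i + 1))) (P (-(i + 1) + 1)) f
      have e1 : -(i + 1) + 1 = -i := by ring
      rw [e1]
      exact segInt_symm _ _ _
    · refine cv64_cvx hn (Q := fun i => P (-i)) ?_ ?_
      · unfold KH
        rw [hr]
        exact hcen
      · intro i k h1 h2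
        show 0 < cr (P (-(i + 1)) - P (-i)) (P (-k) - P (-i))
        have e1 : -i = -(i + 1) + 1 := by ring
        have h3 : -k ≠ -(i + 1) := fun e => h2 (neg_injective e)
        have h4 : -k ≠ -(i + 1) + 1 := by
          rw [← e1]
          exact fun e => h1 (neg_injective e)
        have h5 := hs (-(i + 1)) (-k) h3 h4
        rw [← e1] at h5
        have h6 : cr (P (-(i + 1)) - P (-i)) (P (-k) - P (-i)) =
            - cr (P (-i) - P (-(i + 1))) (P (-k) - P (-(i + 1))) := by
          simp only [cr, Complex.sub_re, Complex.sub_im]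
          ring
        rw [h6]
        linarith

end Pool.Agent.NGN.A
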