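import Pool.Agent.NGN.A.NC
import Pool.Agent.NGN.A.Conv

/-!
# NGN, part A: the two cases
-/

set_option autoImplicit false

noncomputable section

namespace Pool.Agent.NGN

open MeasureTheory Pool.Agent.Stk Set

namespace A

variable {n : ℕ} [NeZero n] {P : ZMod n → ℂ} {Ω : Set ℂ}

theorem bdN_translate (P : ZMod n → ℂ) (c : ℂ) (f : ℂ → ℝ) :
    bdN (fun i => P i - c) f = bdN P (fun z => f (z - c)) := by
  unfold bdN segInt
  apply Finset.sum_congr rfl
  intro i _
  congr 1
  · rw [dist_sub_right]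
  · congr 1
    funext t
    congr 1
    ring

theorem preimage_frontier_add (c : ℂ) (Ω : Set ℂ) :
    frontier ((fun z => z + c) ⁻¹' Ω) = (fun z => z + c) ⁻¹' frontier Ω :=
  ((Homeomorph.addRight c).preimage_frontier Ω).symm

theorem volume_translate (c : ℂ) (Ω : Set ℂ) :
    volume.real ((fun z => z + c) ⁻¹' Ω) = volume.real Ω := by
  unfold Measure.real
  rw [measure_preimage_add_right]

theorem KH_translate (P : ZMod n → ℂ) (c : ℂ) :
    KH (fun i => P i - c) = (fun z => z + c) ⁻¹' KH P := by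
  have h1 : range (fun i => P i - c) = (AffineEquiv.constVAdd ℝ ℂ (-c)) '' range P := by
    rw [← range_comp]
    congr 1
    funext i
    simp [sub_eq_neg_add]
  have h2 : KH (fun i => P i - c) = (AffineEquiv.constVAdd ℝ ℂ (-c)) '' KH P := by
    unfold KH
    rw [h1]
    exact (AffineMap.image_convexHull (AffineEquiv.constVAdd ℝ ℂ (-c)).toAffineMap
      (range P)).symm
  rw [h2]
  ext z
  constructor
  · rintro ⟨w, hw, rfl⟩
    simpa using hw
  · intro hz
    exact ⟨z + c, hz, by simp⟩

theorem segment_translate (a b x c : ℂ) :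
    x - c ∈ segment ℝ (a - c) (b - c) ↔ x ∈ segment ℝ a b := by
  constructor
  · rintro ⟨s, t, hs, ht, hst, h⟩
    refine ⟨s, t, hs, ht, hst, ?_⟩
    have : s • a + t • b = (s • (a - c) + t • (b - c)) + (s + t) • c := by module
    rw [this, h, hst, one_smul]
    ring
  · rintro ⟨s, t, hs, ht, hst, rfl⟩
    refine ⟨s, t, hs, ht, hst, ?_⟩
    have : s • (a - c) + t • (b - c) = s • a + t • b - (s + t) • c := by module
    rw [this, hst, one_smul]

theorem HE_translate (P : ZMod n → ℂ) (c : ℂ) : HE (fun i => P i - c) = HE P := by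
  ext e
  rw [mem_HE, mem_HE]
  have e1 : ∀ a b : ℂ, a - c - (b - c) = a - b := fun a b => by ring
  simp only [e1, segment_translate, ne_eq, sub_left_inj]

/-- The bound in the nonconvex case. -/
theorem nonconvex_bound (hn : 5 ≤ n) {k : ℕ∞} (h : PolyN Ω P)
    (hc : (HE P).card ≤ n - 1) :
    sigN k Ω P * Real.sqrt (volume.real Ω) ≤ BB (n - 1) := by
  have hm : 4 ≤ n - 1 := by omega
  obtain ⟨hτ0, hτ1, harc⟩ := tau_facts hm
  have hδ : 0 < delN (n - 1) := by unfold delN; positivity
  have hBB : 0 ≤ BB (n - 1) := div_nonneg (Real.sqrt_nonneg _) hδ.le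
  set c := cen P with hcd
  rcases (measureReal_nonneg : 0 ≤ volume.real Ω).eq_or_lt with hA | hA
  · rw [← hA, Real.sqrt_zero, mul_zero]
    exact hBB
  have h1 := lin_trial (k := k) h
  have h2 := nc_main (P := fun i => P i - c) (Ω := (fun z => z + c) ⁻¹' Ω)
    (fun i j hij => inj_of_poly (by omega) h (sub_left_inj.1 hij))
    (by
      rw [KH_translate]
      have h3 := cen_interior (by omega : 3 ≤ n) h
      have h4 := (Homeomorph.addRight c).preimage_interior (KH P)
      change (fun z => z + c) ⁻¹' interior (KH P) = interior ((fun z => z + c) ⁻¹' KH P) at h4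
      rw [← h4]
      simpa using h3)
    (h.isOpen.preimage (by fun_prop))
    (by
      have h3 := h.bounded
      rw [Metric.isBounded_iff_subset_closedBall 0] at h3 ⊢
      obtain ⟨R, hR⟩ := h3
      refine ⟨R + ‖c‖, fun z hz => ?_⟩
      have h4 := hR hz
      rw [mem_closedBall_zero_iff] at h4 ⊢
      calc ‖z‖ = ‖(z + c) - c‖ := by ring_nf
        _ ≤ ‖z + c‖ + ‖c‖ := norm_sub_le _ _
        _ ≤ R + ‖c‖ := by linarith)
    (by
      rw [preimage_frontier_add, h.frontier_eq]
      intro z hz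
      simp only [mem_preimage, mem_iUnion] at hz ⊢
      obtain ⟨i, hi⟩ := hz
      refine ⟨i, ?_⟩
      rw [← segment_translate _ _ _ c] at hi
      simpa using hi)
    hm (by rw [HE_translate]; exact hc) (by rw [volume_translate]; exact hA)
  rw [volume_translate, bdN_translate] at h2
  set A := volume.real Ω with hAd
  set M := bdN P (fun z => ‖z - c‖ ^ 2) with hM
  set s := Real.sqrt A with hs
  set q := Real.sqrt (((n - 1 : ℕ) : ℝ) * tauN (n - 1)) with hq
  have hs0 : 0 < s := Real.sqrt_pos.2 hA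
  have hM0 : 0 < M := by
    by_contra hneg
    push Not at hneg
    have h5 : 0 < 2 * delN (n - 1) * A * s := by positivity
    have h6 : q * M ≤ 0 := mul_nonpos_of_nonneg_of_nonpos (Real.sqrt_nonneg _) hneg
    linarith
  have h7 : BB (n - 1) = q / delN (n - 1) := rfl
  rw [h7, le_div_iff₀ hδ]
  -- `sig * s * δ * M ≤ 2 A s δ ≤ q M`
  have h8 : sigN k Ω P * s * delN (n - 1) * M ≤ q * M := by
    calc sigN k Ω P * s * delN (n - 1) * M = sigN k Ω P * M * (s * delN (n - 1)) := by ring
      _ ≤ 2 * A * (s * delN (n - 1)) := mul_le_mul_of_nonneg_right h1 (by positivity)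
      _ = 2 * delN (n - 1) * A * s := by ring
      _ ≤ q * M := h2
  exact le_of_mul_le_mul_right h8 hM0

end A

theorem A_cases {n : ℕ} [NeZero n] (hn : 5 ≤ n) {k : ℕ∞} {Ω : Set ℂ} {P : ZMod n → ℂ}
    (h : PolyN Ω P) :
    sigN k Ω P * Real.sqrt (volume.real Ω) ≤ BB (n - 1) ∨
    ∃ P' : ZMod n → ℂ, (∀ f : ℂ → ℝ, bdN P' f = bdN P f) ∧ Cvx (fun i => P' i - cen P) ∧
      Ω ⊆ convexHull ℝ (Set.range P') := by
  by_cases hall : ∀ i, ∃ j, (i, j) ∈ A.HE P
  · right
    obtain ⟨P', h1, h2, h3⟩ := A.conv_cases (by omega) h hall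
    refine ⟨P', h1, h2, ?_⟩
    rw [h3]
    exact A.omega_hull h.bounded h.frontier_eq.subset
  · left
    push Not at hall
    obtain ⟨i, hi⟩ := hall
    exact A.nonconvex_bound hn h (A.HE_card (A.inj_of_poly (by omega) h) hi)

end Pool.Agent.NGN
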