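import Pool.Agent.NGN.A.HE
import Pool.Agent.Stk.Tri

/-!
# NGN, part A: the triangles over the hull edges cover the hull

PLAN (`HE_cover`).  `z ∈ KH P`, `z` not on a ray through a vertex (so `z ≠ 0`).  `KH P` is compact: let
`s ≥ 1` be maximal with `x := s z ∈ KH P`.  Then `x ∉ interior (KH P)`, and by
`geometric_hahn_banach_open_point` (interior of a convex set is convex and open) there is a linear
functional `f` with `f a < f x` for `a ∈ interior (KH P)`; so `f ≤ f x` on `KH P`
(`Convex.closure_interior_eq_closure_of_nonempty_interior` or the segment from `0`) and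
`0 < f x` (`0` is interior).  Write `f z = ip v z` (`v ≠ 0`).  Let `F = {k | f (P k) = f x}`; `x` is a convex
combination of the `P k`, `k ∈ F`.  Let `i, j ∈ F` minimise / maximise the coordinate along the line
`{f = f x}` (direction `i v`, so that `0` is on the left): `x ∈ [P i, P j]`, all `P k`, `k ∈ F`, are in
`[P i, P j]`; `P i ≠ P j` because `x ≠ P k` for all `k`; so `(i, j) ∈ HE P`, and `x ∈ [P i, P j]`, `z = x / s`
is in `Tr (P i) (P j)`.

`vol_Tr`: `Tr v w` is the image of `{(a, b) | 0 ≤ a, 0 ≤ b, a + b ≤ 1}` under `(a, b) ↦ a v + b w`, determinant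
`cr v w` (see `Pool/Agent/Stk/Pull.lean`, `Pool/Agent/Stk/Tri.lean` for the area of a triangle).

`vol_hull_le`: the points on the rays through the vertices form a null set (finitely many lines,
`Measure.addHaar_submodule` / `addHaar_affineSubspace`), `measure_biUnion_finset_le`, `HE_pos`.
-/

set_option autoImplicit false

noncomputable section

namespace Pool.Agent.NGN.A

open MeasureTheory Pool.Agent.Stk Set

variable {n : ℕ} [NeZero n] {P : ZMod n → ℂ}

omit [NeZero n] in
private theorem Cover_hull {b c : ℂ} (h : ∀ k, 0 ≤ cr b (P k - c)) {z : ℂ} (hz : z ∈ KH P) :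
    0 ≤ cr b (z - c) := by
  have hsub : KH P ⊆ {y : ℂ | 0 ≤ cr b (y - c)} := by
    refine convexHull_min ?_ ?_
    · rintro _ ⟨k, rfl⟩
      exact h k
    · intro x hx y hy s t hs ht hst
      have hx' : 0 ≤ cr b (x - c) := hx
      have hy' : 0 ≤ cr b (y - c) := hy
      have e : cr b (s • x + t • y - c) = s * cr b (x - c) + t * cr b (y - c) := by
        simp only [cr, Complex.sub_re, Complex.sub_im, Complex.add_re, Complex.add_im,
          Complex.real_smul, Complex.mul_re, Complex.mul_im, Complex.ofReal_re, Complex.ofReal_im]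
        linear_combination (b.re * c.im - b.im * c.re) * hst
      show 0 ≤ cr b (s • x + t • y - c)
      rw [e]
      exact add_nonneg (mul_nonneg hs hx') (mul_nonneg ht hy')
  exact hsub hz

omit [NeZero n] in
private theorem Cover_zero (h0 : (0 : ℂ) ∈ interior (KH P)) {b : ℂ} (h : ∀ k, 0 ≤ cr b (P k)) :
    b = 0 := by
  have ht : Filter.Tendsto (fun ε : ℝ => (ε : ℂ) * (-(Complex.I * b))) (nhds 0) (nhds 0) := by
    have hc : Continuous fun ε : ℝ => (ε : ℂ) * (-(Complex.I * b)) := by fun_prop
    have := hc.tendsto 0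
    simpa using this
  have hev : ∀ᶠ ε : ℝ in nhds 0, (ε : ℂ) * (-(Complex.I * b)) ∈ KH P :=
    (ht.eventually (isOpen_interior.mem_nhds h0)).mono fun ε hε => interior_subset hε
  obtain ⟨ε, hε1, hε2⟩ := ((hev.filter_mono nhdsWithin_le_nhds).and
    (self_mem_nhdsWithin (a := (0 : ℝ)) (s := Set.Ioi 0))).exists
  have h1 := Cover_hull (b := b) (c := 0) (by simpa using h) hε1
  have hε : 0 < ε := hε2
  rw [sub_zero, cr_smul_right] at h1
  have e : cr b (-(Complex.I * b)) = -(b.re ^ 2 + b.im ^ 2) := by
    simp only [cr, Complex.neg_re, Complex.neg_im, Complex.mul_re, Complex.mul_im, Complex.I_re,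
      Complex.I_im]
    ring
  rw [e] at h1
  have h2 : b.re ^ 2 + b.im ^ 2 ≤ 0 := by
    by_contra hcon
    push Not at hcon
    have := mul_pos hε hcon
    linarith
  have h3 : b.re = 0 := by nlinarith [sq_nonneg b.re, sq_nonneg b.im]
  have h4 : b.im = 0 := by nlinarith [sq_nonneg b.re, sq_nonneg b.im]
  exact Complex.ext h3 h4

private theorem Cover_seg {v w p z : ℂ} (h : cr (w - v) (p - v) = 0) (h1 : cr w z ≤ cr p z)
    (h2 : cr p z ≤ cr v z) (h3 : cr w z < cr v z) : p ∈ segment ℝ v w := by
  have hd : 0 < cr v z - cr w z := by linarith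
  have hdc : ((cr v z - cr w z : ℝ) : ℂ) ≠ 0 := by exact_mod_cast hd.ne'
  have key : ((cr v z - cr w z : ℝ) : ℂ) * p =
      ((cr p z - cr w z : ℝ) : ℂ) * v + ((cr v z - cr p z : ℝ) : ℂ) * w := by
    apply Complex.ext
    · simp only [cr, Complex.add_re, Complex.sub_re, Complex.sub_im, Complex.mul_re,
        Complex.ofReal_re, Complex.ofReal_im] at h ⊢
      linear_combination (-z.re) * h
    · simp only [cr, Complex.add_im, Complex.sub_re, Complex.sub_im, Complex.mul_im,
        Complex.ofReal_re, Complex.ofReal_im] at h ⊢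
      linear_combination (-z.im) * h
  refine ⟨(cr p z - cr w z) / (cr v z - cr w z), (cr v z - cr p z) / (cr v z - cr w z),
    div_nonneg (by linarith) hd.le, div_nonneg (by linarith) hd.le, ?_, ?_⟩
  · rw [← add_div, div_eq_one_iff_eq hd.ne']
    ring
  · rw [Complex.real_smul, Complex.real_smul]
    push_cast at key hdc ⊢
    field_simp
    linear_combination -key

theorem HE_cover (h0 : (0 : ℂ) ∈ interior (KH P)) {z : ℂ} (hz : z ∈ KH P)
    (hg : ∀ (k : ZMod n) (t : ℝ), (t : ℂ) * P k ≠ z) (hz0 : z ≠ 0) :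
    ∃ e ∈ HE P, z ∈ Tr (P e.1) (P e.2) := by
  classical
  -- the side of a vertex with respect to the line through `0` and `z`
  set a : ZMod n → ℝ := fun k => cr (P k) z with ha
  have hzero : ∀ k, a k = 0 → P k = 0 := by
    intro k hk
    have hk' : (P k).re * z.im - (P k).im * z.re = 0 := hk
    have hzn : z.re ^ 2 + z.im ^ 2 ≠ 0 := by
      intro hh
      apply hz0
      have h5 : z.re ^ 2 = 0 := by nlinarith [sq_nonneg z.re, sq_nonneg z.im]
      have h6 : z.im ^ 2 = 0 := by nlinarith [sq_nonneg z.re, sq_nonneg z.im]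
      exact Complex.ext (by simpa using h5) (by simpa using h6)
    set c : ℝ := ((P k).re * z.re + (P k).im * z.im) / (z.re ^ 2 + z.im ^ 2) with hc
    have hPk : P k = (c : ℂ) * z := by
      apply Complex.ext
      · simp only [Complex.mul_re, Complex.ofReal_re, Complex.ofReal_im, zero_mul, sub_zero]
        rw [hc, div_mul_eq_mul_div, eq_div_iff hzn]
        linear_combination (z.im) * hk'
      · simp only [Complex.mul_im, Complex.ofReal_re, Complex.ofReal_im, zero_mul, add_zero]
        rw [hc, div_mul_eq_mul_div, eq_div_iff hzn]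
        linear_combination (-z.re) * hk'
    by_cases hc0 : c = 0
    · rw [hPk, hc0]
      simp
    · exfalso
      apply hg k (1 / c)
      rw [hPk]
      have hcc : (c : ℂ) ≠ 0 := by exact_mod_cast hc0
      push_cast
      field_simp
  -- there are vertices on both sides
  have hex1 : ∃ k, 0 < a k := by
    by_contra hcon
    push Not at hcon
    apply hz0
    apply Cover_zero h0
    intro k
    rw [cr_swap]
    have := hcon k
    simp only [ha] at this
    linarith
  have hex2 : ∃ k, a k < 0 := by
    by_contra hcon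
    push Not at hcon
    apply hz0
    rw [← neg_eq_zero]
    apply Cover_zero h0
    intro k
    have := hcon k
    simp only [ha] at this
    have e : cr (-z) (P k) = cr (P k) z := by
      simp only [cr, Complex.neg_re, Complex.neg_im]
      ring
    rw [e]
    exact this
  obtain ⟨k1, hk1⟩ := hex1
  obtain ⟨k2, hk2⟩ := hex2
  let S : Finset (ZMod n × ZMod n) := Finset.univ.filter fun e => 0 < a e.1 ∧ a e.2 < 0
  have hS : ∀ e, e ∈ S ↔ 0 < a e.1 ∧ a e.2 < 0 := fun e => by simp [S]
  let τ : ZMod n × ZMod n → ℝ := fun e => cr (P e.1) (P e.2) / (a e.1 - a e.2)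
  obtain ⟨e0, he0, hmax0⟩ := S.exists_max_image τ ⟨(k1, k2), (hS _).2 ⟨hk1, hk2⟩⟩
  let S' : Finset (ZMod n × ZMod n) := S.filter fun e => τ e = τ e0
  obtain ⟨e1, he1, hmax1⟩ := S'.exists_max_image (fun e => a e.1 - a e.2)
    ⟨e0, Finset.mem_filter.2 ⟨he0, rfl⟩⟩
  obtain ⟨he1S, hτ⟩ := Finset.mem_filter.1 he1
  obtain ⟨i, j⟩ := e1
  obtain ⟨hi, hj⟩ := (hS _).1 he1S
  simp only at hi hj
  have hij : 0 < a i - a j := by linarith
  have hmaxτ : ∀ e ∈ S, τ e ≤ τ (i, j) := fun e he => by rw [hτ]; exact hmax0 e he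
  have hmaxσ : ∀ e ∈ S, τ e = τ (i, j) → a e.1 - a e.2 ≤ a i - a j := fun e he hte =>
    hmax1 e (Finset.mem_filter.2 ⟨he, by rw [hte, hτ]⟩)
  -- the identity for the left side
  have idl : ∀ k, cr (P j - P i) (P k - P i) * a i =
      cr (P i) (P j) * (a i - a k) - cr (P i) (P k) * (a i - a j) := by
    intro k
    simp only [ha, cr, Complex.sub_re, Complex.sub_im]
    ring
  have idr : ∀ k, cr (P j - P i) (P k - P i) * (-a j) =
      cr (P i) (P j) * (a k - a j) - cr (P k) (P j) * (a i - a j) := by
    intro k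
    simp only [ha, cr, Complex.sub_re, Complex.sub_im]
    ring
  have hleft : ∀ k, a k < 0 → 0 ≤ cr (P j - P i) (P k - P i) := by
    intro k hk
    have h1 := hmaxτ (i, k) ((hS _).2 ⟨hi, hk⟩)
    simp only [τ] at h1
    rw [div_le_div_iff₀ (by linarith) hij] at h1
    have h2 : 0 ≤ cr (P j - P i) (P k - P i) * a i := by rw [idl]; linarith
    exact nonneg_of_mul_nonneg_left h2 hi
  have hright : ∀ k, 0 < a k → 0 ≤ cr (P j - P i) (P k - P i) := by
    intro k hk
    have h1 := hmaxτ (k, j) ((hS _).2 ⟨hk, hj⟩)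
    simp only [τ] at h1
    rw [div_le_div_iff₀ (by linarith) hij] at h1
    have h2 : 0 ≤ cr (P j - P i) (P k - P i) * (-a j) := by rw [idr]; linarith
    exact nonneg_of_mul_nonneg_left h2 (by linarith)
  have hne : P i ≠ P j := by
    intro hh
    have : a i = a j := by simp only [ha, hh]
    linarith
  -- `0` is on the inner side
  have h00 : 0 ≤ cr (P j - P i) (0 - P i) := by
    by_contra hcon
    push Not at hcon
    apply hne
    symm
    rw [← sub_eq_zero]
    apply Cover_zero h0
    intro k
    have e : cr (P j - P i) (P k) = cr (P j - P i) (P k - P i) - cr (P j - P i) (0 - P i) := by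
      rw [← cr_sub_right]
      congr 1
      ring
    rcases lt_trichotomy (a k) 0 with h | h | h
    · rw [e]
      have := hleft k h
      linarith
    · rw [hzero k h, cr_zero_right]
    · rw [e]
      have := hright k h
      linarith
  have hall : ∀ k, 0 ≤ cr (P j - P i) (P k - P i) := by
    intro k
    rcases lt_trichotomy (a k) 0 with h | h | h
    · exact hleft k h
    · rw [hzero k h]
      exact h00
    · exact hright k h
  have hzf := Cover_hull hall hz
  rw [side_fun] at hzf
  have hzj : 0 < cr z (P j) := by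
    rw [cr_swap]
    simp only [ha] at hj
    linarith
  have hzi : 0 < cr (P i) z := hi
  have hCij : 0 < cr (P i) (P j) := by linarith
  have hseg0 : ∀ k, cr (P j - P i) (P k - P i) = 0 → a j ≤ a k → a k ≤ a i →
      P k ∈ segment ℝ (P i) (P j) := fun k h1 h2 h3 =>
    Cover_seg (z := z) h1 h2 h3 (by simp only [ha] at hij; linarith)
  refine ⟨(i, j), ?_, ⟨hzi.le, hzj.le, by simp only; linarith⟩⟩
  rw [mem_HE]
  refine ⟨hne, fun k => ⟨hall k, fun hk => ?_⟩⟩
  simp only at hk ⊢
  rcases lt_trichotomy (a k) 0 with h | h | h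
  · -- left
    refine hseg0 k hk ?_ (by linarith)
    have h1 := idl k
    rw [hk, zero_mul] at h1
    have h2 : τ (i, k) = τ (i, j) := by
      simp only [τ]
      rw [div_eq_div_iff (by linarith) hij.ne']
      linarith
    have h3 := hmaxσ (i, k) ((hS _).2 ⟨hi, h⟩) h2
    simp only at h3
    linarith
  · exfalso
    rw [hzero k h] at hk
    have e : cr (P j - P i) (0 - P i) = cr (P i) (P j) := by
      rw [side_fun, cr_zero_right, cr_zero_left]
      ring
    rw [e] at hk
    linarith
  · -- right
    refine hseg0 k hk (by linarith) ?_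
    have h1 := idr k
    rw [hk, zero_mul] at h1
    have h2 : τ (k, j) = τ (i, j) := by
      simp only [τ]
      rw [div_eq_div_iff (by linarith) hij.ne']
      linarith
    have h3 := hmaxσ (k, j) ((hS _).2 ⟨h, hj⟩) h2
    simp only at h3
    linarith

private theorem Cover_Tr {v w : ℂ} (h : 0 < cr v w) : Tr v w = convexHull ℝ {(0 : ℂ), v, w} := by
  apply Set.Subset.antisymm
  · rintro z ⟨h1, h2, h3⟩
    have hd := cr_decomp' h z
    have hconv := convex_convexHull ℝ {(0 : ℂ), v, w}
    have m0 : (0 : ℂ) ∈ convexHull ℝ {(0 : ℂ), v, w} := subset_convexHull ℝ _ (by simp)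
    have m1 : v ∈ convexHull ℝ {(0 : ℂ), v, w} := subset_convexHull ℝ _ (by simp)
    have m2 : w ∈ convexHull ℝ {(0 : ℂ), v, w} := subset_convexHull ℝ _ (by simp)
    have h4 : 0 ≤ cr z w / cr v w := div_nonneg h2 h.le
    have h5 : 0 ≤ cr v z / cr v w := div_nonneg h1 h.le
    have h6 : cr z w / cr v w + cr v z / cr v w ≤ 1 := by
      rw [← add_div, div_le_one h]
      linarith
    have hsum := hconv.sum_mem (t := (Finset.univ : Finset (Fin 3)))
      (w := ![1 - (cr z w / cr v w + cr v z / cr v w), cr z w / cr v w, cr v z / cr v w])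
      (z := ![0, v, w]) ?_ ?_ ?_
    · have e : z = ∑ i : Fin 3, (![1 - (cr z w / cr v w + cr v z / cr v w), cr z w / cr v w,
          cr v z / cr v w] : Fin 3 → ℝ) i • (![0, v, w] : Fin 3 → ℂ) i := by
        rw [Fin.sum_univ_three]
        simp only [Matrix.cons_val_zero, Matrix.cons_val_one, Matrix.cons_val, smul_zero, zero_add,
          Complex.real_smul]
        exact hd
      rw [e]
      exact hsum
    · intro i _
      fin_cases i
      · show 0 ≤ 1 - (cr z w / cr v w + cr v z / cr v w)
        linarith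
      · exact h4
      · exact h5
    · rw [Fin.sum_univ_three]
      simp only [Matrix.cons_val_zero, Matrix.cons_val_one, Matrix.cons_val]
      ring
    · intro i _
      fin_cases i
      · exact m0
      · exact m1
      · exact m2
  · apply convexHull_min
    · intro z hz
      simp only [Set.mem_insert_iff, Set.mem_singleton_iff] at hz
      rcases hz with rfl | rfl | rfl
      · exact ⟨by rw [cr_zero_right], by rw [cr_zero_left], by
          rw [cr_zero_right, cr_zero_left]; linarith⟩
      · exact ⟨by rw [cr_self], h.le, by rw [cr_self]; linarith⟩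
      · exact ⟨h.le, by rw [cr_self], by rw [cr_self]; linarith⟩
    · rintro x ⟨x1, x2, x3⟩ y ⟨y1, y2, y3⟩ s t hs ht hst
      have e1 : cr v (s • x + t • y) = s * cr v x + t * cr v y := by
        rw [Complex.real_smul, Complex.real_smul, cr_add_right, cr_smul_right, cr_smul_right]
      have e2 : cr (s • x + t • y) w = s * cr x w + t * cr y w := by
        rw [Complex.real_smul, Complex.real_smul, cr_add_left, cr_smul_left, cr_smul_left]
      refine ⟨?_, ?_, ?_⟩
      · rw [e1]
        exact add_nonneg (mul_nonneg hs x1) (mul_nonneg ht y1)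
      · rw [e2]
        exact add_nonneg (mul_nonneg hs x2) (mul_nonneg ht y2)
      · rw [e1, e2]
        have h1 := mul_le_mul_of_nonneg_left x3 hs
        have h2 := mul_le_mul_of_nonneg_left y3 ht
        have h3 : s * cr v w + t * cr v w = cr v w := by rw [← add_mul, hst, one_mul]
        linarith

theorem vol_Tr {v w : ℂ} (h : 0 < cr v w) : volume.real (Tr v w) = cr v w / 2 := by
  have hd : det2 0 v w = cr v w := by
    unfold det2 cr
    simp only [Complex.sub_re, Complex.sub_im, Complex.zero_re, Complex.zero_im]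
    ring
  have h1 := area_eq (P := 0) (Q := v) (R := w) (by rw [hd]; exact h.ne')
  rw [hd, abs_of_pos h] at h1
  rw [← h1, Cover_Tr h]
  unfold area tri
  apply measureReal_congr
  have hc : Convex ℝ (convexHull ℝ {(0 : ℂ), v, w}) := convex_convexHull ℝ _
  exact (interior_ae_eq_of_null_frontier (hc.addHaar_frontier volume)).symm

theorem vol_hull_le (h0 : (0 : ℂ) ∈ interior (KH P)) :
    volume.real (KH P) ≤ ∑ e ∈ HE P, cr (P e.1) (P e.2) / 2 := by
  have hline : ∀ k : ZMod n, volume ((Submodule.span ℝ {P k} : Submodule ℝ ℂ) : Set ℂ) = 0 := by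
    intro k
    apply Measure.addHaar_submodule
    intro hh
    have h1 := finrank_span_le_card (R := ℝ) ({P k} : Set ℂ)
    rw [hh, finrank_top, Complex.finrank_real_complex] at h1
    simp at h1
  have hsub : KH P ⊆ (⋃ e ∈ HE P, Tr (P e.1) (P e.2)) ∪
      ⋃ k : ZMod n, ((Submodule.span ℝ {P k} : Submodule ℝ ℂ) : Set ℂ) := by
    intro z hz
    by_cases hl : ∃ (k : ZMod n) (t : ℝ), (t : ℂ) * P k = z
    · obtain ⟨k, t, rfl⟩ := hl
      right
      rw [Set.mem_iUnion]
      refine ⟨k, ?_⟩
      rw [SetLike.mem_coe, Submodule.mem_span_singleton]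
      exact ⟨t, by rw [Complex.real_smul]⟩
    · push Not at hl
      left
      have hz0 : z ≠ 0 := by
        intro h
        apply hl 0 0
        rw [h]
        simp
      obtain ⟨e, he, hze⟩ := HE_cover h0 hz hl hz0
      rw [Set.mem_iUnion₂]
      exact ⟨e, he, hze⟩
  have hfin : ∀ e ∈ HE P, volume (Tr (P e.1) (P e.2)) ≠ ⊤ := by
    intro e he hh
    have h1 := vol_Tr (HE_pos h0 he)
    rw [measureReal_def, hh] at h1
    have h2 := HE_pos h0 he
    simp at h1
    linarith
  have hle : volume (KH P) ≤ ∑ e ∈ HE P, volume (Tr (P e.1) (P e.2)) := by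
    refine (measure_mono hsub).trans ?_
    refine (measure_union_le _ _).trans ?_
    have hz : volume (⋃ k : ZMod n, ((Submodule.span ℝ {P k} : Submodule ℝ ℂ) : Set ℂ)) = 0 :=
      measure_iUnion_null hline
    rw [hz, add_zero]
    exact measure_biUnion_finset_le _ _
  have hsum : ∑ e ∈ HE P, volume (Tr (P e.1) (P e.2)) ≠ ⊤ :=
    (ENNReal.sum_lt_top.2 fun e he => lt_top_iff_ne_top.2 (hfin e he)).ne
  rw [measureReal_def]
  refine (ENNReal.toReal_mono hsum hle).trans ?_
  rw [ENNReal.toReal_sum hfin]
  refine le_of_eq (Finset.sum_congr rfl fun e he => ?_)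
  exact vol_Tr (HE_pos h0 he)

end Pool.Agent.NGN.A
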