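import Pool.Agent.NGN.A.Dir

/-!
# NGN, part A: integration over all directions

The inequality for one direction is integrated over all directions `exp (i θ)`, `0 ≤ θ ≤ 2 π`:
the projections of a segment have mean proportional to its length, and the integral of the weight
`wt p` over the directions is at most `8 p`.
-/

set_option autoImplicit false

noncomputable section

namespace Pool.Agent.NGN.A

open MeasureTheory Pool.Agent.Stk Set

variable {n : ℕ} [NeZero n] {P : ZMod n → ℂ} {Ω : Set ℂ}

private theorem crofton_abs_sin : ∫ t in (0 : ℝ)..(2 * Real.pi), |Real.sin t| = 4 := by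
  have h1 : ∫ t in (0 : ℝ)..Real.pi, |Real.sin t| = 2 := by
    have e : ∫ t in (0 : ℝ)..Real.pi, |Real.sin t| = ∫ t in (0 : ℝ)..Real.pi, Real.sin t := by
      refine intervalIntegral.integral_congr fun t ht => ?_
      rw [uIcc_of_le Real.pi_pos.le] at ht
      exact abs_of_nonneg (Real.sin_nonneg_of_nonneg_of_le_pi ht.1 ht.2)
    rw [e, integral_sin, Real.cos_zero, Real.cos_pi]
    norm_num
  have h2 : ∫ t in Real.pi..(2 * Real.pi), |Real.sin t| = 2 := by
    have e : ∫ t in Real.pi..(2 * Real.pi), |Real.sin t| =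
        ∫ t in Real.pi..(2 * Real.pi), -Real.sin t := by
      refine intervalIntegral.integral_congr fun t ht => ?_
      rw [uIcc_of_le (by linarith [Real.pi_pos])] at ht
      refine abs_of_nonpos ?_
      have h3 : 0 ≤ Real.sin (t - Real.pi) :=
        Real.sin_nonneg_of_nonneg_of_le_pi (by linarith [ht.1]) (by linarith [ht.2])
      rw [Real.sin_sub_pi] at h3
      linarith
    rw [e, intervalIntegral.integral_neg, integral_sin, Real.cos_two_pi, Real.cos_pi]
    norm_num
  have hi : ∀ a b : ℝ, IntervalIntegrable (fun t => |Real.sin t|) volume a b := fun a b =>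
    (Real.continuous_sin.abs).intervalIntegrable a b
  rw [← intervalIntegral.integral_add_adjacent_intervals (hi 0 Real.pi) (hi Real.pi _), h1, h2]
  norm_num

private theorem crofton_shift (a : ℝ) :
    ∫ t in (0 : ℝ)..(2 * Real.pi), |Real.sin (t + a)| = 4 := by
  have hper : Function.Periodic (fun t => |Real.sin t|) (2 * Real.pi) := fun t => by
    change |Real.sin (t + 2 * Real.pi)| = |Real.sin t|
    rw [Real.sin_add_two_pi]
  rw [intervalIntegral.integral_comp_add_right (fun t => |Real.sin t|) a, zero_add, add_comm,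
    hper.intervalIntegral_add_eq a 0, zero_add, crofton_abs_sin]

theorem int_im (d : ℂ) :
    ∫ t in (0 : ℝ)..(2 * Real.pi), |(Complex.exp (t * Complex.I) * d).im| = 4 * ‖d‖ := by
  have h1 : ∀ t : ℝ, |(Complex.exp (t * Complex.I) * d).im| =
      ‖d‖ * |Real.sin (t + Complex.arg d)| := by
    intro t
    have h2 : Complex.exp (t * Complex.I) * d =
        (‖d‖ : ℂ) * Complex.exp (((t + Complex.arg d : ℝ) : ℂ) * Complex.I) := by
      conv_lhs => rw [← Complex.norm_mul_exp_arg_mul_I d]
      rw [Complex.ofReal_add, add_mul, Complex.exp_add]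
      ring
    rw [h2, Complex.im_ofReal_mul, Complex.exp_ofReal_mul_I_im, abs_mul, abs_norm]
  rw [intervalIntegral.integral_congr fun t _ => h1 t, intervalIntegral.integral_const_mul,
    crofton_shift]
  ring

theorem int_re (d : ℂ) :
    ∫ t in (0 : ℝ)..(2 * Real.pi), |(Complex.exp (t * Complex.I) * d).re| = 4 * ‖d‖ := by
  have h1 := int_im (Complex.I * d)
  rw [norm_mul, Complex.norm_I, one_mul] at h1
  rw [← h1]
  refine intervalIntegral.integral_congr fun t _ => ?_
  have h2 : Complex.exp (t * Complex.I) * (Complex.I * d) =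
      Complex.I * (Complex.exp (t * Complex.I) * d) := by ring
  change |(Complex.exp (t * Complex.I) * d).re| = |(Complex.exp (t * Complex.I) * (Complex.I * d)).im|
  rw [h2, Complex.I_mul_im]

private theorem crofton_wt_le {p : ℝ} (hp : 0 < p) (z : ℂ) : ‖wt p z‖ ≤ 2 * p := by
  have hm : 0 < max p ‖z‖ := lt_of_lt_of_le hp (le_max_left _ _)
  unfold wt
  rw [Real.norm_eq_abs, abs_mul, abs_mul, abs_abs, abs_of_pos (by norm_num : (0 : ℝ) < 2),
    abs_of_pos (div_pos hp hm), mul_assoc]
  refine mul_le_mul_of_nonneg_left ?_ (by norm_num)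
  rw [mul_div_assoc', div_le_iff₀ hm]
  have h1 : |z.re| ≤ max p ‖z‖ := (Complex.abs_re_le_norm z).trans (le_max_right _ _)
  nlinarith

private theorem crofton_KH_lt (P : ZMod n → ℂ) : volume (KH P) < ⊤ :=
  ((Set.finite_range P).isCompact_convexHull (𝕜 := ℝ)).measure_lt_top

private theorem crofton_int (P : ZMod n → ℂ) (Ω : Set ℂ) {p : ℝ} (hp : 0 < p) :
    Integrable (Function.uncurry fun (t : ℝ) (z : ℂ) => wt p (Complex.exp (t * Complex.I) * z))
      ((volume.restrict (Set.uIoc 0 (2 * Real.pi))).prod (volume.restrict (KH P \ Ω))) := by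
  have h1 : IsFiniteMeasure (volume.restrict (KH P \ Ω)) :=
    ⟨by
      rw [Measure.restrict_apply_univ]
      exact (measure_mono sdiff_subset).trans_lt (crofton_KH_lt P)⟩
  have h2 : IsFiniteMeasure ((volume : Measure ℝ).restrict (Set.uIoc 0 (2 * Real.pi))) := by
    rw [Set.uIoc_of_le (by positivity)]
    infer_instance
  refine Integrable.of_bound (Continuous.aestronglyMeasurable ?_) (2 * p)
    (Filter.Eventually.of_forall fun q => crofton_wt_le hp _)
  change Continuous fun q : ℝ × ℂ => wt p (Complex.exp (q.1 * Complex.I) * q.2)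
  refine (continuous_wt hp).comp ?_
  fun_prop

/-- The integral of the weight over the directions. -/
theorem int_wt (hO : IsOpen Ω) {p : ℝ} (hp : 0 < p) :
    ∫ t in (0 : ℝ)..(2 * Real.pi), ∫ z in KH P \ Ω, wt p (Complex.exp (t * Complex.I) * z) ≤
      8 * p * volume.real (KH P \ Ω) := by
  rw [intervalIntegral_integral_swap (crofton_int P Ω hp)]
  have h1 : ∀ z : ℂ, ∫ t in (0 : ℝ)..(2 * Real.pi), wt p (Complex.exp (t * Complex.I) * z) =
      8 * ‖z‖ * (p / max p ‖z‖) := by
    intro z
    have h2 : ∀ t : ℝ, wt p (Complex.exp (t * Complex.I) * z) =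
        (2 * (p / max p ‖z‖)) * |(Complex.exp (t * Complex.I) * z).re| := by
      intro t
      unfold wt
      rw [norm_mul, Complex.norm_exp_ofReal_mul_I, one_mul]
      ring
    rw [intervalIntegral.integral_congr fun t _ => h2 t, intervalIntegral.integral_const_mul,
      int_re]
    ring
  have h3 : ∀ z : ℂ, ‖∫ t in (0 : ℝ)..(2 * Real.pi), wt p (Complex.exp (t * Complex.I) * z)‖ ≤
      8 * p := by
    intro z
    have hm : 0 < max p ‖z‖ := lt_of_lt_of_le hp (le_max_left _ _)
    rw [h1 z, Real.norm_eq_abs, abs_of_nonneg (by positivity), mul_div_assoc', div_le_iff₀ hm]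
    have h4 : ‖z‖ ≤ max p ‖z‖ := le_max_right _ _
    nlinarith
  refine (le_abs_self _).trans ?_
  rw [← Real.norm_eq_abs]
  exact norm_setIntegral_le_of_norm_le_const
    ((measure_mono sdiff_subset).trans_lt (crofton_KH_lt P)) fun z _ => h3 z

theorem crofton (hinj : Function.Injective P) (hint : (interior (KH P)).Nonempty)
    (hO : IsOpen Ω) (hb : Bornology.IsBounded Ω)
    (hf : frontier Ω ⊆ ⋃ i, segment ℝ (P i) (P (i + 1))) {p : ℝ} (hp : 0 < p) :
    ∑ e ∈ HE P, segInt (P e.1) (P e.2) (phi p) ≤
      bdN P (phi p) + 2 * p * (volume.real (KH P) - volume.real Ω) := by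
  have hpi : (0 : ℝ) ≤ 2 * Real.pi := by positivity
  -- the two sums
  have hs : ∀ (ι : Type) (s : Finset ι) (d : ι → ℂ) (J : ι → ℝ),
      IntervalIntegrable (fun t : ℝ => ∑ e ∈ s, |(Complex.exp (t * Complex.I) * d e).im| * J e)
        volume 0 (2 * Real.pi) := by
    intro ι s d J
    refine Continuous.intervalIntegrable ?_ _ _
    refine continuous_finsetSum _ fun e _ => ?_
    refine Continuous.mul (continuous_abs.comp (Complex.continuous_im.comp ?_)) continuous_const
    fun_prop
  have hsi : ∀ (ι : Type) (s : Finset ι) (d : ι → ℂ) (J : ι → ℝ),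
      ∫ t in (0 : ℝ)..(2 * Real.pi), ∑ e ∈ s, |(Complex.exp (t * Complex.I) * d e).im| * J e =
        4 * ∑ e ∈ s, ‖d e‖ * J e := by
    intro ι s d J
    rw [intervalIntegral.integral_finsetSum, Finset.mul_sum]
    · refine Finset.sum_congr rfl fun e _ => ?_
      rw [intervalIntegral.integral_mul_const, int_im]
      ring
    · intro e _
      refine Continuous.intervalIntegrable ?_ _ _
      refine Continuous.mul (continuous_abs.comp (Complex.continuous_im.comp ?_)) continuous_const
      fun_prop
  have hwi : IntervalIntegrable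
      (fun t : ℝ => ∫ z in KH P \ Ω, wt p (Complex.exp (t * Complex.I) * z)) volume 0
        (2 * Real.pi) := by
    rw [intervalIntegrable_iff]
    exact (crofton_int P Ω hp).integral_prod_left
  have key := intervalIntegral.integral_mono_on hpi
    (hs _ (HE P) (fun e => P e.2 - P e.1)
      (fun e => ∫ t in (0 : ℝ)..1, phi p (P e.1 + (t : ℂ) * (P e.2 - P e.1))))
    ((hs _ Finset.univ (fun i => P (i + 1) - P i)
      (fun i => ∫ t in (0 : ℝ)..1, phi p (P i + (t : ℂ) * (P (i + 1) - P i)))).add hwi)
    (fun t _ => dir_ineq hinj hint hO hb hf hp (Complex.norm_exp_ofReal_mul_I t))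
  rw [intervalIntegral.integral_add (hs _ _ _ _) hwi, hsi, hsi] at key
  have hw := int_wt (P := P) hO hp
  have hvol : volume.real (KH P \ Ω) = volume.real (KH P) - volume.real Ω :=
    measureReal_sdiff (omega_hull hb hf) hO.measurableSet (crofton_KH_lt P).ne
  have e1 : ∑ e ∈ HE P, segInt (P e.1) (P e.2) (phi p) = ∑ e ∈ HE P, ‖P e.2 - P e.1‖ *
      ∫ t in (0 : ℝ)..1, phi p (P e.1 + (t : ℂ) * (P e.2 - P e.1)) := by
    refine Finset.sum_congr rfl fun e _ => ?_
    unfold segInt
    rw [dist_comm, dist_eq_norm]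
  have e2 : bdN P (phi p) = ∑ i, ‖P (i + 1) - P i‖ *
      ∫ t in (0 : ℝ)..1, phi p (P i + (t : ℂ) * (P (i + 1) - P i)) := by
    unfold bdN
    refine Finset.sum_congr rfl fun i _ => ?_
    unfold segInt
    rw [dist_comm, dist_eq_norm]
  rw [e1, e2]
  rw [hvol] at hw
  linarith

end Pool.Agent.NGN.A
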