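import Pool.Agent.NGN.A.Defs

/-!
# NGN, part A: crossings of the closed polygon with a horizontal line
-/

set_option autoImplicit false

noncomputable section

namespace Pool.Agent.NGN.A

open MeasureTheory Pool.Agent.Stk Set

private theorem crs_iff {y : ℝ} {a b : ℂ} :
    Crs y a b ↔ (a.im < y ∧ y < b.im) ∨ (b.im < y ∧ y < a.im) := by
  unfold Crs
  rw [mul_neg_iff]
  constructor
  · rintro (⟨h1, h2⟩ | ⟨h1, h2⟩)
    · exact Or.inr ⟨by linarith, by linarith⟩
    · exact Or.inl ⟨by linarith, by linarith⟩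
  · rintro (⟨h1, h2⟩ | ⟨h1, h2⟩)
    · exact Or.inr ⟨by linarith, by linarith⟩
    · exact Or.inl ⟨by linarith, by linarith⟩

theorem cpt_im {y : ℝ} {a b : ℂ} (h : Crs y a b) : (cpt y a b).im = y := by
  have hne : b.im - a.im ≠ 0 := by
    rcases crs_iff.1 h with h | h
    · exact (by linarith [h.1, h.2] : (0 : ℝ) < b.im - a.im).ne'
    · exact (by linarith [h.1, h.2] : b.im - a.im < 0).ne
  unfold cpt ct
  rw [Complex.add_im, Complex.im_ofReal_mul, Complex.sub_im]
  field_simp
  ring

theorem ct_mem {y : ℝ} {a b : ℂ} (h : Crs y a b) : 0 < ct y a b ∧ ct y a b < 1 := by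
  unfold ct
  rcases crs_iff.1 h with h | h
  · have h1 : 0 < b.im - a.im := by linarith [h.1, h.2]
    exact ⟨div_pos (by linarith) h1, by rw [div_lt_one h1]; linarith⟩
  · have h1 : b.im - a.im < 0 := by linarith [h.1, h.2]
    exact ⟨div_pos_of_neg_of_neg (by linarith) h1, by rw [div_lt_one_of_neg h1]; linarith⟩

theorem cpt_mem {y : ℝ} {a b : ℂ} (h : Crs y a b) : cpt y a b ∈ openSegment ℝ a b := by
  obtain ⟨h1, h2⟩ := ct_mem h
  refine ⟨1 - ct y a b, ct y a b, by linarith, h1, by ring, ?_⟩
  unfold cpt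
  simp only [Complex.real_smul]
  push_cast
  ring

/-- A point of `[a, b]` at the height `y` (not the height of `a` or `b`) is the crossing point. -/
theorem eq_cpt {y : ℝ} {a b z : ℂ} (ha : a.im ≠ y) (hb : b.im ≠ y) (hz : z ∈ segment ℝ a b)
    (hy : z.im = y) : Crs y a b ∧ z = cpt y a b := by
  obtain ⟨s, t, hs, ht, hst, rfl⟩ := hz
  have him : s * a.im + t * b.im = y := by
    have : (s • a + t • b).im = s * a.im + t * b.im := by simp
    rw [← this]
    exact hy
  have e : s * (a.im - y) + t * (b.im - y) = 0 := by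
    have : s * (a.im - y) + t * (b.im - y) = s * a.im + t * b.im - (s + t) * y := by ring
    rw [this, hst, him]
    ring
  have hs0 : 0 < s := by
    rcases hs.lt_or_eq with h | h
    · exact h
    · exfalso
      rw [← h] at e
      have ht1 : t = 1 := by linarith
      rw [ht1] at e
      apply hb
      linarith
  have ht0 : 0 < t := by
    rcases ht.lt_or_eq with h | h
    · exact h
    · exfalso
      rw [← h] at e
      have hs1 : s = 1 := by linarith
      rw [hs1] at e
      apply ha
      linarith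
  have hb' : b.im - y ≠ 0 := sub_ne_zero.2 hb
  have hC : Crs y a b := by
    unfold Crs
    have h1 : s * ((a.im - y) * (b.im - y)) = -(t * (b.im - y) ^ 2) := by
      have : s * ((a.im - y) * (b.im - y)) = (s * (a.im - y)) * (b.im - y) := by ring
      rw [this]
      have h2 : s * (a.im - y) = -(t * (b.im - y)) := by linarith
      rw [h2]
      ring
    have h2 : 0 < t * (b.im - y) ^ 2 := by positivity
    by_contra hcon
    push Not at hcon
    have h3 : 0 ≤ s * ((a.im - y) * (b.im - y)) := mul_nonneg hs hcon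
    linarith
  refine ⟨hC, ?_⟩
  have hne : b.im - a.im ≠ 0 := by
    rcases crs_iff.1 hC with h | h
    · exact (by linarith [h.1, h.2] : (0 : ℝ) < b.im - a.im).ne'
    · exact (by linarith [h.1, h.2] : b.im - a.im < 0).ne
  have hct : ct y a b = t := by
    unfold ct
    rw [div_eq_iff hne]
    have : s = 1 - t := by linarith
    rw [this] at him
    linarith
  unfold cpt
  rw [hct]
  have : (s : ℂ) = 1 - t := by
    have : s = 1 - t := by linarith
    rw [this]
    push_cast
    ring
  simp only [Complex.real_smul]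
  rw [this]
  ring

private theorem sum_shift {n : ℕ} [NeZero n] (f : ZMod n → ℤ) :
    ∑ i, (f (i + 1) - f i) = 0 := by
  rw [Finset.sum_sub_distrib, sub_eq_zero]
  exact Equiv.sum_comp (Equiv.addRight (1 : ZMod n)) f

open Classical in
/-- A closed polygon which crosses a line crosses it at least twice. -/
theorem two_cross {n : ℕ} [NeZero n] {P : ZMod n → ℂ} {y : ℝ} (hy : ∀ k, (P k).im ≠ y)
    {i : ZMod n} (hi : Crs y (P i) (P (i + 1))) : ∃ j, j ≠ i ∧ Crs y (P j) (P (j + 1)) := by
  by_contra hcon
  push Not at hcon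
  set χ : ZMod n → ℤ := fun k => if y < (P k).im then 1 else 0 with hχ
  have h0 : ∀ j, j ≠ i → χ (j + 1) - χ j = 0 := by
    intro j hj
    have h1 := hcon j hj
    rw [crs_iff] at h1
    push Not at h1
    have h2 := hy j
    have h3 := hy (j + 1)
    simp only [hχ]
    rcases lt_or_gt_of_ne h2 with h4 | h4
    · have h5 := h1.1 h4
      rw [if_neg (not_lt.2 h5), if_neg (not_lt.2 h4.le)]
      rfl
    · rcases lt_or_gt_of_ne h3 with h6 | h6
      · exact absurd (h1.2 h6) (not_le.2 h4)
      · rw [if_pos h6, if_pos h4]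
        rfl
  have h1 := sum_shift χ
  rw [Finset.sum_eq_single i (fun j _ hj => h0 j hj) (fun h => absurd (Finset.mem_univ i) h)] at h1
  rw [crs_iff] at hi
  simp only [hχ] at h1
  rcases hi with h | h
  · rw [if_pos h.2, if_neg (not_lt.2 h.1.le)] at h1
    omega
  · rw [if_neg (not_lt.2 h.1.le), if_pos h.2] at h1
    omega

/-- If no edge crosses the line then no pair of vertices is separated by it. -/
theorem no_cross {n : ℕ} [NeZero n] {P : ZMod n → ℂ} {y : ℝ} (hy : ∀ k, (P k).im ≠ y)
    (h : ∀ i, ¬ Crs y (P i) (P (i + 1))) (i j : ZMod n) : ¬ Crs y (P i) (P j) := by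
  have h1 : ∀ i, (y < (P (i + 1)).im ↔ y < (P i).im) := by
    intro i
    have h2 := h i
    rw [crs_iff] at h2
    push Not at h2
    constructor
    · intro h3
      by_contra h4
      have h5 : (P i).im < y := lt_of_le_of_ne (not_lt.1 h4) (hy i)
      exact absurd (h2.1 h5) (not_le.2 h3)
    · intro h3
      by_contra h4
      have h5 : (P (i + 1)).im < y := lt_of_le_of_ne (not_lt.1 h4) (hy (i + 1))
      exact absurd (h2.2 h5) (not_le.2 h3)
  have h3 : ∀ m : ℕ, (y < (P (i + m)).im ↔ y < (P i).im) := by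
    intro m
    induction m with
    | zero => simp
    | succ m ih =>
      rw [← ih, ← h1 (i + m)]
      push_cast
      rw [add_assoc]
  have h4 : y < (P j).im ↔ y < (P i).im := by
    have h5 := h3 (j - i).val
    rw [ZMod.natCast_val, ZMod.cast_id', id] at h5
    rw [← h5]
    congr! 3
    ring
  rw [crs_iff]
  rintro (⟨h5, h6⟩ | ⟨h5, h6⟩)
  · exact absurd (h4.1 h6) (not_lt.2 h5.le)
  · exact absurd (h4.2 h6) (not_lt.2 h5.le)

end Pool.Agent.NGN.A
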