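import Pool.Agent.NGN.A.Defs

/-!
# NGN, part A: one segment and the horizontal lines

PLAN.  If `a.im = b.im` then `Crs y a b` never holds (`(a.im - y)² ≥ 0`) and both sides are `0`.
Otherwise `Crs y a b` iff `y` lies strictly between `a.im` and `b.im`, so `ctr f a b` is the
indicator of this open interval times the continuous function `y ↦ f (cpt y a b)`; substitute
`y = a.im + t (b.im - a.im)` (`intervalIntegral.integral_comp_mul_add` or
`intervalIntegral.mul_integral_comp_add_mul`), `ct y a b = t`.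
-/

set_option autoImplicit false

noncomputable section

namespace Pool.Agent.NGN.A

open MeasureTheory Pool.Agent.Stk Set

private theorem ngn_ctr_ind {f : ℂ → ℝ} {a b : ℂ} {m M : ℝ} (h : ∀ y, Crs y a b ↔ y ∈ Ioo m M) :
    ctr f a b = (Ioo m M).indicator (fun y => f (cpt y a b)) := by
  classical
  funext y
  unfold ctr
  by_cases hy : Crs y a b
  · rw [if_pos hy, Set.indicator_of_mem ((h y).1 hy)]
  · rw [if_neg hy, Set.indicator_of_notMem (fun h1 => hy ((h y).2 h1))]

private theorem ngn_ctr_lt {a b : ℂ} (h : a.im < b.im) (y : ℝ) : Crs y a b ↔ y ∈ Ioo a.im b.im := by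
  unfold Crs
  rw [mul_neg_iff, mem_Ioo]
  constructor
  · rintro (⟨h1, h2⟩ | ⟨h1, h2⟩)
    · exact ⟨by linarith, by linarith⟩
    · exact ⟨by linarith, by linarith⟩
  · rintro ⟨h1, h2⟩
    exact Or.inr ⟨by linarith, by linarith⟩

private theorem ngn_ctr_gt {a b : ℂ} (h : b.im < a.im) (y : ℝ) : Crs y a b ↔ y ∈ Ioo b.im a.im := by
  unfold Crs
  rw [mul_neg_iff, mem_Ioo]
  constructor
  · rintro (⟨h1, h2⟩ | ⟨h1, h2⟩)
    · exact ⟨by linarith, by linarith⟩
    · exact ⟨by linarith, by linarith⟩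
  · rintro ⟨h1, h2⟩
    exact Or.inl ⟨by linarith, by linarith⟩

private theorem ngn_ctr_eq {f : ℂ → ℝ} {a b : ℂ} (h : a.im = b.im) : ctr f a b = fun _ => 0 := by
  classical
  funext y
  unfold ctr
  rw [if_neg]
  unfold Crs
  rw [h, not_lt]
  exact mul_self_nonneg _

private theorem ngn_ctr_cont {f : ℂ → ℝ} (hf : Continuous f) (a b : ℂ) : Continuous (fun y => f (cpt y a b)) := by
  unfold cpt ct
  refine hf.comp ?_
  refine continuous_const.add (Continuous.mul ?_ continuous_const)
  exact Complex.continuous_ofReal.comp ((continuous_id.sub continuous_const).div_const _)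

private theorem ngn_ctr_int {f : ℂ → ℝ} (hf : Continuous f) {a b : ℂ} {m M : ℝ}
    (h : ∀ y, Crs y a b ↔ y ∈ Ioo m M) (hmM : m ≤ M) : Integrable (ctr f a b) ∧
      ∫ y, ctr f a b y = ∫ y in m..M, f (cpt y a b) := by
  have hc := ngn_ctr_cont hf a b
  rw [ngn_ctr_ind h]
  constructor
  · rw [integrable_indicator_iff measurableSet_Ioo]
    exact (hc.continuousOn.integrableOn_compact isCompact_Icc).mono_set Ioo_subset_Icc_self
  · rw [integral_indicator measurableSet_Ioo, intervalIntegral.integral_of_le hmM,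
      integral_Ioc_eq_integral_Ioo]

private theorem ngn_ctr_sub {f : ℂ → ℝ} {a b : ℂ} (hc : b.im - a.im ≠ 0) (m M : ℝ) :
    ∫ y in m..M, f (cpt y a b) = (b.im - a.im) *
      ∫ t in (m / (b.im - a.im) - a.im / (b.im - a.im))..(M / (b.im - a.im) - a.im / (b.im - a.im)),
        f (a + (t : ℂ) * (b - a)) := by
  have h1 := intervalIntegral.integral_comp_div_sub (a := m) (b := M) (fun t : ℝ => f (a + (t : ℂ) * (b - a))) hc
    (a.im / (b.im - a.im))
  rw [smul_eq_mul] at h1
  rw [← h1]
  unfold cpt ct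
  refine intervalIntegral.integral_congr fun y _ => ?_
  show f (a + (((y - a.im) / (b.im - a.im) : ℝ) : ℂ) * (b - a)) =
    f (a + ((y / (b.im - a.im) - a.im / (b.im - a.im) : ℝ) : ℂ) * (b - a))
  rw [sub_div]

theorem ctr_integrable {f : ℂ → ℝ} (hf : Continuous f) (a b : ℂ) : Integrable (ctr f a b) := by
  rcases lt_trichotomy a.im b.im with h | h | h
  · exact (ngn_ctr_int hf (ngn_ctr_lt h) h.le).1
  · rw [ngn_ctr_eq h]
    exact integrable_zero _ _ _
  · exact (ngn_ctr_int hf (ngn_ctr_gt h) h.le).1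

theorem ctr_integral {f : ℂ → ℝ} (hf : Continuous f) (a b : ℂ) :
    ∫ y, ctr f a b y = |(b - a).im| * ∫ t in (0 : ℝ)..1, f (a + (t : ℂ) * (b - a)) := by
  rw [Complex.sub_im]
  rcases lt_trichotomy a.im b.im with h | h | h
  · have hc : b.im - a.im ≠ 0 := (sub_pos.2 h).ne'
    rw [(ngn_ctr_int hf (ngn_ctr_lt h) h.le).2, ngn_ctr_sub hc, sub_self, ← sub_div, div_self hc,
      abs_of_pos (sub_pos.2 h)]
  · rw [ngn_ctr_eq h, h, sub_self, abs_zero, zero_mul]
    exact integral_zero _ _
  · have hc : b.im - a.im ≠ 0 := (sub_neg.2 h).ne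
    rw [(ngn_ctr_int hf (ngn_ctr_gt h) h.le).2, ngn_ctr_sub hc, sub_self, ← sub_div, div_self hc,
      abs_of_neg (sub_neg.2 h), intervalIntegral.integral_symm]
    ring

end Pool.Agent.NGN.A
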