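import Pool.Agent.NGN.C.Fan

/-!
# NGN, part A: definitions

Nonconvex `n`-gons and the linear trial functions.  For a polygon `P` (finitely many points, the
order is irrelevant for `HE` and `KH`) `KH P` is the convex hull and `HE P` the set of its edges:
pairs `(i, j)` with `P i ≠ P j` such that all points are on the left side of the line
`P i → P j` and those on this line belong to the segment `[P i, P j]`.
-/

set_option autoImplicit false

noncomputable section

namespace Pool.Agent.NGN.A

open MeasureTheory Pool.Agent.Stk Set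

/-- Convex hull of the vertices. -/
def KH {n : ℕ} (P : ZMod n → ℂ) : Set ℂ := convexHull ℝ (range P)

open Classical in
/-- The edges of the convex hull, positively oriented. -/
def HE {n : ℕ} [NeZero n] (P : ZMod n → ℂ) : Finset (ZMod n × ZMod n) :=
  Finset.univ.filter fun e => P e.1 ≠ P e.2 ∧ ∀ k, 0 ≤ cr (P e.2 - P e.1) (P k - P e.1) ∧
    (cr (P e.2 - P e.1) (P k - P e.1) = 0 → P k ∈ segment ℝ (P e.1) (P e.2))

theorem mem_HE {n : ℕ} [NeZero n] {P : ZMod n → ℂ} {e : ZMod n × ZMod n} :
    e ∈ HE P ↔ P e.1 ≠ P e.2 ∧ ∀ k, 0 ≤ cr (P e.2 - P e.1) (P k - P e.1) ∧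
      (cr (P e.2 - P e.1) (P k - P e.1) = 0 → P k ∈ segment ℝ (P e.1) (P e.2)) := by
  classical
  simp [HE]

/-- Huber's function of `q = |z|²`: `q` for `q ≤ p²`, then `2 p √q - p²`. -/
def hub (p q : ℝ) : ℝ := if q ≤ p ^ 2 then q else 2 * p * Real.sqrt q - p ^ 2

/-- `|z|²` cut off at `|z| = p`: the gradient is bounded by `2 p`. -/
def phi (p : ℝ) (z : ℂ) : ℝ := hub p (‖z‖ ^ 2)

/-- The absolute value of the derivative of `phi p` in the direction `1`. -/
def wt (p : ℝ) (z : ℂ) : ℝ := 2 * |z.re| * (p / max p ‖z‖)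

/-- The segment `a b` crosses the height `y` (transversally). -/
def Crs (y : ℝ) (a b : ℂ) : Prop := (a.im - y) * (b.im - y) < 0

/-- The parameter of the point of the line `a b` at height `y`. -/
def ct (y : ℝ) (a b : ℂ) : ℝ := (y - a.im) / (b.im - a.im)

/-- The point of the line `a b` at height `y`. -/
def cpt (y : ℝ) (a b : ℂ) : ℂ := a + (ct y a b : ℂ) * (b - a)

open Classical in
/-- The value of `f` at the crossing point, `0` if there is none. -/
def ctr (f : ℂ → ℝ) (a b : ℂ) (y : ℝ) : ℝ := if Crs y a b then f (cpt y a b) else 0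

end Pool.Agent.NGN.A
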