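import Pool.Agent.NGN.A.Line
import Pool.Agent.NGN.A.Ctr

/-!
# NGN, part A: the comparison for one direction

PLAN.
* `dir0`: integrate `line_ineq` over `y` (`integral_mono_ae`; the exceptional heights are finitely
  many), `ctr_integral` on both sides, `integral_finsetSum`; and
  `∫ z in KH P \ Ω, wt p z = ∫ y, ∫ x, indicator` by Fubini
  (`Complex.volume_preserving_equiv_real_prod` (`z ↦ (z.re, z.im)`), `integral_prod_symm` or
  `integral_prod` after swapping; `wt p` is continuous, `KH P` compact, `Ω` open, so the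
  indicator is integrable on the plane).
* `dir_ineq`: apply `dir0` to `w P`, `w Ω` with `‖w‖ = 1`: `HE_rot`, `KH (w P) = w '' KH P`
  (`LinearMap.image_convexHull`), `frontier`, `interior` under the homeomorphism `z ↦ w z`, `phi_rot`, and
  `∫ z in w '' S, g z = ∫ z in S, g (w z)` (the rotation is a linear isometry equivalence:
  `rotation ⟨w, _⟩`, `LinearIsometryEquiv.measurePreserving`).
-/

set_option autoImplicit false

noncomputable section

namespace Pool.Agent.NGN.A

open MeasureTheory Pool.Agent.Stk Set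

variable {n : ℕ} [NeZero n] {P : ZMod n → ℂ} {Ω : Set ℂ}

private theorem Dir_mk_cont : Continuous fun q : ℝ × ℝ => (⟨q.1, q.2⟩ : ℂ) := by
  have h : (fun q : ℝ × ℝ => (⟨q.1, q.2⟩ : ℂ)) =
      fun q : ℝ × ℝ => (q.1 : ℂ) + (q.2 : ℂ) * Complex.I := by
    funext q
    apply Complex.ext <;> simp
  rw [h]
  exact (Complex.continuous_ofReal.comp continuous_fst).add
    ((Complex.continuous_ofReal.comp continuous_snd).mul continuous_const)

private theorem Dir_meas (hO : IsOpen Ω) : MeasurableSet (KH P \ Ω) :=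
  ((Set.finite_range P).isCompact_convexHull (𝕜 := ℝ)).isClosed.measurableSet.diff hO.measurableSet

private theorem Dir_int (hO : IsOpen Ω) {p : ℝ} (hp : 0 < p) :
    Integrable ((KH P \ Ω).indicator (wt p)) := by
  have hKc : IsCompact (KH P) := (Set.finite_range P).isCompact_convexHull (𝕜 := ℝ)
  rw [integrable_indicator_iff (Dir_meas hO)]
  exact ((continuous_wt hp).continuousOn.integrableOn_compact hKc).mono_set sdiff_subset

private theorem Dir_fub (hO : IsOpen Ω) {p : ℝ} (hp : 0 < p) :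
    Integrable (fun y : ℝ => ∫ x : ℝ, (KH P \ Ω).indicator (wt p) ⟨x, y⟩) ∧
      ∫ z in KH P \ Ω, wt p z = ∫ y : ℝ, ∫ x : ℝ, (KH P \ Ω).indicator (wt p) ⟨x, y⟩ := by
  have hmp := Complex.volume_preserving_equiv_real_prod.symm
  have h1 : Integrable (fun q : ℝ × ℝ => (KH P \ Ω).indicator (wt p) ⟨q.1, q.2⟩)
      (volume.prod volume) := by
    have h2 := (hmp.integrable_comp_emb (MeasurableEquiv.measurableEmbedding _)).2
      (Dir_int (P := P) hO hp)
    rw [Measure.volume_eq_prod] at h2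
    exact h2
  refine ⟨h1.integral_prod_right, ?_⟩
  rw [← integral_indicator (Dir_meas hO)]
  have h3 := hmp.integral_comp (MeasurableEquiv.measurableEmbedding _)
    ((KH P \ Ω).indicator (wt p))
  rw [← h3, Measure.volume_eq_prod, integral_prod_symm _ (by
    exact h1)]
  rfl

theorem dir0 (hinj : Function.Injective P) (hint : (interior (KH P)).Nonempty)
    (hO : IsOpen Ω) (hb : Bornology.IsBounded Ω)
    (hf : frontier Ω ⊆ ⋃ i, segment ℝ (P i) (P (i + 1))) {p : ℝ} (hp : 0 < p) :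
    ∑ e ∈ HE P, |(P e.2 - P e.1).im| *
        ∫ t in (0 : ℝ)..1, phi p (P e.1 + (t : ℂ) * (P e.2 - P e.1)) ≤
      ∑ i, |(P (i + 1) - P i).im| *
        (∫ t in (0 : ℝ)..1, phi p (P i + (t : ℂ) * (P (i + 1) - P i))) +
      ∫ z in KH P \ Ω, wt p z := by
  have hc := continuous_phi hp
  obtain ⟨hfi, hfe⟩ := Dir_fub (P := P) hO hp
  have e1 : ∑ e ∈ HE P, |(P e.2 - P e.1).im| *
        ∫ t in (0 : ℝ)..1, phi p (P e.1 + (t : ℂ) * (P e.2 - P e.1)) =
      ∫ y, ∑ e ∈ HE P, ctr (phi p) (P e.1) (P e.2) y := by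
    rw [integral_finsetSum _ fun e _ => ctr_integrable hc (P e.1) (P e.2)]
    exact Finset.sum_congr rfl fun e _ => (ctr_integral hc (P e.1) (P e.2)).symm
  have e2 : ∑ i, |(P (i + 1) - P i).im| *
        (∫ t in (0 : ℝ)..1, phi p (P i + (t : ℂ) * (P (i + 1) - P i))) =
      ∫ y, ∑ i, ctr (phi p) (P i) (P (i + 1)) y := by
    rw [integral_finsetSum _ fun i _ => ctr_integrable hc (P i) (P (i + 1))]
    exact Finset.sum_congr rfl fun i _ => (ctr_integral hc (P i) (P (i + 1))).symm
  have i1 : Integrable fun y => ∑ e ∈ HE P, ctr (phi p) (P e.1) (P e.2) y :=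
    integrable_finsetSum _ fun e _ => ctr_integrable hc (P e.1) (P e.2)
  have i2 : Integrable fun y => ∑ i, ctr (phi p) (P i) (P (i + 1)) y :=
    integrable_finsetSum _ fun i _ => ctr_integrable hc (P i) (P (i + 1))
  rw [e1, e2, hfe, ← integral_add i2 hfi]
  refine integral_mono_ae i1 (i2.add hfi) ?_
  have hfin : (range fun k => (P k).im).Finite := Set.finite_range _
  have hae : ∀ᵐ y : ℝ, y ∉ range fun k => (P k).im :=
    measure_eq_zero_iff_ae_notMem.1 (hfin.measure_zero volume)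
  filter_upwards [hae] with y hy
  exact line_ineq hinj hint hO hb hf hp fun k hk => hy ⟨k, hk⟩

theorem dir_ineq (hinj : Function.Injective P) (hint : (interior (KH P)).Nonempty)
    (hO : IsOpen Ω) (hb : Bornology.IsBounded Ω)
    (hf : frontier Ω ⊆ ⋃ i, segment ℝ (P i) (P (i + 1))) {p : ℝ} (hp : 0 < p) {w : ℂ}
    (hw : ‖w‖ = 1) :
    ∑ e ∈ HE P, |(w * (P e.2 - P e.1)).im| *
        ∫ t in (0 : ℝ)..1, phi p (P e.1 + (t : ℂ) * (P e.2 - P e.1)) ≤
      ∑ i, |(w * (P (i + 1) - P i)).im| *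
        (∫ t in (0 : ℝ)..1, phi p (P i + (t : ℂ) * (P (i + 1) - P i))) +
      ∫ z in KH P \ Ω, wt p (w * z) := by
  have hw' : w ∈ Submonoid.unitSphere ℂ := by
    rw [Submonoid.unitSphere]
    exact mem_sphere_zero_iff_norm.2 hw
  obtain ⟨L, hL⟩ : ∃ L : ℂ ≃ₗᵢ[ℝ] ℂ, ∀ z, L z = w * z :=
    ⟨rotation ⟨w, hw'⟩, fun z => rfl⟩
  have hLP : (fun i => w * P i) = fun i => L (P i) := funext fun i => (hL _).symm
  have hK : KH (fun i => w * P i) = L '' KH P := by
    unfold KH
    rw [hLP, show (fun i => L (P i)) = L ∘ P from rfl, range_comp]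
    exact (LinearMap.image_convexHull (L.toLinearEquiv : ℂ →ₗ[ℝ] ℂ) (range P)).symm
  have hinj' : Function.Injective fun i => w * P i := by
    rw [hLP]
    exact L.injective.comp hinj
  have hint' : (interior (KH fun i => w * P i)).Nonempty := by
    rw [hK, show (L '' KH P) = L.toHomeomorph '' KH P from rfl, ← L.toHomeomorph.image_interior]
    exact hint.image _
  have hO' : IsOpen (L '' Ω) := L.toHomeomorph.isOpenMap Ω hO
  have hb' : Bornology.IsBounded (L '' Ω) := L.lipschitz.isBounded_image hb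
  have hf' : frontier (L '' Ω) ⊆ ⋃ i, segment ℝ (w * P i) (w * P (i + 1)) := by
    rw [show (L '' Ω) = L.toHomeomorph '' Ω from rfl, ← L.toHomeomorph.image_frontier]
    rintro _ ⟨z, hz, rfl⟩
    obtain ⟨i, hi⟩ := mem_iUnion.1 (hf hz)
    refine mem_iUnion.2 ⟨i, ?_⟩
    obtain ⟨a, b, ha, hb, hab, rfl⟩ := hi
    refine ⟨a, b, ha, hb, hab, ?_⟩
    show _ = L _
    rw [hL]
    simp only [Complex.real_smul]
    ring
  have h := dir0 (P := fun i => w * P i) (Ω := L '' Ω) hinj' hint' hO' hb' hf' hp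
  rw [HE_rot hw, hK, ← image_sdiff L.injective, L.measurePreserving.setIntegral_image_emb
    L.toHomeomorph.measurableEmbedding] at h
  have h2 : ∀ a b : ℂ, |(w * b - w * a).im| * ∫ t in (0 : ℝ)..1, phi p (w * a + (t : ℂ) *
      (w * b - w * a)) = |(w * (b - a)).im| * ∫ t in (0 : ℝ)..1, phi p (a + (t : ℂ) * (b - a)) := by
    intro a b
    rw [mul_sub]
    congr 1
    refine intervalIntegral.integral_congr fun t _ => ?_
    show phi p (w * a + (t : ℂ) * (w * b - w * a)) = phi p (a + (t : ℂ) * (b - a))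
    rw [← phi_rot hw p (a + (t : ℂ) * (b - a))]
    congr 1
    ring
  simp only [h2, hL] at h
  exact h

end Pool.Agent.NGN.A
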