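import Pool.Agent.NGN.A.Defs

/-!
# NGN, part A: edges of the convex hull

PLAN.  `f z = cr (P e.2 - P e.1) (z - P e.1)` is affine in `z`, `≥ 0` at all `P k`, so `≥ 0` on `KH P`
(`convexHull_min`).
* `HE_line`: if `z ∈ KH P` and `f z = 0`, write `z = ∑ w k • P k` (`convexHull_range_eq_exists_affine...`,
  `mem_convexHull_iff_exists_fintype`, `Finset.centerMass`) : `∑ w k * f (P k) = 0` with nonnegative
  terms, so `P k ∈ segment` for all `k` with `w k > 0`, and `z` is in the segment (convexity).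
  (Alternative: the set `{z | 0 < f z} ∪ segment` is convex and contains all `P k`.)
* `HE_fst`: `cr (P j - P i) (P j' - P i) ≥ 0` and its negative `≥ 0`, so it is `0`:
  `P j' ∈ [P i, P j]` and `P j ∈ [P i, P j']`, hence `P j = P j'` (lengths).
* `HE_uniq`: the common point `x` lies on both lines; `f_e` vanishes at `x = a P i' + b P j'` with
  `a, b > 0` and is `≥ 0` at `P i'`, `P j'`, so it vanishes there: `P i', P j' ∈ [P i, P j]`, and vice versa;
  so `{P i, P j} = {P i', P j'}`; the direction is the same: if `P i' = P j` and `P j' = P i`, all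
  points are on both sides of the line, so on the line `P i P j`: excluded by `hncol`.
* `HE_card`: `e ↦ e.1` is injective on `HE P` by `HE_fst` and misses `i`.
* `HE_extreme`: `f x, f y ≥ 0`, `f (P i) = 0`, so `f x = f y = 0`, `x, y ∈ [P i, P j]` by `HE_line`, and
  `P i` is an end point of this segment.
* `HE_rot`: `cr (w a) (w b) = |w|² cr a b`, segments are mapped to segments.
* `HE_pos`: `0 ∈ interior (KH P)`: `f 0 = cr (P i) (P j)`; if it were `0`, then `f` would be negative at
  some point near `0` (`f` is not constant), which is in `KH P`.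
-/

set_option autoImplicit false

noncomputable section

namespace Pool.Agent.NGN.A

open MeasureTheory Pool.Agent.Stk Set

variable {n : ℕ} [NeZero n] {P : ZMod n → ℂ}

private theorem he49_aff (D A x y : ℂ) (a b : ℝ) (hab : a + b = 1) :
    cr D (a • x + b • y - A) = a * cr D (x - A) + b * cr D (y - A) := by
  have h : b = 1 - a := by linarith
  subst h
  simp only [cr, Complex.sub_re, Complex.sub_im, Complex.add_re, Complex.add_im,
    Complex.real_smul, Complex.mul_re, Complex.mul_im, Complex.ofReal_re, Complex.ofReal_im]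
  ring

private theorem he49_sub {e : ZMod n × ZMod n} (he : e ∈ HE P) {z : ℂ} (hz : z ∈ KH P) :
    0 ≤ cr (P e.2 - P e.1) (z - P e.1) ∧
      (cr (P e.2 - P e.1) (z - P e.1) = 0 → z ∈ segment ℝ (P e.1) (P e.2)) := by
  have hc : Convex ℝ {z : ℂ | 0 ≤ cr (P e.2 - P e.1) (z - P e.1) ∧
      (cr (P e.2 - P e.1) (z - P e.1) = 0 → z ∈ segment ℝ (P e.1) (P e.2))} := by
    intro x hx y hy a b ha hb hab
    obtain ⟨hx1, hx2⟩ := hx
    obtain ⟨hy1, hy2⟩ := hy
    have e1 := he49_aff (P e.2 - P e.1) (P e.1) x y a b hab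
    refine ⟨?_, ?_⟩
    · rw [e1]
      exact add_nonneg (mul_nonneg ha hx1) (mul_nonneg hb hy1)
    · intro h0
      rw [e1] at h0
      have h1 : a * cr (P e.2 - P e.1) (x - P e.1) = 0 := by
        have := mul_nonneg ha hx1
        have := mul_nonneg hb hy1
        linarith
      have h2 : b * cr (P e.2 - P e.1) (y - P e.1) = 0 := by
        have := mul_nonneg ha hx1
        have := mul_nonneg hb hy1
        linarith
      rcases mul_eq_zero.1 h1 with h | h
      · have hb1 : b = 1 := by linarith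
        subst h hb1
        simp only [zero_smul, one_smul, zero_add]
        refine hy2 ?_
        simpa using h2
      · rcases mul_eq_zero.1 h2 with h' | h'
        · have ha1 : a = 1 := by linarith
          subst h' ha1
          simp only [zero_smul, one_smul, add_zero]
          exact hx2 h
        · exact convex_segment _ _ (hx2 h) (hy2 h') ha hb hab
  have hr : range P ⊆ {z : ℂ | 0 ≤ cr (P e.2 - P e.1) (z - P e.1) ∧
      (cr (P e.2 - P e.1) (z - P e.1) = 0 → z ∈ segment ℝ (P e.1) (P e.2))} := by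
    rintro _ ⟨k, rfl⟩
    exact (mem_HE.1 he).2 k
  exact convexHull_min hr hc hz

theorem HE_left {e : ZMod n × ZMod n} (he : e ∈ HE P) {z : ℂ} (hz : z ∈ KH P) :
    0 ≤ cr (P e.2 - P e.1) (z - P e.1) :=
  (he49_sub he hz).1

theorem HE_line {e : ZMod n × ZMod n} (he : e ∈ HE P) {z : ℂ} (hz : z ∈ KH P)
    (h0 : cr (P e.2 - P e.1) (z - P e.1) = 0) : z ∈ segment ℝ (P e.1) (P e.2) :=
  (he49_sub he hz).2 h0

private theorem he49_mem (P : ZMod n → ℂ) (k : ZMod n) : P k ∈ KH P :=
  subset_convexHull ℝ _ ⟨k, rfl⟩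

/-- parametrisation of a segment -/
private theorem he49_seg {a b z : ℂ} (h : z ∈ segment ℝ a b) :
    ∃ t : ℝ, 0 ≤ t ∧ t ≤ 1 ∧ z = a + (t : ℂ) * (b - a) := by
  obtain ⟨u, v, hu, hv, huv, rfl⟩ := h
  refine ⟨v, hv, by linarith, ?_⟩
  have : u = 1 - v := by linarith
  subst this
  simp only [Complex.real_smul]
  push_cast
  ring

private theorem he49_smul_eq {D : ℂ} (hD : D ≠ 0) {s t : ℝ} (h : (s : ℂ) * D = (t : ℂ) * D) :
    s = t := by
  have := mul_right_cancel₀ hD h
  exact_mod_cast this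

theorem HE_fst (hinj : Function.Injective P) {i j j' : ZMod n} (h : (i, j) ∈ HE P)
    (h' : (i, j') ∈ HE P) : j = j' := by
  have a1 := HE_left h (he49_mem P j')
  have a2 := HE_left h' (he49_mem P j)
  simp only at a1 a2
  have sw := cr_swap (P j - P i) (P j' - P i)
  have z1 : cr (P j - P i) (P j' - P i) = 0 := by linarith
  have z2 : cr (P j' - P i) (P j - P i) = 0 := by linarith
  obtain ⟨s, hs0, hs1, hs⟩ := he49_seg (HE_line h (he49_mem P j') z1)
  obtain ⟨t, ht0, ht1, ht⟩ := he49_seg (HE_line h' (he49_mem P j) z2)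
  simp only at hs ht
  have hne : P j - P i ≠ 0 := sub_ne_zero.2 (Ne.symm (mem_HE.1 h).1)
  have e1 : P j' - P i = (s : ℂ) * (P j - P i) := by rw [hs]; ring
  have e2 : P j - P i = (t : ℂ) * (P j' - P i) := by
    have : P j - P i = P i + (t : ℂ) * (P j' - P i) - P i := by rw [← ht]
    rw [this]; ring
  have e3 : (((t * s : ℝ)) : ℂ) * (P j - P i) = ((1 : ℝ) : ℂ) * (P j - P i) := by
    push_cast
    rw [mul_assoc, ← e1, ← e2, one_mul]
  have e4 := he49_smul_eq hne e3
  have hs' : s = 1 := by nlinarith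
  apply hinj
  have : P j' = P i + (P j - P i) := by rw [hs, hs']; push_cast; ring
  rw [this]; ring

private theorem he49_open {e : ZMod n × ZMod n} {x : ℂ}
    (hx : x ∈ openSegment ℝ (P e.1) (P e.2)) : cr (P e.2 - P e.1) (x - P e.1) = 0 := by
  obtain ⟨t, -, -, ht⟩ := he49_seg (openSegment_subset_segment ℝ _ _ hx)
  have : x - P e.1 = (t : ℂ) * (P e.2 - P e.1) := by rw [ht]; ring
  rw [this, cr_smul_right, cr_self, mul_zero]

private theorem he49_half {e e' : ZMod n × ZMod n} (he : e ∈ HE P) {x : ℂ}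
    (hx : x ∈ openSegment ℝ (P e.1) (P e.2)) (hx' : x ∈ openSegment ℝ (P e'.1) (P e'.2)) :
    P e'.1 ∈ segment ℝ (P e.1) (P e.2) ∧ P e'.2 ∈ segment ℝ (P e.1) (P e.2) := by
  have h0 := he49_open (P := P) hx
  obtain ⟨a, b, ha, hb, hab, rfl⟩ := hx'
  rw [he49_aff _ _ _ _ _ _ hab] at h0
  have n1 := HE_left he (he49_mem P e'.1)
  have n2 := HE_left he (he49_mem P e'.2)
  have z1 : a * cr (P e.2 - P e.1) (P e'.1 - P e.1) = 0 := by
    have := mul_nonneg ha.le n1
    have := mul_nonneg hb.le n2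
    linarith
  have z2 : b * cr (P e.2 - P e.1) (P e'.2 - P e.1) = 0 := by
    have := mul_nonneg ha.le n1
    have := mul_nonneg hb.le n2
    linarith
  exact ⟨HE_line he (he49_mem P e'.1) ((mul_eq_zero.1 z1).resolve_left ha.ne'),
    HE_line he (he49_mem P e'.2) ((mul_eq_zero.1 z2).resolve_left hb.ne')⟩

/-- near an interior point the function `cr D` takes smaller values -/
private theorem he49_int {K : Set ℂ} {z D A : ℂ} (hz : z ∈ interior K) (hD : D ≠ 0)
    (h : ∀ y ∈ K, 0 ≤ cr D (y - A)) : 0 < cr D (z - A) := by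
  rw [mem_interior_iff_mem_nhds, Metric.mem_nhds_iff] at hz
  obtain ⟨r, hr, hb⟩ := hz
  have hDn : 0 < ‖D‖ := norm_pos_iff.2 hD
  have hε : 0 < r / (2 * ‖D‖) := by positivity
  have hmem : z + ((r / (2 * ‖D‖) : ℝ) : ℂ) * (-Complex.I * D) ∈ Metric.ball z r := by
    rw [Metric.mem_ball, dist_eq_norm]
    have : z + ((r / (2 * ‖D‖) : ℝ) : ℂ) * (-Complex.I * D) - z =
        ((r / (2 * ‖D‖) : ℝ) : ℂ) * (-Complex.I * D) := by ring
    rw [this, norm_mul, norm_mul, norm_neg, Complex.norm_I, one_mul, Complex.norm_real,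
      Real.norm_of_nonneg hε.le]
    have : r / (2 * ‖D‖) * ‖D‖ = r / 2 := by field_simp
    rw [this]
    linarith
  have h1 := h _ (hb hmem)
  have h2 : cr D (z + ((r / (2 * ‖D‖) : ℝ) : ℂ) * (-Complex.I * D) - A) =
      cr D (z - A) - r / (2 * ‖D‖) * (D.re ^ 2 + D.im ^ 2) := by
    have : z + ((r / (2 * ‖D‖) : ℝ) : ℂ) * (-Complex.I * D) - A =
        (z - A) + ((r / (2 * ‖D‖) : ℝ) : ℂ) * (-Complex.I * D) := by ring
    rw [this, cr_add_right, cr_smul_right]
    simp only [cr, Complex.mul_re, Complex.mul_im, Complex.neg_re, Complex.neg_im, Complex.I_re,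
      Complex.I_im]
    ring
  rw [h2] at h1
  have h3 : 0 < D.re ^ 2 + D.im ^ 2 := by
    rcases eq_or_ne D.re 0 with h | h
    · have : D.im ≠ 0 := fun h' => hD (Complex.ext h h')
      positivity
    · positivity
  have h4 := mul_pos hε h3
  linarith

theorem HE_uniq (hinj : Function.Injective P) (hint : (interior (KH P)).Nonempty)
    {e e' : ZMod n × ZMod n} (he : e ∈ HE P)
    (he' : e' ∈ HE P) {x : ℂ} (hx : x ∈ openSegment ℝ (P e.1) (P e.2))
    (hx' : x ∈ openSegment ℝ (P e'.1) (P e'.2)) : e = e' := by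
  obtain ⟨a1, a2⟩ := he49_half he hx hx'
  obtain ⟨b1, b2⟩ := he49_half he' hx' hx
  obtain ⟨s, hs0, hs1, hs⟩ := he49_seg a1
  obtain ⟨t, ht0, ht1, ht⟩ := he49_seg a2
  obtain ⟨s', hs0', hs1', hs'⟩ := he49_seg b1
  obtain ⟨t', ht0', ht1', ht'⟩ := he49_seg b2
  have hne : P e.2 - P e.1 ≠ 0 := sub_ne_zero.2 (Ne.symm (mem_HE.1 he).1)
  set D := P e.2 - P e.1 with hD
  have q1 : ((s * (1 - s') + s' * t : ℝ) : ℂ) * D = ((0 : ℝ) : ℂ) * D := by
    have h := hs'
    rw [ht, hs] at h
    push_cast
    linear_combination -h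
  have q2 : ((s * (1 - t') + t' * t : ℝ) : ℂ) * D = ((1 : ℝ) : ℂ) * D := by
    have h := ht'
    rw [ht, hs] at h
    push_cast
    linear_combination -h + hD
  have r1 := he49_smul_eq hne q1
  have r2 := he49_smul_eq hne q2
  have u1 : s * (1 - s') = 0 := by
    have := mul_nonneg hs0 (sub_nonneg.2 hs1')
    have := mul_nonneg hs0' ht0
    linarith
  have u2 : s' * t = 0 := by linarith
  rcases mul_eq_zero.1 u1 with h | h
  · subst h
    have ht1' : t' * t = 1 := by linarith
    have ht1e : t = 1 := by nlinarith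
    have c1 : P e'.1 = P e.1 := by rw [hs]; push_cast; ring
    have c2 : P e'.2 = P e.2 := by rw [ht, ht1e, hD]; push_cast; ring
    exact (Prod.ext (hinj c1) (hinj c2)).symm
  · exfalso
    have hs'1 : s' = 1 := by linarith
    have ht0e : t = 0 := by
      rw [hs'1] at u2
      linarith
    have hs1e : s = 1 := by
      rw [ht0e] at r2
      nlinarith
    have c1 : P e'.1 = P e.2 := by rw [hs, hs1e, hD]; push_cast; ring
    have c2 : P e'.2 = P e.1 := by rw [ht, ht0e]; push_cast; ring
    obtain ⟨z, hz⟩ := hint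
    have p1 := he49_int (A := P e.1) hz hne (fun y hy => HE_left he hy)
    have p2 := HE_left he' (interior_subset hz)
    rw [c1, c2] at p2
    have p3 : cr (P e.1 - P e.2) (z - P e.2) = - cr D (z - P e.1) := by
      rw [hD]
      simp only [cr, Complex.sub_re, Complex.sub_im]
      ring
    linarith

theorem HE_card (hinj : Function.Injective P) {i : ZMod n} (hi : ∀ j, (i, j) ∉ HE P) :
    (HE P).card ≤ n - 1 := by
  classical
  have h1 : (HE P).card ≤ (Finset.univ.erase i).card := by
    apply Finset.card_le_card_of_injOn (fun e => e.1)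
    · intro e he
      have he' : e ∈ HE P := he
      simp only [Finset.coe_erase, Finset.coe_univ, mem_sdiff, mem_univ, mem_singleton_iff,
        true_and]
      intro h
      exact hi e.2 (by rw [← h]; exact he')
    · intro e he e' he' h
      have h1 : e ∈ HE P := he
      have h2 : e' ∈ HE P := he'
      obtain ⟨a, b⟩ := e
      obtain ⟨a', b'⟩ := e'
      simp only at h
      subst h
      rw [HE_fst hinj h1 h2]
  rw [Finset.card_erase_of_mem (Finset.mem_univ i), Finset.card_univ, ZMod.card] at h1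
  exact h1

theorem HE_extreme {i j : ZMod n} (h : (i, j) ∈ HE P) {x y : ℂ} (hx : x ∈ KH P)
    (hy : y ∈ KH P) (hi : P i ∈ openSegment ℝ x y) : x = P i ∧ y = P i := by
  obtain ⟨a, b, ha, hb, hab, hP⟩ := hi
  have h0 : cr (P j - P i) (P i - P i) = 0 := by rw [sub_self, cr_zero_right]
  have e1 := he49_aff (P j - P i) (P i) x y a b hab
  rw [hP, h0] at e1
  have n1 : 0 ≤ cr (P j - P i) (x - P i) := HE_left h hx
  have n2 : 0 ≤ cr (P j - P i) (y - P i) := HE_left h hy
  have z1 : a * cr (P j - P i) (x - P i) = 0 := by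
    have := mul_nonneg ha.le n1
    have := mul_nonneg hb.le n2
    linarith
  have z2 : b * cr (P j - P i) (y - P i) = 0 := by
    have := mul_nonneg ha.le n1
    have := mul_nonneg hb.le n2
    linarith
  obtain ⟨s, hs0, hs1, hs⟩ := he49_seg (HE_line h hx ((mul_eq_zero.1 z1).resolve_left ha.ne'))
  obtain ⟨t, ht0, ht1, ht⟩ := he49_seg (HE_line h hy ((mul_eq_zero.1 z2).resolve_left hb.ne'))
  simp only at hs ht
  have hne : P j - P i ≠ 0 := sub_ne_zero.2 (Ne.symm (mem_HE.1 h).1)
  have hb' : b = 1 - a := by linarith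
  have q : ((a * s + b * t : ℝ) : ℂ) * (P j - P i) = ((0 : ℝ) : ℂ) * (P j - P i) := by
    have hP' := hP
    rw [hs, ht, hb'] at hP'
    simp only [Complex.real_smul] at hP'
    rw [hb']
    push_cast at hP' ⊢
    linear_combination hP'
  have r := he49_smul_eq hne q
  have s0 : s = 0 := by
    have h1 := mul_nonneg ha.le hs0
    have h2 := mul_nonneg hb.le ht0
    have h3 : a * s = 0 := by linarith
    exact (mul_eq_zero.1 h3).resolve_left ha.ne'
  have t0 : t = 0 := by
    have h1 := mul_nonneg ha.le hs0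
    have h2 := mul_nonneg hb.le ht0
    have h3 : b * t = 0 := by linarith
    exact (mul_eq_zero.1 h3).resolve_left hb.ne'
  refine ⟨?_, ?_⟩
  · rw [hs, s0]; push_cast; ring
  · rw [ht, t0]; push_cast; ring

private theorem he49_rot {w : ℂ} (hw : ‖w‖ = 1) (a b : ℂ) : cr (w * a) (w * b) = cr a b := by
  have h1 : w.re ^ 2 + w.im ^ 2 = 1 := by
    have := Complex.sq_norm w
    rw [hw, Complex.normSq_apply] at this
    nlinarith
  simp only [cr, Complex.mul_re, Complex.mul_im]
  linear_combination (a.re * b.im - a.im * b.re) * h1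

private theorem he49_rotseg {w a b z : ℂ} (hw : w ≠ 0) :
    w * z ∈ segment ℝ (w * a) (w * b) ↔ z ∈ segment ℝ a b := by
  constructor
  · rintro ⟨u, v, hu, hv, huv, h⟩
    refine ⟨u, v, hu, hv, huv, ?_⟩
    simp only [Complex.real_smul] at h ⊢
    apply mul_left_cancel₀ hw
    rw [← h]
    ring
  · rintro ⟨u, v, hu, hv, huv, h⟩
    refine ⟨u, v, hu, hv, huv, ?_⟩
    simp only [Complex.real_smul] at h ⊢
    rw [← h]
    ring

theorem HE_rot {w : ℂ} (hw : ‖w‖ = 1) : HE (fun i => w * P i) = HE P := by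
  have hw0 : w ≠ 0 := by
    intro h
    rw [h, norm_zero] at hw
    exact zero_ne_one hw
  ext e
  rw [mem_HE, mem_HE]
  simp only [← mul_sub, he49_rot hw, he49_rotseg hw0, ne_eq, mul_right_inj' hw0]

theorem HE_pos (h0 : (0 : ℂ) ∈ interior (KH P)) {e : ZMod n × ZMod n} (he : e ∈ HE P) :
    0 < cr (P e.1) (P e.2) := by
  have hne : P e.2 - P e.1 ≠ 0 := sub_ne_zero.2 (Ne.symm (mem_HE.1 he).1)
  have h := he49_int (A := P e.1) h0 hne (fun y hy => HE_left he hy)
  have : cr (P e.2 - P e.1) (0 - P e.1) = cr (P e.1) (P e.2) := by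
    simp only [cr, Complex.sub_re, Complex.sub_im, Complex.zero_re, Complex.zero_im]
    ring
  linarith

end Pool.Agent.NGN.A
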