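import Pool.Agent.NGN.A.HE
import Pool.Agent.NGN.A.Crs

/-!
# NGN, part A: hull edges crossing a horizontal line

PLAN.  `e ∈ HE P` with `Crs y (P e.1) (P e.2)`, `x = cpt y (P e.1) (P e.2)`, `d = P e.2 - P e.1`.  For
`z ∈ KH P` with `z.im = y`: `0 ≤ cr d (z - P e.1) = cr d (z - x) = - d.im * (z.re - x.re)`.  So if
`d.im > 0` (edge upwards) then `z.re ≤ x.re`, and if `d.im < 0` then `x.re ≤ z.re`.
* `he_up`, `he_down`: these two facts.
* `he_cross`: `x ∈ KH P` for every crossing hull edge; so all upward crossing hull edges have the same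
  crossing point (both inequalities, same imaginary part `y`), which is in both open segments
  (`cpt_mem`): `HE_uniq` says that there is at most one.  The same for downward.
  Result: there are `a ≤ b` real, `⟨a, y⟩, ⟨b, y⟩ ∈ KH P`, `KH P` at height `y` is inside `[a, b]`, and
  the sum over the hull edges is at most `f ⟨a, y⟩ + f ⟨b, y⟩`, if at least one point of `KH P` has
  height `y` (take `a, b` the minimum and maximum of the compact set
  `{x | ⟨x, y⟩ ∈ KH P}`: `IsCompact.exists_isLeast`; `KH P` is compact: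
  `(Set.finite_range P).isCompact_convexHull`).
-/

set_option autoImplicit false

noncomputable section

namespace Pool.Agent.NGN.A

open MeasureTheory Pool.Agent.Stk Set

variable {n : ℕ} [NeZero n] {P : ZMod n → ℂ}

private theorem hline_cr (y : ℝ) (a b z : ℂ) :
    cr (b - a) (z - a) = (b.re - a.re) * (z.im - (cpt y a b).im) - (b.im - a.im) * (z.re - (cpt y a b).re) := by
  unfold cpt cr
  simp only [Complex.sub_re, Complex.sub_im, Complex.add_re, Complex.add_im, Complex.mul_re, Complex.mul_im,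
    Complex.ofReal_re, Complex.ofReal_im]
  ring

theorem he_up {e : ZMod n × ZMod n} (he : e ∈ HE P) {y : ℝ} (hc : Crs y (P e.1) (P e.2))
    (hd : (P e.1).im < (P e.2).im) {z : ℂ} (hz : z ∈ KH P) (hy : z.im = y) :
    z.re ≤ (cpt y (P e.1) (P e.2)).re := by
  have h1 := HE_left he hz
  have h2 := cpt_im hc
  have h3 := hline_cr y (P e.1) (P e.2) z
  rw [h3, h2, hy] at h1
  by_contra hcon
  push Not at hcon
  have h4 : 0 < ((P e.2).im - (P e.1).im) * (z.re - (cpt y (P e.1) (P e.2)).re) :=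
    mul_pos (by linarith) (by linarith)
  linarith

theorem he_down {e : ZMod n × ZMod n} (he : e ∈ HE P) {y : ℝ} (hc : Crs y (P e.1) (P e.2))
    (hd : (P e.2).im < (P e.1).im) {z : ℂ} (hz : z ∈ KH P) (hy : z.im = y) :
    (cpt y (P e.1) (P e.2)).re ≤ z.re := by
  have h1 := HE_left he hz
  have h2 := cpt_im hc
  have h3 := hline_cr y (P e.1) (P e.2) z
  rw [h3, h2, hy] at h1
  by_contra hcon
  push Not at hcon
  have h4 : 0 < ((P e.1).im - (P e.2).im) * ((cpt y (P e.1) (P e.2)).re - z.re) :=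
    mul_pos (by linarith) (by linarith)
  linarith

omit [NeZero n] in
private theorem hline_mem {e : ZMod n × ZMod n} {y : ℝ} (hc : Crs y (P e.1) (P e.2)) :
    cpt y (P e.1) (P e.2) ∈ KH P := by
  have h1 := openSegment_subset_segment ℝ _ _ (cpt_mem hc)
  exact (convex_convexHull ℝ (range P)).segment_subset (subset_convexHull ℝ _ ⟨e.1, rfl⟩)
    (subset_convexHull ℝ _ ⟨e.2, rfl⟩) h1

theorem he_cross (hinj : Function.Injective P) (hint : (interior (KH P)).Nonempty) {f : ℂ → ℝ}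
    (hf : ∀ z, 0 ≤ f z) {y : ℝ} {z : ℂ} (hz : z ∈ KH P) (hy : z.im = y) :
    ∃ a b : ℝ, a ≤ b ∧ (⟨a, y⟩ : ℂ) ∈ KH P ∧ (⟨b, y⟩ : ℂ) ∈ KH P ∧
      (∀ x : ℝ, (⟨x, y⟩ : ℂ) ∈ KH P → a ≤ x ∧ x ≤ b) ∧
      ∑ e ∈ HE P, ctr f (P e.1) (P e.2) y ≤ f ⟨a, y⟩ + f ⟨b, y⟩ := by
  classical
  have hK : IsCompact (KH P) := (Set.finite_range P).isCompact_convexHull ℝ
  have hS : IsCompact (Complex.re '' (KH P ∩ {w | w.im = y})) :=
    (hK.inter_right (isClosed_eq Complex.continuous_im continuous_const)).image Complex.continuous_re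
  have hne : (Complex.re '' (KH P ∩ {w | w.im = y})).Nonempty := ⟨z.re, z, ⟨hz, hy⟩, rfl⟩
  have hmem : ∀ x : ℝ, x ∈ Complex.re '' (KH P ∩ {w | w.im = y}) ↔ (⟨x, y⟩ : ℂ) ∈ KH P := by
    intro x
    constructor
    · rintro ⟨w, ⟨hw, hwy⟩, rfl⟩
      have hwy' : w.im = y := hwy
      have : (⟨w.re, y⟩ : ℂ) = w := Complex.ext rfl hwy'.symm
      rw [this]
      exact hw
    · intro hx
      exact ⟨⟨x, y⟩, ⟨hx, rfl⟩, rfl⟩
  obtain ⟨a, ha, ha'⟩ := hS.exists_isLeast hne
  obtain ⟨b, hb, hb'⟩ := hS.exists_isGreatest hne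
  have haK := (hmem a).1 ha
  have hbK := (hmem b).1 hb
  refine ⟨a, b, ha' hb, haK, hbK, fun x hx => ⟨ha' ((hmem x).2 hx), hb' ((hmem x).2 hx)⟩, ?_⟩
  have hcp : ∀ e : ZMod n × ZMod n, Crs y (P e.1) (P e.2) →
      a ≤ (cpt y (P e.1) (P e.2)).re ∧ (cpt y (P e.1) (P e.2)).re ≤ b := by
    intro e hc
    have h1 : (cpt y (P e.1) (P e.2)).re ∈ Complex.re '' (KH P ∩ {w | w.im = y}) :=
      ⟨_, ⟨hline_mem hc, cpt_im hc⟩, rfl⟩
    exact ⟨ha' h1, hb' h1⟩
  have hup : ∀ e ∈ HE P, Crs y (P e.1) (P e.2) → (P e.1).im < (P e.2).im →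
      cpt y (P e.1) (P e.2) = ⟨b, y⟩ := by
    intro e he hc hd
    exact Complex.ext (le_antisymm (hcp e hc).2 (he_up he hc hd hbK rfl)) (cpt_im hc)
  have hdn : ∀ e ∈ HE P, Crs y (P e.1) (P e.2) → (P e.2).im < (P e.1).im →
      cpt y (P e.1) (P e.2) = ⟨a, y⟩ := by
    intro e he hc hd
    exact Complex.ext (le_antisymm (he_down he hc hd haK rfl) (hcp e hc).1) (cpt_im hc)
  have hone : ∀ (c : ℂ) (Q : ZMod n × ZMod n → Prop),
      (∀ e ∈ HE P, Q e → Crs y (P e.1) (P e.2) ∧ cpt y (P e.1) (P e.2) = c) →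
      ∑ e ∈ HE P, (if Q e then f c else 0) ≤ f c := by
    intro c Q hQ
    rw [← Finset.sum_filter, Finset.sum_const, nsmul_eq_mul]
    have hcard : ((HE P).filter Q).card ≤ 1 := by
      rw [Finset.card_le_one]
      intro e he e' he'
      rw [Finset.mem_filter] at he he'
      have h1 := hQ e he.1 he.2
      have h2 := hQ e' he'.1 he'.2
      have h3 := cpt_mem h1.1
      have h4 := cpt_mem h2.1
      rw [h1.2] at h3
      rw [h2.2] at h4
      exact HE_uniq hinj hint he.1 he'.1 h3 h4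
    have h5 : (((HE P).filter Q).card : ℝ) ≤ 1 := by exact_mod_cast hcard
    calc (((HE P).filter Q).card : ℝ) * f c ≤ 1 * f c := mul_le_mul_of_nonneg_right h5 (hf c)
      _ = f c := one_mul _
  have h1 := hone ⟨a, y⟩ (fun e => Crs y (P e.1) (P e.2) ∧ (P e.2).im < (P e.1).im)
    (fun e he hQ => ⟨hQ.1, hdn e he hQ.1 hQ.2⟩)
  have h2 := hone ⟨b, y⟩ (fun e => Crs y (P e.1) (P e.2) ∧ (P e.1).im < (P e.2).im)
    (fun e he hQ => ⟨hQ.1, hup e he hQ.1 hQ.2⟩)
  refine le_trans ?_ (add_le_add h1 h2)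
  rw [← Finset.sum_add_distrib]
  refine Finset.sum_le_sum fun e he => ?_
  unfold ctr
  by_cases hc : Crs y (P e.1) (P e.2)
  · rw [if_pos hc]
    have hne' : (P e.1).im ≠ (P e.2).im := by
      intro h
      have h3 : ((P e.1).im - y) * ((P e.2).im - y) < 0 := hc
      rw [h] at h3
      nlinarith [mul_self_nonneg ((P e.2).im - y)]
    rcases lt_or_gt_of_ne hne' with hd | hd
    · rw [if_neg (fun h => absurd h.2 (not_lt.2 hd.le)), if_pos ⟨hc, hd⟩, zero_add, hup e he hc hd]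
    · rw [if_pos ⟨hc, hd⟩, if_neg (fun h => absurd h.2 (not_lt.2 hd.le)), add_zero, hdn e he hc hd]
  · rw [if_neg hc, if_neg (fun h => hc h.1), if_neg (fun h => hc h.1), add_zero]

end Pool.Agent.NGN.A
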