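import Pool.Agent.NGN.A.Defs

/-!
# NGN, part A: the cut-off square (Huber's function)

`hub p q = q` for `q ≤ p ^ 2`, `= 2 p √q - p²` for `q ≥ p²` (at `q = p²` both are `p²`).
-/

set_option autoImplicit false

noncomputable section

namespace Pool.Agent.NGN.A

open MeasureTheory Pool.Agent.Stk Set

theorem hub_eq {p q : ℝ} (h : q ≤ p ^ 2) : hub p q = q := if_pos h

private theorem Hub_eq2 {p q : ℝ} (hp : 0 < p) (h : p ^ 2 ≤ q) :
    hub p q = 2 * p * Real.sqrt q - p ^ 2 := by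
  rcases eq_or_lt_of_le h with h1 | h1
  · subst h1
    rw [hub_eq le_rfl, Real.sqrt_sq hp.le]
    ring
  · exact if_neg (not_le.2 h1)

theorem hub_le {p q : ℝ} (hp : 0 < p) (hq : 0 ≤ q) : hub p q ≤ q := by
  rcases le_total q (p ^ 2) with h | h
  · rw [hub_eq h]
  · rw [Hub_eq2 hp h]
    nlinarith [sq_nonneg (Real.sqrt q - p), Real.sq_sqrt hq]

theorem hub_ge {p q : ℝ} (hp : 0 < p) (hq : 0 ≤ q) : 2 * p * Real.sqrt q - p ^ 2 ≤ hub p q := by
  rcases le_total q (p ^ 2) with h | h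
  · rw [hub_eq h]
    nlinarith [sq_nonneg (Real.sqrt q - p), Real.sq_sqrt hq]
  · rw [Hub_eq2 hp h]

theorem hub_nonneg {p q : ℝ} (hp : 0 < p) (hq : 0 ≤ q) : 0 ≤ hub p q := by
  rcases le_total q (p ^ 2) with h | h
  · rw [hub_eq h]
    exact hq
  · rw [Hub_eq2 hp h]
    have h1 : p ≤ Real.sqrt q := Real.le_sqrt_of_sq_le h
    nlinarith [mul_le_mul_of_nonneg_left h1 hp.le, mul_pos hp hp]

theorem hub_scale {p t q : ℝ} (hp : 0 < p) (ht : 0 < t) (hq : 0 ≤ q) :
    hub p (t ^ 2 * q) = t ^ 2 * hub (p / t) q := by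
  have _ := hq
  have hpt : 0 < p / t := div_pos hp ht
  have ht2 : 0 < t ^ 2 := by positivity
  have e : (p / t) ^ 2 = p ^ 2 / t ^ 2 := by rw [div_pow]
  have hs : Real.sqrt (t ^ 2 * q) = t * Real.sqrt q := by
    rw [Real.sqrt_mul ht2.le, Real.sqrt_sq ht.le]
  rcases le_total q ((p / t) ^ 2) with h | h
  · have h1 : t ^ 2 * q ≤ p ^ 2 := by
      rw [e, le_div_iff₀ ht2] at h
      linarith
    rw [hub_eq h, hub_eq h1]
  · have h1 : p ^ 2 ≤ t ^ 2 * q := by
      rw [e, div_le_iff₀ ht2] at h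
      linarith
    rw [Hub_eq2 hpt h, Hub_eq2 hp h1, hs]
    field_simp

private theorem Hub_left {p q : ℝ} (h : q ≤ p ^ 2) :
    HasDerivWithinAt (hub p) 1 (Iic (p ^ 2)) q :=
  (hasDerivWithinAt_id q _).congr (fun _ hx => hub_eq hx) (hub_eq h)

private theorem Hub_right {p q : ℝ} (hp : 0 < p) (h : p ^ 2 ≤ q) :
    HasDerivWithinAt (hub p) (p / Real.sqrt q) (Ici (p ^ 2)) q := by
  have hq : 0 < q := lt_of_lt_of_le (by positivity) h
  have h1 : HasDerivAt (fun x : ℝ => 2 * p * Real.sqrt x - p ^ 2) (p / Real.sqrt q) q := by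
    have h2 := ((Real.hasDerivAt_sqrt hq.ne').const_mul (2 * p)).sub_const (p ^ 2)
    have e : 2 * p * (1 / (2 * Real.sqrt q)) = p / Real.sqrt q := by
      have := (Real.sqrt_pos.2 hq).ne'
      field_simp
    rw [e] at h2
    exact h2
  exact h1.hasDerivWithinAt.congr (fun _ hx => Hub_eq2 hp hx) (Hub_eq2 hp h)

theorem hasDerivAt_hub {p : ℝ} (hp : 0 < p) (q : ℝ) :
    HasDerivAt (hub p) (p / max p (Real.sqrt q)) q := by
  have hl : q ≤ p ^ 2 → p / max p (Real.sqrt q) = 1 := by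
    intro h
    have h1 : Real.sqrt q ≤ p := by
      rw [← Real.sqrt_sq hp.le]
      exact Real.sqrt_le_sqrt h
    rw [max_eq_left h1, div_self hp.ne']
  have hr : p ^ 2 ≤ q → p / max p (Real.sqrt q) = p / Real.sqrt q := by
    intro h
    have h1 : p ≤ Real.sqrt q := Real.le_sqrt_of_sq_le h
    rw [max_eq_right h1]
  rcases lt_trichotomy q (p ^ 2) with h | h | h
  · rw [hl h.le]
    exact (Hub_left h.le).hasDerivAt (Iic_mem_nhds h)
  · have h1 := Hub_left (p := p) h.le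
    have h2 := Hub_right hp h.ge
    rw [← hr h.ge, hl h.le] at h2
    rw [hl h.le, ← hasDerivWithinAt_univ, ← Iic_union_Ici (a := p ^ 2)]
    exact h1.union h2
  · rw [hr h.le]
    exact (Hub_right hp h.le).hasDerivAt (Ici_mem_nhds h)

theorem continuous_hub {p : ℝ} (hp : 0 < p) : Continuous (hub p) :=
  continuous_iff_continuousAt.2 fun q => (hasDerivAt_hub hp q).continuousAt

theorem continuous_phi {p : ℝ} (hp : 0 < p) : Continuous (phi p) :=
  (continuous_hub hp).comp (continuous_norm.pow 2)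

theorem phi_nonneg {p : ℝ} (hp : 0 < p) (z : ℂ) : 0 ≤ phi p z :=
  hub_nonneg hp (sq_nonneg _)

theorem phi_le {p : ℝ} (hp : 0 < p) (z : ℂ) : phi p z ≤ ‖z‖ ^ 2 :=
  hub_le hp (sq_nonneg _)

theorem phi_rot {w : ℂ} (hw : ‖w‖ = 1) (p : ℝ) (z : ℂ) : phi p (w * z) = phi p z := by
  unfold phi
  rw [norm_mul, hw, one_mul]

theorem continuous_wt {p : ℝ} (hp : 0 < p) : Continuous (wt p) := by
  have h1 : Continuous fun z : ℂ => p / max p ‖z‖ :=
    continuous_const.div (continuous_const.max continuous_norm)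
      fun z => (lt_of_lt_of_le hp (le_max_left _ _)).ne'
  exact (continuous_const.mul (Complex.continuous_re.abs)).mul h1

theorem wt_nonneg {p : ℝ} (hp : 0 < p) (z : ℂ) : 0 ≤ wt p z := by
  unfold wt
  have h : 0 < max p ‖z‖ := lt_of_lt_of_le hp (le_max_left _ _)
  positivity

private theorem Hub_normsq (x y : ℝ) : ‖(⟨x, y⟩ : ℂ)‖ ^ 2 = x ^ 2 + y ^ 2 := by
  rw [Complex.sq_norm, Complex.normSq_mk]
  ring

/-- Along a horizontal line `phi p` changes by at most the integral of `wt p`. -/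
theorem phi_line {p : ℝ} (hp : 0 < p) (y : ℝ) {a b : ℝ} (hab : a ≤ b) :
    |phi p ⟨b, y⟩ - phi p ⟨a, y⟩| ≤ ∫ x in a..b, wt p ⟨x, y⟩ := by
  have hline : Continuous fun x : ℝ => (⟨x, y⟩ : ℂ) := by
    have e : (fun x : ℝ => (⟨x, y⟩ : ℂ)) = fun x : ℝ => (x : ℂ) + (y : ℂ) * Complex.I := by
      funext x
      apply Complex.ext <;> simp
    rw [e]
    fun_prop
  have hd : ∀ x : ℝ, HasDerivAt (fun x : ℝ => phi p ⟨x, y⟩)
      (p / max p ‖(⟨x, y⟩ : ℂ)‖ * (2 * x)) x := by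
    intro x
    have e : (fun x : ℝ => phi p ⟨x, y⟩) = fun x : ℝ => hub p (x ^ 2 + y ^ 2) := by
      funext t
      unfold phi
      rw [Hub_normsq]
    have hs : Real.sqrt (x ^ 2 + y ^ 2) = ‖(⟨x, y⟩ : ℂ)‖ := by
      rw [← Hub_normsq, Real.sqrt_sq (norm_nonneg _)]
    have h1 : HasDerivAt (fun x : ℝ => x ^ 2 + y ^ 2) (2 * x) x := by
      have h2 := ((hasDerivAt_id x).pow 2).add_const (y ^ 2)
      have e2 : ((2 : ℕ) : ℝ) * id x ^ (2 - 1) * 1 = 2 * x := by
        simp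
      rw [e2] at h2
      exact h2
    rw [e, ← hs]
    exact (hasDerivAt_hub hp (x ^ 2 + y ^ 2)).comp x h1
  have hc : Continuous fun x : ℝ => p / max p ‖(⟨x, y⟩ : ℂ)‖ * (2 * x) := by
    have h1 : Continuous fun x : ℝ => p / max p ‖(⟨x, y⟩ : ℂ)‖ :=
      continuous_const.div (continuous_const.max hline.norm)
        fun z => (lt_of_lt_of_le hp (le_max_left _ _)).ne'
    exact h1.mul (continuous_const.mul continuous_id)
  have hI : ∫ x in a..b, p / max p ‖(⟨x, y⟩ : ℂ)‖ * (2 * x) = phi p ⟨b, y⟩ - phi p ⟨a, y⟩ :=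
    intervalIntegral.integral_eq_sub_of_hasDerivAt (fun x _ => hd x) (hc.intervalIntegrable _ _)
  rw [← hI, ← Real.norm_eq_abs]
  refine (intervalIntegral.norm_integral_le_integral_norm hab).trans (le_of_eq ?_)
  refine intervalIntegral.integral_congr fun x _ => ?_
  have hm : 0 < p / max p ‖(⟨x, y⟩ : ℂ)‖ := div_pos hp (lt_of_lt_of_le hp (le_max_left _ _))
  unfold wt
  simp only [Real.norm_eq_abs]
  rw [abs_mul, abs_of_pos hm, abs_mul, abs_two]
  ring

end Pool.Agent.NGN.A
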