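import Pool.Agent.NGN.A.Crs

/-!
# NGN, part A: the region lies between the extreme crossings

* `ray_disj`: a preconnected unbounded set which does not meet `frontier Ω`, `Ω` bounded, does not meet `Ω`.
* `omega_left`, `omega_right`: the horizontal rays from a point of `Ω` meet `frontier Ω`, hence some edge.
* `omega_hull`: a point of `Ω` outside the convex hull would have a ray which does not meet the hull.
-/

set_option autoImplicit false

noncomputable section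

namespace Pool.Agent.NGN.A

open MeasureTheory Pool.Agent.Stk Set

theorem ray_disj {Ω Z : Set ℂ} (hb : Bornology.IsBounded Ω) (hZ : IsPreconnected Z)
    (hZb : ¬ Bornology.IsBounded Z) (hd : Disjoint Z (frontier Ω)) : Disjoint Z Ω := by
  rw [Set.disjoint_left]
  intro z hzZ hzO
  have hcov : Z ⊆ interior Ω ∪ (closure Ω)ᶜ := by
    intro w hw
    by_cases h1 : w ∈ interior Ω
    · exact Or.inl h1
    · refine Or.inr fun h2 => ?_
      exact Set.disjoint_left.mp hd hw ⟨h2, h1⟩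
  have hzi : z ∈ interior Ω := by
    rcases hcov hzZ with h | h
    · exact h
    · exact absurd (subset_closure hzO) h
  obtain ⟨x, hxZ, hx⟩ : ∃ x ∈ Z, x ∉ interior Ω := by
    by_contra hcon
    push Not at hcon
    exact hZb (hb.subset fun w hw => interior_subset (hcon w hw))
  have hxc : x ∈ (closure Ω)ᶜ := (hcov hxZ).resolve_left hx
  obtain ⟨w, _, hw1, hw2⟩ := hZ (interior Ω) (closure Ω)ᶜ isOpen_interior
    isClosed_closure.isOpen_compl hcov ⟨z, hzZ, hzi⟩ ⟨x, hxZ, hxc⟩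
  exact hw2 (subset_closure (interior_subset hw1))

private theorem Ray_meet {Ω : Set ℂ} (hb : Bornology.IsBounded Ω) {z : ℂ} (hz : z ∈ Ω) {v : ℂ}
    (hv : v ≠ 0) : ∃ t : ℝ, 0 ≤ t ∧ z + t • v ∈ frontier Ω := by
  by_contra hcon
  push Not at hcon
  have hv' : 0 < ‖v‖ := norm_pos_iff.mpr hv
  have h1 : IsPreconnected ((fun t : ℝ => z + t • v) '' Ici 0) :=
    isPreconnected_Ici.image _ (by fun_prop)
  have h2 : ¬ Bornology.IsBounded ((fun t : ℝ => z + t • v) '' Ici 0) := by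
    intro h
    obtain ⟨R, hR⟩ := h.exists_norm_le
    have hR0 : 0 ≤ R := (norm_nonneg _).trans (hR (z + (0 : ℝ) • v) ⟨0, mem_Ici.mpr le_rfl, rfl⟩)
    have ht : 0 ≤ (R + ‖z‖ + 1) / ‖v‖ := by positivity
    have h3 := hR (z + ((R + ‖z‖ + 1) / ‖v‖) • v) ⟨_, ht, rfl⟩
    have h4 : ‖((R + ‖z‖ + 1) / ‖v‖) • v‖ = R + ‖z‖ + 1 := by
      rw [norm_smul, Real.norm_of_nonneg ht, div_mul_cancel₀ _ hv'.ne']
    have h5 : ‖((R + ‖z‖ + 1) / ‖v‖) • v‖ ≤ ‖z + ((R + ‖z‖ + 1) / ‖v‖) • v‖ + ‖z‖ := by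
      have := norm_sub_le (z + ((R + ‖z‖ + 1) / ‖v‖) • v) z
      rwa [add_sub_cancel_left] at this
    linarith
  have h3 : Disjoint ((fun t : ℝ => z + t • v) '' Ici 0) (frontier Ω) := by
    rw [Set.disjoint_left]
    rintro _ ⟨t, ht, rfl⟩
    exact hcon t ht
  have h4 : z ∈ (fun t : ℝ => z + t • v) '' Ici 0 := ⟨0, mem_Ici.mpr le_rfl, by simp⟩
  exact Set.disjoint_left.mp (ray_disj hb h1 h2 h3) h4 hz

variable {n : ℕ} [NeZero n] {P : ZMod n → ℂ} {Ω : Set ℂ}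

theorem omega_left (hb : Bornology.IsBounded Ω)
    (hf : frontier Ω ⊆ ⋃ i, segment ℝ (P i) (P (i + 1))) {y : ℝ} (hy : ∀ k, (P k).im ≠ y)
    {z : ℂ} (hz : z ∈ Ω) (hzy : z.im = y) :
    ∃ i, Crs y (P i) (P (i + 1)) ∧ (cpt y (P i) (P (i + 1))).re ≤ z.re := by
  obtain ⟨t, ht, h⟩ := Ray_meet hb hz (v := -1) (by norm_num)
  obtain ⟨i, hi⟩ := mem_iUnion.mp (hf h)
  obtain ⟨h1, h2⟩ := eq_cpt (hy i) (hy (i + 1)) hi (by simp [hzy])
  refine ⟨i, h1, ?_⟩
  rw [← h2]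
  simp [ht]

theorem omega_right (hb : Bornology.IsBounded Ω)
    (hf : frontier Ω ⊆ ⋃ i, segment ℝ (P i) (P (i + 1))) {y : ℝ} (hy : ∀ k, (P k).im ≠ y)
    {z : ℂ} (hz : z ∈ Ω) (hzy : z.im = y) :
    ∃ i, Crs y (P i) (P (i + 1)) ∧ z.re ≤ (cpt y (P i) (P (i + 1))).re := by
  obtain ⟨t, ht, h⟩ := Ray_meet hb hz (v := 1) (by norm_num)
  obtain ⟨i, hi⟩ := mem_iUnion.mp (hf h)
  obtain ⟨h1, h2⟩ := eq_cpt (hy i) (hy (i + 1)) hi (by simp [hzy])
  refine ⟨i, h1, ?_⟩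
  rw [← h2]
  simp [ht]

theorem omega_hull (hb : Bornology.IsBounded Ω)
    (hf : frontier Ω ⊆ ⋃ i, segment ℝ (P i) (P (i + 1))) : Ω ⊆ KH P := by
  intro z hz
  by_contra hzK
  have hcl : IsClosed (KH P) := ((Set.finite_range P).isCompact_convexHull ℝ).isClosed
  have hcv : Convex ℝ (KH P) := convex_convexHull ℝ _
  have hmem : ∀ i, P i ∈ KH P := fun i => subset_convexHull ℝ _ (mem_range_self i)
  obtain ⟨f, u, hfz, hfu⟩ := geometric_hahn_banach_point_closed hcv hcl hzK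
  have hv0 : f (z - P 0) < 0 := by
    rw [map_sub]
    have := hfu _ (hmem 0)
    linarith
  have hv : z - P 0 ≠ 0 := by
    intro h
    rw [h, map_zero] at hv0
    exact lt_irrefl _ hv0
  obtain ⟨t, ht, h⟩ := Ray_meet hb hz hv
  obtain ⟨i, hi⟩ := mem_iUnion.mp (hf h)
  have h1 := hfu _ (hcv.segment_subset (hmem i) (hmem (i + 1)) hi)
  rw [map_add, map_smul, smul_eq_mul] at h1
  have := mul_nonpos_of_nonneg_of_nonpos ht hv0.le
  linarith

end Pool.Agent.NGN.A
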