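import Pool.Agent.NGN.A.HLine
import Pool.Agent.NGN.A.Ray
import Pool.Agent.NGN.A.Hub

/-!
# NGN, part A: the inequality on one horizontal line

PLAN (`line_ineq`).  Height `y` different from all `(P k).im`.
Case 1: no edge of `P` crosses.  By `no_cross` no hull edge crosses: the left side is `0` and the
right side is `≥ 0`.
Case 2: some edge crosses.  Let `C` be the set of crossing edges, `x i = (cpt y (P i) (P (i + 1))).re`;
`α = min x`, `β = max x` over `C`.  By `two_cross` the sum over `C` of `phi` is `≥ phi ⟨α, y⟩ + phi ⟨β, y⟩`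
(if `α < β` the minimum and the maximum are attained at different indices; if `α = β` all `x i` are equal
and there are two of them; all terms are `≥ 0`).  `cpt ∈ KH P`, so with `a, b` of `he_cross`:
`a ≤ α ≤ β ≤ b`; `Ω` at height `y` is inside `[α, β]` (`omega_left`, `omega_right`); `⟨x, y⟩ ∈ KH P` for
`a ≤ x ≤ b` (convexity).  So the indicator is `1` on `[a, α)` and `(β, b]`, and `phi_line` gives
`phi ⟨a, y⟩ - phi ⟨α, y⟩ ≤ ∫ a..α wt`, `phi ⟨b, y⟩ - phi ⟨β, y⟩ ≤ ∫ β..b wt`.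
-/

set_option autoImplicit false

noncomputable section

namespace Pool.Agent.NGN.A

open MeasureTheory Pool.Agent.Stk Set

variable {n : ℕ} [NeZero n] {P : ZMod n → ℂ} {Ω : Set ℂ}

private theorem Line_ind (p y x : ℝ) : (KH P \ Ω).indicator (wt p) ⟨x, y⟩ =
    {x : ℝ | (⟨x, y⟩ : ℂ) ∈ KH P \ Ω}.indicator (fun x => wt p ⟨x, y⟩) x := by
  by_cases h : (⟨x, y⟩ : ℂ) ∈ KH P \ Ω
  · rw [indicator_of_mem h, indicator_of_mem (show x ∈ {x : ℝ | (⟨x, y⟩ : ℂ) ∈ KH P \ Ω} from h)]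
  · rw [indicator_of_notMem h,
      indicator_of_notMem (show x ∉ {x : ℝ | (⟨x, y⟩ : ℂ) ∈ KH P \ Ω} from h)]

private theorem Line_cont (y : ℝ) : Continuous fun x : ℝ => (⟨x, y⟩ : ℂ) := by
  have h : (fun x : ℝ => (⟨x, y⟩ : ℂ)) = fun x : ℝ => (x : ℂ) + (y : ℂ) * Complex.I := by
    funext x
    apply Complex.ext <;> simp
  rw [h]
  exact Complex.continuous_ofReal.add continuous_const

private theorem Line_KH_conv (y : ℝ) : OrdConnected {x : ℝ | (⟨x, y⟩ : ℂ) ∈ KH P} := by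
  refine Convex.ordConnected (𝕜 := ℝ) ?_
  intro x1 h1 x2 h2 a b ha hb hab
  have h3 : (⟨a • x1 + b • x2, y⟩ : ℂ) = a • (⟨x1, y⟩ : ℂ) + b • (⟨x2, y⟩ : ℂ) := by
    apply Complex.ext
    · simp
    · simp
      rw [← add_mul, hab, one_mul]
  show (⟨a • x1 + b • x2, y⟩ : ℂ) ∈ KH P
  rw [h3]
  exact convex_convexHull ℝ _ h1 h2 ha hb hab

/-- The integrand is integrable on every horizontal line. -/
theorem line_integrable (hO : IsOpen Ω) {p : ℝ} (hp : 0 < p) (y : ℝ) :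
    Integrable fun x : ℝ => (KH P \ Ω).indicator (wt p) ⟨x, y⟩ := by
  have hKc : IsCompact (KH P) := (Set.finite_range P).isCompact_convexHull (𝕜 := ℝ)
  obtain ⟨R, hR⟩ := hKc.isBounded.subset_closedBall 0
  have h1 : {x : ℝ | (⟨x, y⟩ : ℂ) ∈ KH P \ Ω} ⊆ Icc (-R) R := by
    intro x hx
    have h2 := hR hx.1
    rw [mem_closedBall_zero_iff] at h2
    have h3 : |x| ≤ ‖(⟨x, y⟩ : ℂ)‖ := Complex.abs_re_le_norm ⟨x, y⟩
    exact abs_le.1 (h3.trans h2)
  have h2 : MeasurableSet {x : ℝ | (⟨x, y⟩ : ℂ) ∈ KH P \ Ω} :=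
    (Line_cont y).measurable (hKc.isClosed.measurableSet.diff hO.measurableSet)
  have h3 : IntegrableOn (fun x : ℝ => wt p ⟨x, y⟩) (Icc (-R) R) :=
    ((continuous_wt hp).comp (Line_cont y)).continuousOn.integrableOn_compact isCompact_Icc
  have h4 : (fun x : ℝ => (KH P \ Ω).indicator (wt p) ⟨x, y⟩) =
      {x : ℝ | (⟨x, y⟩ : ℂ) ∈ KH P \ Ω}.indicator (fun x => wt p ⟨x, y⟩) :=
    funext fun x => Line_ind p y x
  rw [h4, integrable_indicator_iff h2]
  exact h3.mono_set h1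

theorem line_sum {y p : ℝ} (hp : 0 < p) (hy : ∀ k, (P k).im ≠ y) {i : ZMod n}
    (hi : Crs y (P i) (P (i + 1))) :
    ∃ j k : ZMod n, Crs y (P j) (P (j + 1)) ∧ Crs y (P k) (P (k + 1)) ∧
      (∀ l, Crs y (P l) (P (l + 1)) →
        (cpt y (P j) (P (j + 1))).re ≤ (cpt y (P l) (P (l + 1))).re ∧
        (cpt y (P l) (P (l + 1))).re ≤ (cpt y (P k) (P (k + 1))).re) ∧
      phi p (cpt y (P j) (P (j + 1))) + phi p (cpt y (P k) (P (k + 1))) ≤
        ∑ i, ctr (phi p) (P i) (P (i + 1)) y := by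
  classical
  obtain ⟨C, hC⟩ : ∃ C : Finset (ZMod n), C = Finset.univ.filter
      fun l => Crs y (P l) (P (l + 1)) := ⟨_, rfl⟩
  have hmem : ∀ l, l ∈ C ↔ Crs y (P l) (P (l + 1)) := by
    intro l
    rw [hC, Finset.mem_filter]
    exact ⟨fun h => h.2, fun h => ⟨Finset.mem_univ l, h⟩⟩
  have hne : C.Nonempty := ⟨i, (hmem i).2 hi⟩
  obtain ⟨j, hj, hjm⟩ := C.exists_min_image (fun l => (cpt y (P l) (P (l + 1))).re) hne
  obtain ⟨k, hk, hkm⟩ := C.exists_max_image (fun l => (cpt y (P l) (P (l + 1))).re) hne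
  have hj' := (hmem j).1 hj
  have hk' := (hmem k).1 hk
  refine ⟨j, k, hj', hk', fun l hl => ⟨hjm l ((hmem l).2 hl), hkm l ((hmem l).2 hl)⟩, ?_⟩
  obtain ⟨k', hk1, hk2, hk3⟩ : ∃ k', k' ≠ j ∧ Crs y (P k') (P (k' + 1)) ∧
      cpt y (P k') (P (k' + 1)) = cpt y (P k) (P (k + 1)) := by
    by_cases hjk : k = j
    · obtain ⟨j', hj1, hj2⟩ := two_cross hy hj'
      refine ⟨j', hj1, hj2, ?_⟩
      have h1 := hjm j' ((hmem j').2 hj2)
      have h2 := hkm j' ((hmem j').2 hj2)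
      simp only [hjk] at h1 h2 ⊢
      apply Complex.ext
      · exact le_antisymm h2 h1
      · rw [cpt_im hj2, cpt_im hj']
    · exact ⟨k, hjk, hk', rfl⟩
  have h0 : ∀ l, 0 ≤ ctr (phi p) (P l) (P (l + 1)) y := by
    intro l
    unfold ctr
    split_ifs
    · exact phi_nonneg hp _
    · exact le_rfl
  have h1 : ∑ l ∈ ({j, k'} : Finset (ZMod n)), ctr (phi p) (P l) (P (l + 1)) y ≤
      ∑ i, ctr (phi p) (P i) (P (i + 1)) y :=
    Finset.sum_le_sum_of_subset_of_nonneg (Finset.subset_univ _) fun l _ _ => h0 l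
  rw [Finset.sum_pair (Ne.symm hk1)] at h1
  refine le_trans (le_of_eq ?_) h1
  unfold ctr
  rw [if_pos hj', if_pos hk2, hk3]

theorem line_ineq (hinj : Function.Injective P) (hint : (interior (KH P)).Nonempty)
    (hO : IsOpen Ω) (hb : Bornology.IsBounded Ω)
    (hf : frontier Ω ⊆ ⋃ i, segment ℝ (P i) (P (i + 1))) {p : ℝ} (hp : 0 < p) {y : ℝ}
    (hy : ∀ k, (P k).im ≠ y) :
    ∑ e ∈ HE P, ctr (phi p) (P e.1) (P e.2) y ≤
      ∑ i, ctr (phi p) (P i) (P (i + 1)) y +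
        ∫ x : ℝ, (KH P \ Ω).indicator (wt p) ⟨x, y⟩ := by
  have hind0 : ∀ x : ℝ, 0 ≤ (KH P \ Ω).indicator (wt p) ⟨x, y⟩ := fun x =>
    indicator_nonneg (fun z _ => wt_nonneg hp z) _
  have hint0 : 0 ≤ ∫ x : ℝ, (KH P \ Ω).indicator (wt p) ⟨x, y⟩ := integral_nonneg hind0
  by_cases hcr : ∃ i, Crs y (P i) (P (i + 1))
  · obtain ⟨i, hi⟩ := hcr
    obtain ⟨j, k, hj, hk, hjk, hsum⟩ := line_sum hp hy hi
    obtain ⟨α, hα⟩ : ∃ α, α = (cpt y (P j) (P (j + 1))).re := ⟨_, rfl⟩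
    obtain ⟨β, hβ⟩ : ∃ β, β = (cpt y (P k) (P (k + 1))).re := ⟨_, rfl⟩
    have hcj : cpt y (P j) (P (j + 1)) = ⟨α, y⟩ := by
      apply Complex.ext
      · exact hα.symm
      · exact cpt_im hj
    have hck : cpt y (P k) (P (k + 1)) = ⟨β, y⟩ := by
      apply Complex.ext
      · exact hβ.symm
      · exact cpt_im hk
    have hKseg : ∀ l l' : ZMod n, ∀ z ∈ openSegment ℝ (P l) (P l'), z ∈ KH P := by
      intro l l' z hz
      exact (convex_convexHull ℝ (range P)).segment_subset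
        (subset_convexHull ℝ _ (mem_range_self l)) (subset_convexHull ℝ _ (mem_range_self l'))
        (openSegment_subset_segment ℝ _ _ hz)
    have hjK : (⟨α, y⟩ : ℂ) ∈ KH P := by
      rw [← hcj]
      exact hKseg _ _ _ (cpt_mem hj)
    have hkK : (⟨β, y⟩ : ℂ) ∈ KH P := by
      rw [← hck]
      exact hKseg _ _ _ (cpt_mem hk)
    obtain ⟨a, b, hab, haK, hbK, hKab, hle⟩ := he_cross hinj hint (f := phi p)
      (fun z => phi_nonneg hp z) hjK rfl
    have hαβ : α ≤ β := by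
      rw [hα, hβ]
      exact (hjk k hk).1
    have haα : a ≤ α := (hKab α hjK).1
    have hβb : β ≤ b := (hKab β hkK).2
    rw [hcj, hck] at hsum
    have p1 := abs_le.1 (phi_line hp y haα)
    have p2 := abs_le.1 (phi_line hp y hβb)
    -- the integral
    have hg : Continuous fun x : ℝ => wt p ⟨x, y⟩ := (continuous_wt hp).comp (Line_cont y)
    have hi1 : ∀ c d : ℝ, Integrable ((Ioo c d).indicator fun x : ℝ => wt p ⟨x, y⟩) := by
      intro c d
      rw [integrable_indicator_iff measurableSet_Ioo]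
      exact (hg.continuousOn.integrableOn_compact isCompact_Icc).mono_set Ioo_subset_Icc_self
    have hi2 : ∀ c d : ℝ, c ≤ d → ∫ x, (Ioo c d).indicator (fun x : ℝ => wt p ⟨x, y⟩) x =
        ∫ x in c..d, wt p ⟨x, y⟩ := by
      intro c d hcd
      rw [integral_indicator measurableSet_Ioo, intervalIntegral.integral_of_le hcd,
        integral_Ioc_eq_integral_Ioo]
    have hmain : (∫ x in a..α, wt p ⟨x, y⟩) + (∫ x in β..b, wt p ⟨x, y⟩) ≤
        ∫ x : ℝ, (KH P \ Ω).indicator (wt p) ⟨x, y⟩ := by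
      rw [← hi2 a α haα, ← hi2 β b hβb, ← integral_add (hi1 _ _) (hi1 _ _)]
      refine integral_mono ((hi1 _ _).add (hi1 _ _)) (line_integrable hO hp y) fun x => ?_
      show (Ioo a α).indicator (fun x : ℝ => wt p ⟨x, y⟩) x +
        (Ioo β b).indicator (fun x : ℝ => wt p ⟨x, y⟩) x ≤ (KH P \ Ω).indicator (wt p) ⟨x, y⟩
      have hK : a ≤ x → x ≤ b → (⟨x, y⟩ : ℂ) ∈ KH P := fun h1 h2 =>
        (Line_KH_conv (P := P) y).out haK hbK ⟨h1, h2⟩
      by_cases h1 : x ∈ Ioo a α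
      · have h2 : x ∉ Ioo β b := fun h => absurd (h.1.trans h1.2) (not_lt.2 hαβ)
        have h3 : (⟨x, y⟩ : ℂ) ∈ KH P \ Ω := by
          refine ⟨hK h1.1.le (h1.2.le.trans (hαβ.trans hβb)), fun hxO => ?_⟩
          obtain ⟨l, hl1, hl2⟩ := omega_left hb hf hy hxO rfl
          have h4 := (hjk l hl1).1
          rw [← hα] at h4
          exact absurd (h4.trans hl2) (not_le.2 h1.2)
        rw [indicator_of_mem h1, indicator_of_notMem h2, indicator_of_mem h3, add_zero]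
      · by_cases h2 : x ∈ Ioo β b
        · have h3 : (⟨x, y⟩ : ℂ) ∈ KH P \ Ω := by
            refine ⟨hK (haα.trans (hαβ.trans h2.1.le)) h2.2.le, fun hxO => ?_⟩
            obtain ⟨l, hl1, hl2⟩ := omega_right hb hf hy hxO rfl
            have h4 := (hjk l hl1).2
            rw [← hβ] at h4
            exact absurd (hl2.trans h4) (not_le.2 h2.1)
          rw [indicator_of_notMem h1, indicator_of_mem h2, indicator_of_mem h3, zero_add]
        · rw [indicator_of_notMem h1, indicator_of_notMem h2, add_zero]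
          exact hind0 x
    linarith [p1.1, p1.2, p2.1, p2.2]
  · push Not at hcr
    have h1 : ∑ e ∈ HE P, ctr (phi p) (P e.1) (P e.2) y = 0 := by
      refine Finset.sum_eq_zero fun e _ => ?_
      unfold ctr
      rw [if_neg (no_cross hy hcr e.1 e.2)]
    rw [h1]
    refine add_nonneg (Finset.sum_nonneg fun l _ => ?_) hint0
    unfold ctr
    split_ifs
    · exact phi_nonneg hp _
    · exact le_rfl

end Pool.Agent.NGN.A
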