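import Pool.Agent.NGN.A.Hub
import Pool.Agent.NGN.D.H

/-!
# NGN, part A: the side inequality for the cut-off square

PLAN.  `q = qS tau ≥ 0` and `r = rS tau ≥ 0` for `0 < tau ≤ 1` (`DA_nonneg` at `0`: `DA tau 0 = rS tau`),
`p = 3 (1 + tau² / 3) / 2`.
* `side_scalar`.  If `p ≤ h` : `hub p (h² (1 + s²)) ≥ 2 p h √(1 + s²) - p² ≥ 2 p h - p² ≥ p h` (`hub_ge`), so the
  integral is `≥ 0`.  If `h < p`: let `S = √(p² / h² - 1)`, so `h² (1 + s²) ≤ p²` iff `|s| ≤ S`.
  `α = max a (-S)`, `β = min b S`.  Outside `[α, β]` the integrand is `≥ 0` (there `√(h² (1 + s²)) ≥ p ≥ h`,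
  `hub ≥ 2 p · p - p² = p² ≥ p h`).  If `α < β`: inside `hub = h² (1 + s²)`, the integral over `[α, β]` is
  elementary and equals `(2 tau / h) (h³ λ (1 + κ² + λ² tau² / 3) - p h² λ)` with `κ = (α + β) / 2`,
  `λ = (β - α) / (2 tau)`; `D_H` gives `LS tau h κ λ ≥ 0`, and
  `omS tau κ λ = arctan β - arctan α ≤ arctan b - arctan a`.  If `β ≤ α`: everything is `≥ 0`.
* `side_geom`: `h = sH v w`, `a = κ - λ tau`, `b = κ + λ tau`, `κ = sK v w`, `λ = sL tau v w`:
  `‖v + t (w - v)‖² = h² (1 + (a + t (b - a))²)`, `‖w - v‖ = h (b - a)`, `cr v w = h² (b - a)`; substitute in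
  `segInt`; then `side_scalar` with `t h` instead of `h` and `hub_scale`.
-/

set_option autoImplicit false

noncomputable section

namespace Pool.Agent.NGN.A

open MeasureTheory Pool.Agent.Stk Set

theorem qS_nonneg {tau : ℝ} (h0 : 0 < tau) (h1 : tau ≤ 1) : 0 ≤ qS tau := by
  unfold qS
  have h4 : tau ^ 4 ≤ 1 := pow_le_one₀ h0.le h1
  exact div_nonneg (by linarith) (by linarith)

theorem rS_nonneg {tau : ℝ} (h0 : 0 < tau) (h1 : tau ≤ 1) : 0 ≤ rS tau := by
  have h := DA_nonneg h0 h1 (le_refl (0 : ℝ))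
  unfold DA at h
  simpa using h

/-- The integrand is nonnegative where the square is cut off. -/
theorem side_integrand {p h s : ℝ} (hp : 0 < p) (hh : 0 < h) (hs : p ^ 2 ≤ h ^ 2 * (1 + s ^ 2)) :
    0 ≤ hub p (h ^ 2 * (1 + s ^ 2)) - p * h := by
  have hq : 0 ≤ h ^ 2 * (1 + s ^ 2) := by positivity
  have h1 := hub_ge hp hq
  have h2 : p ≤ Real.sqrt (h ^ 2 * (1 + s ^ 2)) := Real.le_sqrt_of_sq_le hs
  have h3 : h ≤ Real.sqrt (h ^ 2 * (1 + s ^ 2)) := by
    apply Real.le_sqrt_of_sq_le
    nlinarith [mul_nonneg (sq_nonneg h) (sq_nonneg s)]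
  have h4 : 0 ≤ p * (2 * Real.sqrt (h ^ 2 * (1 + s ^ 2)) - p - h) :=
    mul_nonneg hp.le (by linarith)
  nlinarith

theorem side_cont {p h : ℝ} (hp : 0 < p) :
    Continuous fun s : ℝ => hub p (h ^ 2 * (1 + s ^ 2)) - p * h :=
  ((continuous_hub hp).comp (by fun_prop)).sub continuous_const

theorem side_scalar {tau : ℝ} (h0 : 0 < tau) (h1 : tau ≤ 1) {h a b : ℝ} (hh : 0 < h)
    (hab : a < b) :
    0 ≤ h / (2 * tau) * (∫ s in a..b, (hub (3 * (1 + tau ^ 2 / 3) / 2) (h ^ 2 * (1 + s ^ 2))
        - 3 * (1 + tau ^ 2 / 3) / 2 * h))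
      + qS tau * (Real.arctan b - Real.arctan a) + rS tau := by
  set p : ℝ := 3 * (1 + tau ^ 2 / 3) / 2 with hp
  have hp0 : 0 < p := by rw [hp]; positivity
  have hq := qS_nonneg h0 h1
  have hr := rS_nonneg h0 h1
  have hc := side_cont (h := h) hp0
  have hint : ∀ x y : ℝ, IntervalIntegrable (fun s : ℝ => hub p (h ^ 2 * (1 + s ^ 2)) - p * h)
      volume x y := fun x y => hc.intervalIntegrable x y
  have hat : Real.arctan a ≤ Real.arctan b := Real.arctan_strictMono.monotone hab.le
  have hht : 0 ≤ h / (2 * tau) := by positivity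
  -- if the square is cut off on the whole side, everything is nonnegative
  have triv : (∀ s ∈ Icc a b, p ^ 2 ≤ h ^ 2 * (1 + s ^ 2)) →
      0 ≤ h / (2 * tau) * (∫ s in a..b, (hub p (h ^ 2 * (1 + s ^ 2)) - p * h))
      + qS tau * (Real.arctan b - Real.arctan a) + rS tau := by
    intro H
    have h2 : 0 ≤ ∫ s in a..b, (hub p (h ^ 2 * (1 + s ^ 2)) - p * h) :=
      intervalIntegral.integral_nonneg hab.le fun s hs => side_integrand hp0 hh (H s hs)
    have h3 := mul_nonneg hht h2
    have h4 := mul_nonneg hq (sub_nonneg.2 hat)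
    linarith
  rcases le_or_gt p h with hph | hph
  · apply triv
    intro s _
    have : p ^ 2 ≤ h ^ 2 := pow_le_pow_left₀ hp0.le hph 2
    nlinarith [mul_nonneg (sq_nonneg h) (sq_nonneg s)]
  -- now `h < p`
  have hpq : 1 < p ^ 2 / h ^ 2 := by
    rw [one_lt_div (by positivity)]
    exact pow_lt_pow_left₀ hph hh.le (by norm_num)
  set S : ℝ := Real.sqrt (p ^ 2 / h ^ 2 - 1) with hS
  have hS0 : 0 < S := Real.sqrt_pos.2 (by linarith)
  have hS2 : S ^ 2 = p ^ 2 / h ^ 2 - 1 := Real.sq_sqrt (by linarith)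
  have hS3 : h ^ 2 * (1 + S ^ 2) = p ^ 2 := by
    rw [hS2]; field_simp; ring
  have hout : ∀ s : ℝ, S ≤ |s| → p ^ 2 ≤ h ^ 2 * (1 + s ^ 2) := by
    intro s hs
    rw [← hS3, ← sq_abs s]
    have : S ^ 2 ≤ |s| ^ 2 := pow_le_pow_left₀ hS0.le hs 2
    gcongr
  have hin : ∀ s : ℝ, |s| ≤ S → h ^ 2 * (1 + s ^ 2) ≤ p ^ 2 := by
    intro s hs
    rw [← hS3, ← sq_abs s]
    have : |s| ^ 2 ≤ S ^ 2 := pow_le_pow_left₀ (abs_nonneg s) hs 2
    gcongr
  rcases le_or_gt b (-S) with hb | hb
  · apply triv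
    intro s hs
    apply hout
    rw [abs_of_neg (by linarith [hs.2])]
    linarith [hs.2]
  rcases le_or_gt S a with ha | ha
  · apply triv
    intro s hs
    apply hout
    exact (ha.trans hs.1).trans (le_abs_self s)
  set α : ℝ := max a (-S) with hα
  set β : ℝ := min b S with hβ
  have haα : a ≤ α := le_max_left _ _
  have hβb : β ≤ b := min_le_left _ _
  have hαβ : α < β := by
    rw [hα, hβ]
    exact max_lt (lt_min hab ha) (lt_min hb (by linarith))
  have e1 : (∫ s in a..b, (hub p (h ^ 2 * (1 + s ^ 2)) - p * h))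
      = (∫ s in a..α, (hub p (h ^ 2 * (1 + s ^ 2)) - p * h))
        + (∫ s in α..β, (hub p (h ^ 2 * (1 + s ^ 2)) - p * h))
        + ∫ s in β..b, (hub p (h ^ 2 * (1 + s ^ 2)) - p * h) := by
    rw [intervalIntegral.integral_add_adjacent_intervals (hint _ _) (hint _ _),
      intervalIntegral.integral_add_adjacent_intervals (hint _ _) (hint _ _)]
  have e2 : 0 ≤ ∫ s in a..α, (hub p (h ^ 2 * (1 + s ^ 2)) - p * h) := by
    rcases le_total a (-S) with h2 | h2
    · have : α = -S := max_eq_right h2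
      rw [this]
      apply intervalIntegral.integral_nonneg h2
      intro s hs
      apply side_integrand hp0 hh
      apply hout
      rw [abs_of_neg (by linarith [hs.2])]
      linarith [hs.2]
    · have : α = a := max_eq_left h2
      rw [this, intervalIntegral.integral_same]
  have e3 : 0 ≤ ∫ s in β..b, (hub p (h ^ 2 * (1 + s ^ 2)) - p * h) := by
    rcases le_total b S with h2 | h2
    · have : β = b := min_eq_left h2
      rw [this, intervalIntegral.integral_same]
    · have : β = S := min_eq_right h2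
      rw [this]
      apply intervalIntegral.integral_nonneg h2
      intro s hs
      apply side_integrand hp0 hh
      apply hout
      exact hs.1.trans (le_abs_self s)
  have e4 : (∫ s in α..β, (hub p (h ^ 2 * (1 + s ^ 2)) - p * h))
      = ∫ s in α..β, (h ^ 2 * (1 + s ^ 2) - p * h) := by
    apply intervalIntegral.integral_congr
    intro s hs
    rw [uIcc_of_le hαβ.le] at hs
    have hs1 : |s| ≤ S := by
      rw [abs_le]
      exact ⟨(le_max_right _ _).trans hs.1, hs.2.trans (min_le_right _ _)⟩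
    simp only
    rw [hub_eq (hin s hs1)]
  have e5 : (∫ s in α..β, (h ^ 2 * (1 + s ^ 2) - p * h))
      = h ^ 2 * ((β - α) + (β ^ 3 - α ^ 3) / 3) - p * h * (β - α) := by
    have hd : ∀ s ∈ uIcc α β, HasDerivAt (fun s : ℝ => h ^ 2 * (s + s ^ 3 / 3) - p * h * s)
        (h ^ 2 * (1 + s ^ 2) - p * h) s := by
      intro s _
      have g1 : HasDerivAt (fun s : ℝ => s ^ 3 / 3) (s ^ 2) s := by
        have := (hasDerivAt_pow 3 s).div_const 3
        refine this.congr_deriv ?_
        push_cast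
        ring
      have g2 : HasDerivAt (fun s : ℝ => h ^ 2 * (s + s ^ 3 / 3)) (h ^ 2 * (1 + s ^ 2)) s :=
        ((hasDerivAt_id' s).add g1).const_mul _
      have g3 : HasDerivAt (fun s : ℝ => p * h * s) (p * h) s := by
        simpa using (hasDerivAt_id' s).const_mul (p * h)
      exact g2.sub g3
    rw [intervalIntegral.integral_eq_sub_of_hasDerivAt hd
      ((by fun_prop : Continuous fun s : ℝ => h ^ 2 * (1 + s ^ 2) - p * h).intervalIntegrable _ _)]
    ring
  -- the side inequality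
  have hLS := D_H h0 h1 (h := h) (ka := (α + β) / 2) (la := (β - α) / (2 * tau)) hh
    (div_pos (by linarith) (by linarith))
  have ho : omS tau ((α + β) / 2) ((β - α) / (2 * tau)) = Real.arctan β - Real.arctan α := by
    unfold omS
    have k1 : (β - α) / (2 * tau) * tau + (α + β) / 2 = β := by field_simp; ring
    have k2 : (β - α) / (2 * tau) * tau - (α + β) / 2 = -α := by field_simp; ring
    rw [k1, k2, Real.arctan_neg]
    ring
  have hL : LS tau h ((α + β) / 2) ((β - α) / (2 * tau)) =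
      h / (2 * tau) * (h ^ 2 * ((β - α) + (β ^ 3 - α ^ 3) / 3) - p * h * (β - α))
        + qS tau * (Real.arctan β - Real.arctan α) + rS tau := by
    unfold LS
    rw [ho, hp]
    field_simp
    ring
  rw [hL] at hLS
  have hm1 : Real.arctan a ≤ Real.arctan α := Real.arctan_strictMono.monotone haα
  have hm2 : Real.arctan β ≤ Real.arctan b := Real.arctan_strictMono.monotone hβb
  have hm3 : qS tau * (Real.arctan β - Real.arctan α) ≤
      qS tau * (Real.arctan b - Real.arctan a) :=
    mul_le_mul_of_nonneg_left (by linarith) hq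
  have hm4 : h / (2 * tau) * (h ^ 2 * ((β - α) + (β ^ 3 - α ^ 3) / 3) - p * h * (β - α)) ≤
      h / (2 * tau) * (∫ s in a..b, (hub p (h ^ 2 * (1 + s ^ 2)) - p * h)) := by
    apply mul_le_mul_of_nonneg_left _ hht
    rw [e1, e4, e5]
    linarith
  linarith

theorem side_geom {tau : ℝ} (h0 : 0 < tau) (h1 : tau ≤ 1) {t : ℝ} (ht : 0 < t) {v w : ℂ}
    (h : 0 < cr v w) :
    0 ≤ t ^ 3 / (2 * tau) * (segInt v w (phi (3 * (1 + tau ^ 2 / 3) / 2 / t))
        - 3 * (1 + tau ^ 2 / 3) / 2 / t * cr v w)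
      + qS tau * omS tau (sK v w) (sL tau v w) + rS tau := by
  set p : ℝ := 3 * (1 + tau ^ 2 / 3) / 2 with hp
  have hp0 : 0 < p := by rw [hp]; positivity
  set c : ℝ := cr v w with hc
  set d : ℝ := ‖w - v‖ with hd
  have hvw : w - v ≠ 0 := by
    intro h2
    have : w = v := sub_eq_zero.1 h2
    rw [hc, this] at h
    unfold cr at h
    linarith [mul_comm v.re v.im]
  have hd0 : 0 < d := norm_pos_iff.2 hvw
  set k : ℝ := sK v w with hk
  set l : ℝ := sL tau v w with hl
  have hd2 : d ^ 2 = (w.re - v.re) ^ 2 + (w.im - v.im) ^ 2 := by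
    rw [hd, Complex.sq_norm, Complex.normSq_apply]
    simp only [Complex.sub_re, Complex.sub_im]
    ring
  have hv2 : ‖v‖ ^ 2 = v.re ^ 2 + v.im ^ 2 := by
    rw [Complex.sq_norm, Complex.normSq_apply]; ring
  have hw2 : ‖w‖ ^ 2 = w.re ^ 2 + w.im ^ 2 := by
    rw [Complex.sq_norm, Complex.normSq_apply]; ring
  have ha : k - l * tau = (v.re * (w.re - v.re) + v.im * (w.im - v.im)) / c := by
    rw [hk, hl]
    unfold sK sL
    rw [← hc, ← hd, hd2, hv2, hw2]
    field_simp
    ring
  have hb : k + l * tau = (w.re * (w.re - v.re) + w.im * (w.im - v.im)) / c := by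
    rw [hk, hl]
    unfold sK sL
    rw [← hc, ← hd, hd2, hv2, hw2]
    field_simp
    ring
  have hba : (k + l * tau) - (k - l * tau) = d ^ 2 / c := by
    rw [ha, hb, hd2]
    field_simp
    ring
  have hlt : k - l * tau < k + l * tau := by
    have : 0 < d ^ 2 / c := by positivity
    linarith
  set a : ℝ := k - l * tau with ha'
  set b : ℝ := k + l * tau with hb'
  have hs := side_scalar h0 h1 (h := t * (c / d)) (a := a) (b := b) (by positivity) hlt
  rw [← hp] at hs
  have ho : omS tau k l = Real.arctan b - Real.arctan a := by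
    unfold omS
    have k1 : l * tau + k = b := by rw [hb']; ring
    have k2 : l * tau - k = -a := by rw [ha']; ring
    rw [k1, k2, Real.arctan_neg]
    ring
  -- the norm along the segment
  have hnorm : ∀ s : ℝ, ‖v + (s : ℂ) * (w - v)‖ ^ 2 =
      (c / d) ^ 2 * (1 + (a + s * (b - a)) ^ 2) := by
    intro s
    have e1 : a + s * (b - a) =
        ((v.re + s * (w.re - v.re)) * (w.re - v.re) + (v.im + s * (w.im - v.im)) * (w.im - v.im))
          / c := by
      rw [hba, ha, hd2]
      field_simp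
      ring
    have e2 : ‖v + (s : ℂ) * (w - v)‖ ^ 2 =
        (v.re + s * (w.re - v.re)) ^ 2 + (v.im + s * (w.im - v.im)) ^ 2 := by
      rw [Complex.sq_norm, Complex.normSq_apply]
      simp
      ring
    rw [e1, e2, div_pow, hd2]
    have h3 : 0 < (w.re - v.re) ^ 2 + (w.im - v.im) ^ 2 := by rw [← hd2]; positivity
    have h4 : c = v.re * w.im - v.im * w.re := hc
    have h5 : c ^ 2 * (1 + (((v.re + s * (w.re - v.re)) * (w.re - v.re)
        + (v.im + s * (w.im - v.im)) * (w.im - v.im)) / c) ^ 2) =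
        c ^ 2 + ((v.re + s * (w.re - v.re)) * (w.re - v.re)
          + (v.im + s * (w.im - v.im)) * (w.im - v.im)) ^ 2 := by
      field_simp
    rw [div_mul_eq_mul_div, h5, eq_div_iff h3.ne', h4]
    ring
  have hseg : segInt v w (phi (p / t)) =
      (c / d) / t ^ 2 * ∫ x in a..b, hub p ((t * (c / d)) ^ 2 * (1 + x ^ 2)) := by
    unfold segInt
    have g1 : ∀ s : ℝ, phi (p / t) (v + (s : ℂ) * (w - v)) =
        (t ^ 2)⁻¹ * hub p ((t * (c / d)) ^ 2 * (1 + (a + (b - a) * s) ^ 2)) := by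
      intro s
      unfold phi
      rw [hnorm s, show (t * (c / d)) ^ 2 * (1 + (a + (b - a) * s) ^ 2)
        = t ^ 2 * ((c / d) ^ 2 * (1 + (a + s * (b - a)) ^ 2)) by ring,
        hub_scale hp0 ht (by positivity)]
      field_simp
    simp only [g1]
    rw [intervalIntegral.integral_const_mul]
    have g2 := intervalIntegral.mul_integral_comp_add_mul (a := (0 : ℝ)) (b := 1)
      (f := fun x : ℝ => hub p ((t * (c / d)) ^ 2 * (1 + x ^ 2))) (b - a) a
    rw [mul_zero, add_zero, mul_one, show a + (b - a) = b by ring] at g2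
    rw [← g2, hba, dist_eq_norm, norm_sub_rev, ← hd]
    field_simp
  have hcc : Continuous fun x : ℝ => hub p ((t * (c / d)) ^ 2 * (1 + x ^ 2)) :=
    (continuous_hub hp0).comp (by fun_prop)
  rw [intervalIntegral.integral_sub (hcc.intervalIntegrable _ _)
    (continuous_const.intervalIntegrable _ _), intervalIntegral.integral_const, smul_eq_mul,
    hba] at hs
  rw [ho, hseg]
  refine hs.trans (le_of_eq ?_)
  congr 2
  generalize (∫ x in a..b, hub p ((t * (c / d)) ^ 2 * (1 + x ^ 2))) = I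
  field_simp

end Pool.Agent.NGN.A
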