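import Pool.Agent.NGN.A.Defs

/-!
# NGN, part A: the area of a sector of the unit disc

PLAN.
* `sector_vol`: polar coordinates (`Complex.polarCoord`, `integral_comp_polarCoord_symm`, or
  `lintegral`): for `z = r exp (i θ)`, `θ ∈ (-π, π)`: `0 < z.re` iff `|θ| < π / 2`, and then `a z.re < z.im` iff
  `arctan a < θ` (`tan θ = sin θ / cos θ`).  The integral is `∫ r in 0..1, r` times `arctan b - arctan a`.
* `cone_vol`: multiply by the unit number `w₀` which maps the outer normal `ν` of the side `v w` to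
  `1`: `w₀ v = h (1 + i (κ - λ τ))`, `w₀ u = h (1 + i (κ + λ τ))` with `h = sH v u`, `κ = sK v u`,
  `λ = sL tau v u` (`w₀ = conj (-i (u - v)) / ‖u - v‖`); rotations preserve `volume`, the ball and `cr`, so the
  cone becomes the set of `sector_vol` with `a = κ - λ τ`, `b = κ + λ τ`; `arctan` is odd.
-/

set_option autoImplicit false

noncomputable section

namespace Pool.Agent.NGN.A

open MeasureTheory Pool.Agent.Stk Set

private theorem Sector_meas (a b : ℝ) :
    MeasurableSet {z : ℂ | 0 < z.re ∧ a * z.re < z.im ∧ z.im < b * z.re ∧ ‖z‖ < 1} := by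
  have h1 : IsOpen {z : ℂ | 0 < z.re} := isOpen_lt continuous_const Complex.continuous_re
  have h2 : IsOpen {z : ℂ | a * z.re < z.im} :=
    isOpen_lt (continuous_const.mul Complex.continuous_re) Complex.continuous_im
  have h3 : IsOpen {z : ℂ | z.im < b * z.re} :=
    isOpen_lt Complex.continuous_im (continuous_const.mul Complex.continuous_re)
  have h4 : IsOpen {z : ℂ | ‖z‖ < 1} := isOpen_lt continuous_norm continuous_const
  exact (h1.inter (h2.inter (h3.inter h4))).measurableSet

private theorem Sector_polar {a b : ℝ} {p : ℝ × ℝ} (hp : p ∈ polarCoord.target) :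
    (Complex.polarCoord.symm p ∈ {z : ℂ | 0 < z.re ∧ a * z.re < z.im ∧ z.im < b * z.re ∧ ‖z‖ < 1}) ↔
      p ∈ Ioo (0 : ℝ) 1 ×ˢ Ioo (Real.arctan a) (Real.arctan b) := by
  obtain ⟨hr, hθ⟩ := hp
  rw [mem_Ioi] at hr
  have hre : (Complex.polarCoord.symm p).re = p.1 * Real.cos p.2 := by
    rw [Complex.polarCoord_symm_apply, Complex.re_ofReal_mul, Complex.add_re, Complex.ofReal_re,
      Complex.re_ofReal_mul, Complex.I_re, mul_zero, add_zero]
  have him : (Complex.polarCoord.symm p).im = p.1 * Real.sin p.2 := by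
    rw [Complex.polarCoord_symm_apply, Complex.im_ofReal_mul, Complex.add_im, Complex.ofReal_im,
      Complex.im_ofReal_mul, Complex.I_im, mul_one, zero_add]
  have hn : ‖Complex.polarCoord.symm p‖ = p.1 := by
    rw [Complex.norm_polarCoord_symm, abs_of_pos hr]
  rw [mem_setOf_eq, hre, him, hn]
  have key : Real.cos p.2 > 0 → -(Real.pi / 2) < p.2 → p.2 < Real.pi / 2 →
      ((a * (p.1 * Real.cos p.2) < p.1 * Real.sin p.2 ↔ Real.arctan a < p.2) ∧
      (p.1 * Real.sin p.2 < b * (p.1 * Real.cos p.2) ↔ p.2 < Real.arctan b)) := by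
    intro hc h1 h2
    have ht : Real.arctan (Real.tan p.2) = p.2 := Real.arctan_tan h1 h2
    constructor
    · conv_rhs => rw [← ht]
      rw [Real.arctan_strictMono.lt_iff_lt, Real.tan_eq_sin_div_cos, lt_div_iff₀ hc]
      constructor
      · intro h
        have : p.1 * (a * Real.cos p.2) < p.1 * Real.sin p.2 := by linarith
        exact lt_of_mul_lt_mul_left this hr.le
      · intro h
        have := mul_lt_mul_of_pos_left h hr
        linarith
    · conv_rhs => rw [← ht]
      rw [Real.arctan_strictMono.lt_iff_lt, Real.tan_eq_sin_div_cos, div_lt_iff₀ hc]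
      constructor
      · intro h
        have : p.1 * Real.sin p.2 < p.1 * (b * Real.cos p.2) := by linarith
        exact lt_of_mul_lt_mul_left this hr.le
      · intro h
        have := mul_lt_mul_of_pos_left h hr
        linarith
  constructor
  · rintro ⟨h1, h2, h3, h4⟩
    have hc : 0 < Real.cos p.2 := by
      by_contra hneg
      push Not at hneg
      have := mul_nonpos_of_nonneg_of_nonpos hr.le hneg
      linarith
    have hlt : p.2 < Real.pi / 2 := by
      by_contra hneg
      push Not at hneg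
      have := Real.cos_nonpos_of_pi_div_two_le_of_le hneg (by linarith [hθ.2, Real.pi_pos])
      linarith
    have hgt : -(Real.pi / 2) < p.2 := by
      by_contra hneg
      push Not at hneg
      have := Real.cos_nonpos_of_pi_div_two_le_of_le (x := -p.2) (by linarith)
        (by linarith [hθ.1, Real.pi_pos])
      rw [Real.cos_neg] at this
      linarith
    exact ⟨⟨hr, h4⟩, ((key hc hgt hlt).1.1 h2), ((key hc hgt hlt).2.1 h3)⟩
  · rintro ⟨⟨_, h4⟩, h2, h3⟩
    have hgt : -(Real.pi / 2) < p.2 := (Real.neg_pi_div_two_lt_arctan a).trans h2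
    have hlt : p.2 < Real.pi / 2 := lt_trans h3 (Real.arctan_lt_pi_div_two b)
    have hc : 0 < Real.cos p.2 := Real.cos_pos_of_mem_Ioo ⟨hgt, hlt⟩
    exact ⟨mul_pos hr hc, (key hc hgt hlt).1.2 h2, (key hc hgt hlt).2.2 h3, h4⟩

private theorem Sector_r : ∫ r in Ioo (0 : ℝ) 1, r = 1 / 2 := by
  rw [← integral_Ioc_eq_integral_Ioo, ← intervalIntegral.integral_of_le zero_le_one, integral_id]
  norm_num

theorem sector_vol {a b : ℝ} (hab : a < b) :
    volume.real {z : ℂ | 0 < z.re ∧ a * z.re < z.im ∧ z.im < b * z.re ∧ ‖z‖ < 1} =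
      (Real.arctan b - Real.arctan a) / 2 := by
  have hS := Sector_meas a b
  have e1 : volume.real {z : ℂ | 0 < z.re ∧ a * z.re < z.im ∧ z.im < b * z.re ∧ ‖z‖ < 1} =
      ∫ z, {z : ℂ | 0 < z.re ∧ a * z.re < z.im ∧ z.im < b * z.re ∧ ‖z‖ < 1}.indicator
        (fun _ => (1 : ℝ)) z := by
    rw [integral_indicator_const _ hS]
    simp
  rw [e1, ← Complex.integral_comp_polarCoord_symm]
  have e2 : ∫ p in polarCoord.target,
      p.1 • {z : ℂ | 0 < z.re ∧ a * z.re < z.im ∧ z.im < b * z.re ∧ ‖z‖ < 1}.indicator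
        (fun _ => (1 : ℝ)) (Complex.polarCoord.symm p) =
      ∫ p in polarCoord.target, (Ioo (0 : ℝ) 1 ×ˢ Ioo (Real.arctan a) (Real.arctan b)).indicator
        (fun p : ℝ × ℝ => p.1 * (fun _ => (1 : ℝ)) p.2) p := by
    refine setIntegral_congr_fun polarCoord.open_target.measurableSet fun p hp => ?_
    by_cases h : p ∈ Ioo (0 : ℝ) 1 ×ˢ Ioo (Real.arctan a) (Real.arctan b)
    · have h' := (Sector_polar (a := a) (b := b) hp).2 h
      simp only [indicator_of_mem h, indicator_of_mem h', smul_eq_mul]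
    · have h' := fun hh => h ((Sector_polar (a := a) (b := b) hp).1 hh)
      simp only [indicator_of_notMem h, indicator_of_notMem h', smul_zero]
  have e3 : polarCoord.target ∩ (Ioo (0 : ℝ) 1 ×ˢ Ioo (Real.arctan a) (Real.arctan b)) =
      Ioo (0 : ℝ) 1 ×ˢ Ioo (Real.arctan a) (Real.arctan b) := by
    refine inter_eq_right.2 ?_
    rintro ⟨r, θ⟩ ⟨h1, h2⟩
    refine ⟨h1.1, ?_, ?_⟩
    · have := Real.neg_pi_div_two_lt_arctan a
      have h3 : Real.arctan a < θ := h2.1
      show -Real.pi < θ
      linarith [Real.pi_pos]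
    · have := Real.arctan_lt_pi_div_two b
      have h3 : θ < Real.arctan b := h2.2
      show θ < Real.pi
      linarith [Real.pi_pos]
  rw [e2, setIntegral_indicator (measurableSet_Ioo.prod measurableSet_Ioo), e3,
    Measure.volume_eq_prod, setIntegral_prod_mul (fun r : ℝ => r) (fun _ => (1 : ℝ)), Sector_r]
  rw [setIntegral_const, Real.volume_real_Ioo_of_le (Real.arctan_strictMono hab).le]
  simp only [smul_eq_mul]
  ring

private theorem Sector_rot {v w z c : ℂ} (hc : ‖c‖ = 1) : cr (c * v) (c * z) = cr v z := by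
  have h1 : c.re * c.re + c.im * c.im = 1 := by
    have h2 := Complex.normSq_apply c
    rw [Complex.normSq_eq_norm_sq, hc] at h2
    linarith
  simp only [cr, Complex.mul_re, Complex.mul_im]
  linear_combination (v.re * z.im - v.im * z.re) * h1

theorem cone_vol {tau : ℝ} (ht : 0 < tau) {v w : ℂ} (h : 0 < cr v w) :
    volume.real (OCn v w ∩ Metric.ball 0 1) = omS tau (sK v w) (sL tau v w) / 2 := by
  set C : ℝ := cr v w with hC
  set d : ℂ := w - v with hd
  have hd0 : d ≠ 0 := by
    intro h0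
    have h1 : w = v := sub_eq_zero.1 h0
    rw [hC, h1] at h
    simp [cr] at h
    linarith
  have hD : 0 < ‖d‖ := norm_pos_iff.2 hd0
  set c : ℂ := Complex.I * (starRingEnd ℂ) d / (‖d‖ : ℂ) with hc
  have hcn : ‖c‖ = 1 := by
    rw [hc, norm_div, norm_mul, Complex.norm_I, one_mul, RCLike.norm_conj, Complex.norm_real, norm_norm,
      div_self hD.ne']
  have hDsq : ‖d‖ ^ 2 = d.re * d.re + d.im * d.im := by
    rw [← Complex.normSq_eq_norm_sq, Complex.normSq_apply]
  have hvsq : ‖v‖ ^ 2 = v.re * v.re + v.im * v.im := by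
    rw [← Complex.normSq_eq_norm_sq, Complex.normSq_apply]
  have hwsq : ‖w‖ ^ 2 = w.re * w.re + w.im * w.im := by
    rw [← Complex.normSq_eq_norm_sq, Complex.normSq_apply]
  have hdre : d.re = w.re - v.re := by rw [hd, Complex.sub_re]
  have hdim : d.im = w.im - v.im := by rw [hd, Complex.sub_im]
  have hCe : C = v.re * w.im - v.im * w.re := rfl
  have hcre : c.re = d.im / ‖d‖ := by
    rw [hc, Complex.div_ofReal_re]
    simp
  have hcim : c.im = d.re / ‖d‖ := by
    rw [hc, Complex.div_ofReal_im]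
    simp
  set a : ℝ := sK v w - sL tau v w * tau with ha
  set b : ℝ := sK v w + sL tau v w * tau with hb
  have hae : a = (‖w‖ ^ 2 - ‖v‖ ^ 2 - ‖d‖ ^ 2) / (2 * C) := by
    rw [ha]
    unfold sK sL
    rw [← hC, ← hd]
    field_simp
  have hbe : b = (‖w‖ ^ 2 - ‖v‖ ^ 2 + ‖d‖ ^ 2) / (2 * C) := by
    rw [hb]
    unfold sK sL
    rw [← hC, ← hd]
    field_simp
  have hab : a < b := by
    rw [hae, hbe]
    refine div_lt_div_of_pos_right ?_ (by linarith)
    have := pow_pos hD 2
    linarith
  have hv : c * v = ⟨C / ‖d‖, C / ‖d‖ * a⟩ := by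
    apply Complex.ext
    · rw [Complex.mul_re, hcre, hcim, hdre, hdim, hCe]
      field_simp
      ring
    · rw [Complex.mul_im, hcre, hcim, hae, hwsq, hvsq, hDsq, hdre, hdim]
      show _ = C / ‖d‖ * _
      field_simp
      ring
  have hw : c * w = ⟨C / ‖d‖, C / ‖d‖ * b⟩ := by
    apply Complex.ext
    · rw [Complex.mul_re, hcre, hcim, hdre, hdim, hCe]
      field_simp
      ring
    · rw [Complex.mul_im, hcre, hcim, hbe, hwsq, hvsq, hDsq, hdre, hdim]
      show _ = C / ‖d‖ * _
      field_simp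
      ring
  have hCD : 0 < C / ‖d‖ := div_pos h hD
  have hset : OCn v w ∩ Metric.ball 0 1 = (fun z => c * z) ⁻¹'
      {z : ℂ | 0 < z.re ∧ a * z.re < z.im ∧ z.im < b * z.re ∧ ‖z‖ < 1} := by
    ext z
    have h1 : cr v z = C / ‖d‖ * ((c * z).im - a * (c * z).re) := by
      rw [← Sector_rot (v := v) (w := w) (z := z) hcn, hv]
      simp only [cr]
      ring
    have h2 : cr z w = C / ‖d‖ * (b * (c * z).re - (c * z).im) := by
      rw [← Sector_rot (v := z) (w := w) (z := w) hcn, hw]
      simp only [cr]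
      ring
    have h3 : ‖c * z‖ = ‖z‖ := by rw [norm_mul, hcn, one_mul]
    simp only [OCn, mem_inter_iff, mem_setOf_eq, mem_ball_zero_iff, mem_preimage, h3, h1, h2,
      mul_pos_iff_of_pos_left hCD, sub_pos]
    constructor
    · rintro ⟨⟨h4, h5⟩, h6⟩
      refine ⟨?_, h4, h5, h6⟩
      have h7 : 0 < (b - a) * (c * z).re := by linarith
      exact (mul_pos_iff_of_pos_left (by linarith)).1 h7
    · rintro ⟨_, h4, h5, h6⟩
      exact ⟨⟨h4, h5⟩, h6⟩
  have hmp : MeasurePreserving (fun z : ℂ => c * z) volume volume := by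
    have hcirc : c ∈ Submonoid.unitSphere ℂ := by
      rw [Submonoid.unitSphere]
      exact mem_sphere_zero_iff_norm.2 hcn
    exact (rotation ⟨c, hcirc⟩).measurePreserving
  have hvol : volume.real ((fun z : ℂ => c * z) ⁻¹'
      {z : ℂ | 0 < z.re ∧ a * z.re < z.im ∧ z.im < b * z.re ∧ ‖z‖ < 1}) =
      volume.real {z : ℂ | 0 < z.re ∧ a * z.re < z.im ∧ z.im < b * z.re ∧ ‖z‖ < 1} := by
    unfold Measure.real
    rw [hmp.measure_preimage (Sector_meas a b).nullMeasurableSet]
  rw [hset, hvol, sector_vol hab]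
  unfold omS
  have h8 : sL tau v w * tau - sK v w = -a := by rw [ha]; ring
  have h9 : sL tau v w * tau + sK v w = b := by rw [hb]; ring
  rw [h8, h9, Real.arctan_neg]
  ring

end Pool.Agent.NGN.A
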