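import Pool.Agent.NGN.A.HE
import Pool.Agent.NGN.A.Sector

/-!
# NGN, part A: the sum of the angles

PLAN.
* `HE_disj`: let `x` be in both open cones `OCn (P i) (P j)`, `OCn (P i') (P j')`.
  `g_e x := (cr (P i) x + cr x (P j)) / cr (P i) (P j)` is linear, `= 1` on the line of `e`, `≤ 1` on `KH P`
  (`HE_left`, `side_fun`).  `x / g_e' x` is in the open segment of `e'` (`cr_decomp'`), so in `KH P`: hence
  `g_e x ≤ g_e' x`, by symmetry `=`, so `x / g_e x` is in both open segments: `HE_uniq`.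
* `HE_angle`: the sets `OCn ∩ ball 0 1` are pairwise disjoint, measurable (open) and inside the unit
  disc: `∑ omS / 2 ≤ π` (`Complex.volume_ball`, `measure_biUnion_finset`), `cone_vol`.
* `A_angle`: for `Cvx P`: `Cvx.disj`, `Cvx.cover` (Fan.lean); the closed cone minus the open cone is
  contained in two lines (null sets), so the volume of the union is `π`.
-/

set_option autoImplicit false

noncomputable section

namespace Pool.Agent.NGN

open MeasureTheory Pool.Agent.Stk Set

namespace A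

variable {n : ℕ} [NeZero n] {P : ZMod n → ℂ}

private theorem Sum_seg {a b x : ℂ} (hx : x ∈ OCn a b) :
    ((cr a b / (cr a x + cr x b) : ℝ) : ℂ) * x ∈ openSegment ℝ a b := by
  have h1 : 0 < cr a x := hx.1
  have h2 : 0 < cr x b := hx.2
  refine ⟨cr x b / (cr a x + cr x b), cr a x / (cr a x + cr x b), by positivity, by positivity, ?_, ?_⟩
  · field_simp
    ring
  · rw [Complex.real_smul, Complex.real_smul]
    have h3 := cr_decomp a b x
    have h4 : ((cr a x + cr x b : ℝ) : ℂ) ≠ 0 := by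
      exact_mod_cast (add_pos h1 h2).ne'
    push_cast at h4 ⊢
    field_simp
    linear_combination -h3

private theorem Sum_ball : volume.real (Metric.ball (0 : ℂ) 1) = Real.pi := by
  rw [Measure.real, Complex.volume_ball]
  simp

private theorem Sum_null {a b : ℂ} (h : 0 < cr a b) : volume {z : ℂ | ∃ t : ℝ, z = (t : ℂ) * a} = 0 := by
  have h1 : (Submodule.span ℝ {a} : Submodule ℝ ℂ) ≠ ⊤ := by
    intro ht
    have h2 : b ∈ (Submodule.span ℝ {a} : Submodule ℝ ℂ) := by rw [ht]; trivial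
    obtain ⟨t, rfl⟩ := Submodule.mem_span_singleton.1 h2
    rw [Complex.real_smul, cr_smul_right, cr_self, mul_zero] at h
    exact lt_irrefl _ h
  have h3 := Measure.addHaar_submodule (volume : Measure ℂ) _ h1
  refine measure_mono_null ?_ h3
  rintro z ⟨t, rfl⟩
  refine Submodule.mem_span_singleton.2 ⟨t, ?_⟩
  rw [Complex.real_smul]

private theorem Sum_le {e e' : ZMod n × ZMod n} (h0 : (0 : ℂ) ∈ interior (KH P)) (he : e ∈ HE P) (he' : e' ∈ HE P)
    {x : ℂ} (hx' : x ∈ OCn (P e'.1) (P e'.2)) :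
    cr (P e'.1) (P e'.2) * (cr (P e.1) x + cr x (P e.2)) ≤
      cr (P e.1) (P e.2) * (cr (P e'.1) x + cr x (P e'.2)) := by
  have hp' := HE_pos h0 he'
  have h1 := Sum_seg hx'
  have h2 : ((cr (P e'.1) (P e'.2) / (cr (P e'.1) x + cr x (P e'.2)) : ℝ) : ℂ) * x ∈ KH P := by
    have h3 : segment ℝ (P e'.1) (P e'.2) ⊆ KH P :=
      (convex_convexHull ℝ _).segment_subset (subset_convexHull ℝ _ (mem_range_self _))
        (subset_convexHull ℝ _ (mem_range_self _))
    exact h3 (openSegment_subset_segment ℝ _ _ h1)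
  have h4 := HE_left he h2
  rw [side_fun, cr_smul_right, cr_smul_left] at h4
  have h5 : 0 < cr (P e'.1) x + cr x (P e'.2) := add_pos hx'.1 hx'.2
  have h6 : cr (P e'.1) (P e'.2) / (cr (P e'.1) x + cr x (P e'.2)) * (cr (P e'.1) x + cr x (P e'.2)) =
      cr (P e'.1) (P e'.2) := by field_simp
  have h7 := mul_le_mul_of_nonneg_right h4 h5.le
  have h8 : (cr (P e.1) (P e.2) - cr (P e'.1) (P e'.2) / (cr (P e'.1) x + cr x (P e'.2)) * cr (P e.1) x -
      cr (P e'.1) (P e'.2) / (cr (P e'.1) x + cr x (P e'.2)) * cr x (P e.2)) * (cr (P e'.1) x + cr x (P e'.2)) =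
      cr (P e.1) (P e.2) * (cr (P e'.1) x + cr x (P e'.2)) -
        cr (P e'.1) (P e'.2) * (cr (P e.1) x + cr x (P e.2)) := by
    linear_combination (-(cr (P e.1) x + cr x (P e.2))) * h6
  rw [h8, zero_mul] at h7
  linarith

theorem HE_disj (hinj : Function.Injective P) (h0 : (0 : ℂ) ∈ interior (KH P))
    {e e' : ZMod n × ZMod n} (he : e ∈ HE P) (he' : e' ∈ HE P) (hne : e ≠ e') :
    Disjoint (OCn (P e.1) (P e.2)) (OCn (P e'.1) (P e'.2)) := by
  rw [Set.disjoint_left]
  intro x hx hx'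
  have hp := HE_pos h0 he
  have hp' := HE_pos h0 he'
  have h1 := Sum_le h0 he he' hx'
  have h2 := Sum_le h0 he' he hx
  have h3 := le_antisymm h1 h2
  have h5 : 0 < cr (P e.1) x + cr x (P e.2) := add_pos hx.1 hx.2
  have h5' : 0 < cr (P e'.1) x + cr x (P e'.2) := add_pos hx'.1 hx'.2
  have h6 : cr (P e.1) (P e.2) / (cr (P e.1) x + cr x (P e.2)) =
      cr (P e'.1) (P e'.2) / (cr (P e'.1) x + cr x (P e'.2)) := by
    rw [div_eq_div_iff h5.ne' h5'.ne']
    exact h3.symm
  have h7 := Sum_seg hx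
  have h8 := Sum_seg hx'
  rw [← h6] at h8
  exact hne (HE_uniq hinj ⟨0, h0⟩ he he' h7 h8)

theorem HE_angle (hinj : Function.Injective P) (h0 : (0 : ℂ) ∈ interior (KH P)) {tau : ℝ}
    (ht : 0 < tau) :
    ∑ e ∈ HE P, omS tau (sK (P e.1) (P e.2)) (sL tau (P e.1) (P e.2)) ≤ 2 * Real.pi := by
  have h1 : ∀ e ∈ HE P, omS tau (sK (P e.1) (P e.2)) (sL tau (P e.1) (P e.2)) =
      2 * volume.real (OCn (P e.1) (P e.2) ∩ Metric.ball 0 1) := by
    intro e he
    rw [cone_vol ht (HE_pos h0 he)]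
    ring
  rw [Finset.sum_congr rfl h1, ← Finset.mul_sum]
  have hd : Set.PairwiseDisjoint (↑(HE P) : Set (ZMod n × ZMod n))
      (fun e => OCn (P e.1) (P e.2) ∩ Metric.ball 0 1) := by
    intro e he e' he' hne
    exact (HE_disj hinj h0 he he' hne).mono inter_subset_left inter_subset_left
  have h2 := measureReal_biUnion_finset (μ := (volume : Measure ℂ)) hd
    (fun e _ => ((isOpen_OCn _ _).inter Metric.isOpen_ball).measurableSet)
    (fun e _ => (measure_mono inter_subset_right).trans_lt measure_ball_lt_top |>.ne)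
  rw [← h2]
  have h3 : volume.real (⋃ e ∈ HE P, OCn (P e.1) (P e.2) ∩ Metric.ball 0 1) ≤ volume.real (Metric.ball (0 : ℂ) 1) := by
    refine measureReal_mono ?_ measure_ball_lt_top.ne
    exact iUnion₂_subset fun e _ => inter_subset_right
  rw [Sum_ball] at h3
  linarith

end A

/-- The angles of the sides sum up to `2 π`. -/
theorem A_angle {n : ℕ} [NeZero n] (hn : 3 ≤ n) {P : ZMod n → ℂ} (h : Cvx P) {tau : ℝ}
    (ht : 0 < tau) :
    ∑ i, omS tau (sK (P i) (P (i + 1))) (sL tau (P i) (P (i + 1))) = 2 * Real.pi := by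
  have h1 : ∀ i, omS tau (sK (P i) (P (i + 1))) (sL tau (P i) (P (i + 1))) =
      2 * volume.real (OCn (P i) (P (i + 1)) ∩ Metric.ball 0 1) := by
    intro i
    rw [A.cone_vol ht (h.pos i)]
    ring
  rw [Finset.sum_congr rfl fun i _ => h1 i, ← Finset.mul_sum]
  have hd : Set.PairwiseDisjoint (↑(Finset.univ : Finset (ZMod n)) : Set (ZMod n))
      (fun i => OCn (P i) (P (i + 1)) ∩ Metric.ball 0 1) := by
    intro i _ j _ hne
    exact (h.disj hn hne).mono inter_subset_left inter_subset_left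
  have h2 := measureReal_biUnion_finset (μ := (volume : Measure ℂ)) hd
    (fun e _ => ((isOpen_OCn _ _).inter Metric.isOpen_ball).measurableSet)
    (fun e _ => (measure_mono inter_subset_right).trans_lt measure_ball_lt_top |>.ne)
  rw [← h2, ← A.Sum_ball]
  congr 1
  refine congrArg ENNReal.toReal (le_antisymm ?_ ?_)
  · exact measure_mono (iUnion₂_subset fun e _ => inter_subset_right)
  · have h3 : volume (⋃ i, {z : ℂ | ∃ t : ℝ, z = (t : ℂ) * P i}) = 0 :=
      measure_iUnion_null fun i => A.Sum_null (h.pos i)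
    have h4 : Metric.ball (0 : ℂ) 1 ⊆ (⋃ i ∈ (Finset.univ : Finset (ZMod n)), OCn (P i) (P (i + 1)) ∩ Metric.ball 0 1) ∪
        ⋃ i, {z : ℂ | ∃ t : ℝ, z = (t : ℂ) * P i} := by
      intro z hz
      obtain ⟨i, hi⟩ := h.cover hn z
      rcases Cn_cases (h.pos i) hi with h5 | ⟨t, -, ht⟩ | ⟨t, -, ht⟩
      · left
        exact mem_iUnion₂.2 ⟨i, Finset.mem_univ i, h5, hz⟩
      · right
        exact mem_iUnion.2 ⟨i, t, ht⟩
      · right
        exact mem_iUnion.2 ⟨i + 1, t, ht⟩
    calc volume (Metric.ball (0 : ℂ) 1) ≤ _ := measure_mono h4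
      _ ≤ _ := measure_union_le _ _
      _ = _ := by rw [h3, add_zero]

end Pool.Agent.NGN
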