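import Pool.Agent.NGN.A.Crofton
import Pool.Agent.NGN.A.Cover
import Pool.Agent.NGN.A.Sum
import Pool.Agent.NGN.A.Side

/-!
# NGN, part A: the inequality for the linear functions if the hull has at most `m` edges
-/

set_option autoImplicit false

noncomputable section

namespace Pool.Agent.NGN.A

open MeasureTheory Pool.Agent.Stk Set

theorem segInt_mono {a b : ℂ} {f g : ℂ → ℝ} (hf : Continuous f) (hg : Continuous g)
    (h : ∀ z, f z ≤ g z) : segInt a b f ≤ segInt a b g := by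
  unfold segInt
  apply mul_le_mul_of_nonneg_left _ dist_nonneg
  apply intervalIntegral.integral_mono_on zero_le_one
  · exact (hf.comp (by fun_prop)).intervalIntegrable _ _
  · exact (hg.comp (by fun_prop)).intervalIntegrable _ _
  · intro t _
    exact h _

theorem tau_facts {m : ℕ} (hm : 4 ≤ m) :
    0 < tauN m ∧ tauN m ≤ 1 ∧ m * Real.arctan (tauN m) = Real.pi := by
  have hm' : (4 : ℝ) ≤ m := by exact_mod_cast hm
  have h1 : 0 < Real.pi / m := by positivity
  have h2 : Real.pi / m ≤ Real.pi / 4 :=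
    div_le_div_of_nonneg_left Real.pi_pos.le (by norm_num) hm'
  refine ⟨?_, ?_, ?_⟩
  · exact Real.tan_pos_of_pos_of_lt_pi_div_two h1 (by linarith [Real.pi_pos])
  · unfold tauN
    rw [← Real.tan_pi_div_four]
    apply Real.strictMonoOn_tan.monotoneOn
    · constructor <;> linarith [Real.pi_pos]
    · constructor <;> linarith [Real.pi_pos]
    · exact h2
  · unfold tauN
    rw [Real.arctan_tan (by linarith [Real.pi_pos]) (by linarith [Real.pi_pos])]
    field_simp

variable {n : ℕ} [NeZero n] {P : ZMod n → ℂ} {Ω : Set ℂ}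

/-- The inequality for all homothetic copies at once. -/
theorem nc_scaled (hinj : Function.Injective P) (h0 : (0 : ℂ) ∈ interior (KH P))
    (hO : IsOpen Ω) (hb : Bornology.IsBounded Ω)
    (hf : frontier Ω ⊆ ⋃ i, segment ℝ (P i) (P (i + 1))) {m : ℕ} (hm : 4 ≤ m)
    (hc : (HE P).card ≤ m) {t : ℝ} (ht : 0 < t) :
    0 ≤ t ^ 3 * bdN P (fun z => ‖z‖ ^ 2) - 3 * delN m * t ^ 2 * volume.real Ω
      + m * tauN m * delN m := by
  obtain ⟨hτ0, hτ1, harc⟩ := tau_facts hm
  set τ := tauN m with hτ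
  set q := qS τ with hq
  set r := rS τ with hr
  have hq0 : 0 ≤ q := qS_nonneg hτ0 hτ1
  have hr0 : 0 ≤ r := rS_nonneg hτ0 hτ1
  have hδ : delN m = 1 + τ ^ 2 / 3 := rfl
  set p0 := 3 * (1 + τ ^ 2 / 3) / 2 with hp0
  have hp0p : 0 < p0 := by positivity
  set p := p0 / t with hp
  have hpp : 0 < p := by positivity
  have h1 := crofton hinj ⟨0, h0⟩ hO hb hf hpp
  have h2 := vol_hull_le h0
  have h3 : bdN P (phi p) ≤ bdN P (fun z => ‖z‖ ^ 2) :=
    Finset.sum_le_sum fun i _ => segInt_mono (continuous_phi hpp) (by fun_prop)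
      fun z => phi_le hpp z
  have h4 := HE_angle hinj h0 hτ0
  have h5 : 0 ≤ ∑ e ∈ HE P, (t ^ 3 / (2 * τ) * (segInt (P e.1) (P e.2) (phi p)
      - p * cr (P e.1) (P e.2)) + q * omS τ (sK (P e.1) (P e.2)) (sL τ (P e.1) (P e.2)) + r) :=
    Finset.sum_nonneg fun e he => side_geom hτ0 hτ1 ht (HE_pos h0 he)
  rw [Finset.sum_add_distrib, Finset.sum_add_distrib, ← Finset.mul_sum, ← Finset.mul_sum,
    Finset.sum_sub_distrib, ← Finset.mul_sum, Finset.sum_const, nsmul_eq_mul] at h5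
  set SF := ∑ e ∈ HE P, segInt (P e.1) (P e.2) (phi p) with hSF
  set SC := ∑ e ∈ HE P, cr (P e.1) (P e.2) with hSC
  set SO := ∑ e ∈ HE P, omS τ (sK (P e.1) (P e.2)) (sL τ (P e.1) (P e.2)) with hSO
  have h2' : volume.real (KH P) ≤ SC / 2 := by rw [hSC, Finset.sum_div]; exact h2
  have hc' : ((HE P).card : ℝ) ≤ m := by exact_mod_cast hc
  have hrm : (m : ℝ) * r = m * ((1 + τ ^ 2 / 3) / 2) - 2 * q * Real.pi := by
    rw [hr]; unfold rS
    rw [← harc]; ring
  have h6 : q * SO ≤ q * (2 * Real.pi) := mul_le_mul_of_nonneg_left h4 hq0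
  have h7 : ((HE P).card : ℝ) * r ≤ m * r := mul_le_mul_of_nonneg_right hc' hr0
  have h8 : SF - p * SC ≤ bdN P (fun z => ‖z‖ ^ 2) - 2 * p * volume.real Ω := by
    have : p * (2 * volume.real (KH P)) ≤ p * SC :=
      mul_le_mul_of_nonneg_left (by linarith) hpp.le
    linarith
  have ht3 : 0 < t ^ 3 / (2 * τ) := by positivity
  have h9 := mul_le_mul_of_nonneg_left h8 ht3.le
  have h10 : 0 ≤ t ^ 3 / (2 * τ) * (bdN P (fun z => ‖z‖ ^ 2) - 2 * p * volume.real Ω)
      + m * ((1 + τ ^ 2 / 3) / 2) := by linarith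
  have h11 : t ^ 3 * bdN P (fun z => ‖z‖ ^ 2) - 3 * delN m * t ^ 2 * volume.real Ω
      + m * τ * delN m = 2 * τ * (t ^ 3 / (2 * τ) * (bdN P (fun z => ‖z‖ ^ 2)
        - 2 * p * volume.real Ω) + m * ((1 + τ ^ 2 / 3) / 2)) := by
    rw [hδ, hp, hp0]
    field_simp
  rw [h11]
  positivity

/-- The consequence for `volume.real Ω`. -/
theorem nc_main (hinj : Function.Injective P) (h0 : (0 : ℂ) ∈ interior (KH P))
    (hO : IsOpen Ω) (hb : Bornology.IsBounded Ω)
    (hf : frontier Ω ⊆ ⋃ i, segment ℝ (P i) (P (i + 1))) {m : ℕ} (hm : 4 ≤ m)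
    (hc : (HE P).card ≤ m) (hpos : 0 < volume.real Ω) :
    2 * delN m * volume.real Ω * Real.sqrt (volume.real Ω) ≤
      Real.sqrt (m * tauN m) * bdN P (fun z => ‖z‖ ^ 2) := by
  obtain ⟨hτ0, hτ1, harc⟩ := tau_facts hm
  have hm' : (4 : ℝ) ≤ m := by exact_mod_cast hm
  set A := volume.real Ω with hA
  set M := bdN P (fun z => ‖z‖ ^ 2) with hM
  set s := Real.sqrt A with hs
  set c := Real.sqrt (m * tauN m) with hcc
  have hmτ : 0 < m * tauN m := by positivity
  have hs0 : 0 < s := Real.sqrt_pos.2 hpos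
  have hc0 : 0 < c := Real.sqrt_pos.2 hmτ
  have hs2 : s ^ 2 = A := Real.sq_sqrt hpos.le
  have hc2 : c ^ 2 = m * tauN m := Real.sq_sqrt hmτ.le
  have h1 := nc_scaled hinj h0 hO hb hf hm hc (t := c / s) (by positivity)
  rw [← hA, ← hM] at h1
  have h2 : (c / s) ^ 3 * M - 3 * delN m * (c / s) ^ 2 * A + m * tauN m * delN m =
      c ^ 2 / s ^ 3 * (c * M - 2 * delN m * A * s) := by
    rw [← hc2, ← hs2]
    field_simp
    ring
  rw [h2] at h1
  have h3 : 0 ≤ c * M - 2 * delN m * A * s := by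
    by_contra hneg
    push Not at hneg
    have : c ^ 2 / s ^ 3 * (c * M - 2 * delN m * A * s) < 0 :=
      mul_neg_of_pos_of_neg (by positivity) hneg
    linarith
  linarith

end Pool.Agent.NGN.A
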