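import Pool.Agent.NGN.Defs
import Pool.Agent.NGN.D.Arc

/-!
# NGN, part A: `BB (n - 1) ≤ (1 - epsN n) BB n` for `n ≥ 5`

With `t = tan x`, `x = π / m`, `BB m ^ 2 = π t / (arctan t (1 + t² / 3)²)`; the function
`log t - log (arctan t) - 2 log (1 + t² / 3) + (arctan t)² / 3` decreases on `(0, 1]`.
-/

set_option autoImplicit false

noncomputable section

namespace Pool.Agent.NGN

namespace A

open Real Set

private theorem tau_pos {n : ℕ} (hn : 3 ≤ n) : 0 < tauN n := by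
  unfold tauN
  have hn' : (3 : ℝ) ≤ n := by exact_mod_cast hn
  apply tan_pos_of_pos_of_lt_pi_div_two (by positivity)
  rw [div_lt_div_iff₀ (by linarith) (by norm_num)]
  nlinarith [pi_pos]

private theorem arctan_tau {n : ℕ} (hn : 3 ≤ n) : n * arctan (tauN n) = π := by
  have hn' : (3 : ℝ) ≤ n := by exact_mod_cast hn
  unfold tauN
  rw [arctan_tan]
  · field_simp
  · have : 0 < π / n := by positivity
    linarith [pi_pos]
  · rw [div_lt_div_iff₀ (by linarith) (by norm_num)]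
    nlinarith [pi_pos]

private theorem tau_anti {m n : ℕ} (hm : 3 ≤ m) (hmn : m ≤ n) : tauN n ≤ tauN m := by
  unfold tauN
  have hm' : (3 : ℝ) ≤ m := by exact_mod_cast hm
  have hmn' : (m : ℝ) ≤ n := by exact_mod_cast hmn
  have h1 : 0 < π / n := by
    have : (0 : ℝ) < n := by linarith
    positivity
  have h2 : 0 < π / m := by
    have : (0 : ℝ) < m := by linarith
    positivity
  apply strictMonoOn_tan.monotoneOn
  · constructor
    · linarith [pi_pos]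
    · rw [div_lt_div_iff₀ (by linarith) (by norm_num)]
      nlinarith [pi_pos]
  · constructor
    · linarith [pi_pos]
    · rw [div_lt_div_iff₀ (by linarith) (by norm_num)]
      nlinarith [pi_pos]
  · exact div_le_div_of_nonneg_left pi_pos.le (by linarith) hmn'

private theorem tau_four : tauN 4 = 1 := by
  unfold tauN
  push_cast
  exact tan_pi_div_four

private theorem tau_five_sq : tauN 5 ^ 2 = 5 - 2 * √5 := by
  unfold tauN
  have h5 : √5 ^ 2 = 5 := sq_sqrt (by norm_num)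
  have h5' : 0 < √5 := sqrt_pos.2 (by norm_num)
  have hc : cos (π / (5 : ℕ)) = (1 + √5) / 4 := by
    push_cast
    exact cos_pi_div_five
  have hc0 : cos (π / (5 : ℕ)) ≠ 0 := by rw [hc]; positivity
  have h1 := one_add_tan_sq_mul_cos_sq_eq_one hc0
  rw [hc] at h1
  have h2 : (1 + tan (π / (5 : ℕ)) ^ 2) * (6 + 2 * √5) = 16 := by nlinarith
  have h3 : (1 + tan (π / (5 : ℕ)) ^ 2) * 16 = 16 * (6 - 2 * √5) := by
    have : (6 + 2 * √5) * (6 - 2 * √5) = 16 := by nlinarith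
    calc (1 + tan (π / (5 : ℕ)) ^ 2) * 16 =
        (1 + tan (π / (5 : ℕ)) ^ 2) * ((6 + 2 * √5) * (6 - 2 * √5)) := by rw [this]
      _ = ((1 + tan (π / (5 : ℕ)) ^ 2) * (6 + 2 * √5)) * (6 - 2 * √5) := by ring
      _ = _ := by rw [h2]
  linarith

private theorem tau_six_sq : tauN 6 ^ 2 = 1 / 3 := by
  unfold tauN
  have : tan (π / (6 : ℕ)) = 1 / √3 := by
    push_cast
    exact tan_pi_div_six
  rw [this, div_pow, sq_sqrt (by norm_num)]
  norm_num

/-! ### the auxiliary function -/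

/-- `log (BB² / π) + x² / 3` as a function of `t = tan x`. -/
def HH (t : ℝ) : ℝ := log t - log (arctan t) - 2 * log (1 + t ^ 2 / 3) + arctan t ^ 2 / 3

private def dHH (t : ℝ) : ℝ :=
  (9 * arctan t * (1 - t ^ 4) + t * (3 + t ^ 2) * (2 * arctan t ^ 2 - 3)) /
    ((1 + t ^ 2) * t * (3 + t ^ 2) * (3 * arctan t))

private theorem hasDerivAt_HH {t : ℝ} (ht : 0 < t) : HasDerivAt HH (dHH t) t := by
  have hx : 0 < arctan t := arctan_pos.2 ht
  have h1 : HasDerivAt log (t⁻¹) t := hasDerivAt_log ht.ne'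
  have h2 : HasDerivAt (fun t => log (arctan t)) (1 / (1 + t ^ 2) / arctan t) t :=
    (hasDerivAt_arctan t).log hx.ne'
  have h3 : HasDerivAt (fun t : ℝ => 1 + t ^ 2 / 3) (2 * t / 3) t := by
    have := ((hasDerivAt_pow 2 t).div_const 3).const_add 1
    simpa using this
  have h4 : HasDerivAt (fun t : ℝ => log (1 + t ^ 2 / 3)) (2 * t / 3 / (1 + t ^ 2 / 3)) t :=
    h3.log (by positivity)
  have h5 : HasDerivAt (fun t => arctan t ^ 2 / 3) (2 * arctan t * (1 / (1 + t ^ 2)) / 3) t := by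
    have := ((hasDerivAt_arctan t).pow 2).div_const 3
    simpa using this
  have h6 := ((h1.sub h2).sub (h4.const_mul 2)).add h5
  have e : dHH t = t⁻¹ - 1 / (1 + t ^ 2) / arctan t - 2 * (2 * t / 3 / (1 + t ^ 2 / 3)) +
      2 * arctan t * (1 / (1 + t ^ 2)) / 3 := by
    unfold dHH
    have p1 : (3 + t ^ 2) ≠ 0 := by positivity
    have p2 : 1 + t ^ 2 / 3 = (3 + t ^ 2) / 3 := by ring
    rw [p2]
    field_simp
    ring
  rw [e]
  exact h6

private theorem dHH_nonpos {t : ℝ} (ht : 0 < t) (h1 : t ≤ 1) : dHH t ≤ 0 := by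
  have hx : 0 < arctan t := arctan_pos.2 ht
  unfold dHH
  apply div_nonpos_of_nonpos_of_nonneg _ (by positivity)
  have hX := arctan_le_five ht.le
  set X := t - t ^ 3 / 3 + t ^ 5 / 5 with hXd
  have h4 : 0 ≤ 1 - t ^ 4 := by
    have := pow_le_one₀ (n := 4) ht.le h1
    linarith
  have h5 : 9 * arctan t * (1 - t ^ 4) ≤ 9 * X * (1 - t ^ 4) := by
    apply mul_le_mul_of_nonneg_right _ h4
    linarith
  have h6 : t * (3 + t ^ 2) * (2 * arctan t ^ 2 - 3) ≤ t * (3 + t ^ 2) * (2 * X ^ 2 - 3) := by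
    apply mul_le_mul_of_nonneg_left _ (by positivity)
    have := pow_le_pow_left₀ hx.le hX 2
    linarith
  have h7 : 9 * X * (1 - t ^ 4) + t * (3 + t ^ 2) * (2 * X ^ 2 - 3) ≤ 0 := by
    have e : 9 * X * (1 - t ^ 4) + t * (3 + t ^ 2) * (2 * X ^ 2 - 3) =
        - (t ^ 5 * (46 / 5 - 71 / 15 * t ^ 2 + 71 / 45 * t ^ 4 + 2 / 75 * t ^ 6
          - 2 / 25 * t ^ 8)) := by
      rw [hXd]
      ring
    rw [e]
    have ht2 : t ^ 2 ≤ 1 := pow_le_one₀ ht.le h1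
    have ht8 : t ^ 8 ≤ 1 := pow_le_one₀ ht.le h1
    have : 0 ≤ t ^ 5 * (46 / 5 - 71 / 15 * t ^ 2 + 71 / 45 * t ^ 4 + 2 / 75 * t ^ 6
          - 2 / 25 * t ^ 8) := by
      apply mul_nonneg (by positivity)
      have h10 : 0 ≤ t ^ 4 := by positivity
      have h11 : 0 ≤ t ^ 6 := by positivity
      linarith
    linarith
  linarith

theorem HH_anti {a b : ℝ} (ha : 0 < a) (hab : a ≤ b) (hb : b ≤ 1) : HH b ≤ HH a := by
  have key := le_of_deriv_nonneg (f := fun x => - HH x) (f' := fun x => - dHH x) hab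
    (fun x hx => (hasDerivAt_HH (ha.trans_le hx.1)).neg)
    (fun x hx => by
      have := dHH_nonpos (ha.trans_le hx.1) (hx.2.trans hb)
      linarith)
  linarith

private theorem log_BB {m : ℕ} (hm : 3 ≤ m) :
    0 < BB m ∧ 2 * log (BB m) = log π + HH (tauN m) - (π / m) ^ 2 / 3 := by
  have ht := tau_pos hm
  have hm' : (3 : ℝ) ≤ m := by exact_mod_cast hm
  have hm0 : (0 : ℝ) < m := by linarith
  have ha := arctan_tau hm
  have hx : arctan (tauN m) = π / m := by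
    rw [eq_div_iff hm0.ne']
    linarith
  have hδ : 0 < delN m := by unfold delN; positivity
  have hs : 0 < √(m * tauN m) := sqrt_pos.2 (by positivity)
  refine ⟨div_pos hs hδ, ?_⟩
  unfold BB HH
  rw [hx, log_div hs.ne' hδ.ne', log_sqrt (by positivity), log_mul hm0.ne' ht.ne',
    log_div pi_pos.ne' hm0.ne']
  unfold delN
  ring

theorem BB_ratio {n : ℕ} (hn : 5 ≤ n) :
    (1 + π ^ 2 / 6 * (1 / ((n : ℝ) - 1) ^ 2 - 1 / (n : ℝ) ^ 2)) * BB (n - 1) < BB n := by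
  have hn' : (5 : ℝ) ≤ n := by exact_mod_cast hn
  have hc : ((n - 1 : ℕ) : ℝ) = (n : ℝ) - 1 := by
    rw [Nat.cast_sub (by omega)]
    simp
  obtain ⟨b0, e0⟩ := log_BB (m := n - 1) (by omega)
  obtain ⟨b1, e1⟩ := log_BB (m := n) (by omega)
  have h1 : HH (tauN (n - 1)) ≤ HH (tauN n) := by
    apply HH_anti (tau_pos (by omega)) (tau_anti (by omega) (by omega))
    rw [← tau_four]
    exact tau_anti (by norm_num) (by omega)
  rw [hc] at e0
  set D := π ^ 2 / 6 * (1 / ((n : ℝ) - 1) ^ 2 - 1 / (n : ℝ) ^ 2) with hD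
  have h2 : log (BB (n - 1)) + D ≤ log (BB n) := by
    have e2 : D = ((π / ((n : ℝ) - 1)) ^ 2 / 3 - (π / (n : ℝ)) ^ 2 / 3) / 2 := by
      rw [hD]
      have : (n : ℝ) - 1 ≠ 0 := by linarith
      field_simp
      ring
    linarith
  have h3 : BB (n - 1) * exp D ≤ BB n := by
    calc BB (n - 1) * exp D = exp (log (BB (n - 1)) + D) := by
          rw [exp_add, exp_log b0]
      _ ≤ exp (log (BB n)) := exp_le_exp.2 h2
      _ = BB n := exp_log b1
  have hD0 : D ≠ 0 := by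
    have : 1 / (n : ℝ) ^ 2 < 1 / ((n : ℝ) - 1) ^ 2 := by
      apply one_div_lt_one_div_of_lt
      · have : 0 < (n : ℝ) - 1 := by linarith
        positivity
      · nlinarith
    exact (mul_pos (by positivity) (by linarith)).ne'
  have h4 := add_one_lt_exp hD0
  calc (1 + D) * BB (n - 1) < exp D * BB (n - 1) :=
        mul_lt_mul_of_pos_right (by linarith) b0
    _ = BB (n - 1) * exp D := by ring
    _ ≤ BB n := h3

/-! ### the bound for `epsN n`, `n ≥ 6` -/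

theorem arctan_ge_pade {t : ℝ} (ht : 0 ≤ t) : t ≤ (1 + t ^ 2 / 3) * arctan t := by
  have key := le_of_deriv_nonneg (f := fun x => arctan x - 3 * x / (3 + x ^ 2))
    (f' := fun x => 4 * x ^ 4 / ((1 + x ^ 2) * (3 + x ^ 2) ^ 2)) ht
    (fun x _ => by
      have h1 : HasDerivAt (fun x : ℝ => 3 * x) 3 x := by
        simpa using (hasDerivAt_id x).const_mul 3
      have h2 : HasDerivAt (fun x : ℝ => 3 + x ^ 2) (2 * x) x := by
        have := (hasDerivAt_pow 2 x).const_add 3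
        simpa using this
      have h3 := (hasDerivAt_arctan x).sub (h1.div h2 (by positivity))
      have e : 4 * x ^ 4 / ((1 + x ^ 2) * (3 + x ^ 2) ^ 2) =
          1 / (1 + x ^ 2) - (3 * (3 + x ^ 2) - 3 * x * (2 * x)) / (3 + x ^ 2) ^ 2 := by
        field_simp
        ring
      rw [e]
      exact h3)
    (fun x _ => by positivity)
  simp only [arctan_zero, mul_zero, zero_div, sub_zero] at key
  have h3 : 3 * t / (3 + t ^ 2) ≤ arctan t := by linarith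
  rw [div_le_iff₀ (by positivity)] at h3
  linarith

/-- The polynomial inequality; `x = n`, `3.4907 > (10 / 9) π`. -/
private theorem poly_ineq {w : ℝ} (hw : 0 ≤ w) {x c : ℝ} (hx : x = 6 + w)
    (hc : c = 34907 / 10000) :
    3 * (3 * x ^ 2 + c ^ 2) * (x ^ 4 / 3 + c ^ 2 * x ^ 2 * (x ^ 2 - 4 * x + 14) / 45
      + c ^ 4 * (x - 1) ^ 2 / 27) * (x ^ 2 * (x - 1) ^ 2 + 164494 / 100000 * (2 * x - 1)) ≤
    x ^ 7 * (2 * x - 1) * (3 * x ^ 2 + c ^ 2 - 15 / 11 * c * x) := by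
  subst hx hc
  rw [← sub_nonneg]
  ring_nf
  positivity

private theorem bar_eq {x c T : ℝ} (hx : 6 ≤ x) (hT : T = c / x) :
    (1 + T ^ 2 / 3) * (1 / 3 + T ^ 2 * (x ^ 2 - 4 * x + 14) / 45 + T ^ 4 * (x - 1) ^ 2 / 27) *
      (1 + 164494 / 100000 * ((2 * x - 1) / (x ^ 2 * (x - 1) ^ 2))) =
    (3 * (3 * x ^ 2 + c ^ 2) * (x ^ 4 / 3 + c ^ 2 * x ^ 2 * (x ^ 2 - 4 * x + 14) / 45
      + c ^ 4 * (x - 1) ^ 2 / 27) * (x ^ 2 * (x - 1) ^ 2 + 164494 / 100000 * (2 * x - 1))) /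
        (9 * x ^ 8 * (x - 1) ^ 2) := by
  have hx0 : x ≠ 0 := by linarith
  have hx1 : x - 1 ≠ 0 := by linarith
  have e1 : 1 + T ^ 2 / 3 = (3 * x ^ 2 + c ^ 2) / (3 * x ^ 2) := by
    rw [hT]; field_simp
  have e2 : 1 / 3 + T ^ 2 * (x ^ 2 - 4 * x + 14) / 45 + T ^ 4 * (x - 1) ^ 2 / 27 =
      (x ^ 4 / 3 + c ^ 2 * x ^ 2 * (x ^ 2 - 4 * x + 14) / 45 + c ^ 4 * (x - 1) ^ 2 / 27) /
        x ^ 4 := by
    rw [hT, div_pow, div_pow, eq_div_iff (by positivity)]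
    have p1 : x ^ 4 = x ^ 2 * x ^ 2 := by ring
    field_simp
  have e3 : 1 + 164494 / 100000 * ((2 * x - 1) / (x ^ 2 * (x - 1) ^ 2)) =
      (x ^ 2 * (x - 1) ^ 2 + 164494 / 100000 * (2 * x - 1)) / (x ^ 2 * (x - 1) ^ 2) := by
    field_simp
  rw [e1, e2, e3, div_mul_div_comm, div_mul_div_comm, div_eq_div_iff (by positivity)
    (by positivity)]
  ring

private theorem kap_mono {x t T : ℝ} (hx : 6 ≤ x) (ht : 0 < t) (hT : t ≤ T) :
    1 / 3 + t ^ 2 * (x ^ 2 - 4 * x + 14) / 45 + t ^ 4 * (x - 1) ^ 2 / 27 ≤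
      1 / 3 + T ^ 2 * (x ^ 2 - 4 * x + 14) / 45 + T ^ 4 * (x - 1) ^ 2 / 27 := by
  have hT2 : t ^ 2 ≤ T ^ 2 := pow_le_pow_left₀ ht.le hT 2
  have hT4 : t ^ 4 ≤ T ^ 4 := pow_le_pow_left₀ ht.le hT 4
  have hq : 0 < x ^ 2 - 4 * x + 14 := by nlinarith [sq_nonneg (x - 2)]
  have h1 : t ^ 2 * (x ^ 2 - 4 * x + 14) ≤ T ^ 2 * (x ^ 2 - 4 * x + 14) :=
    mul_le_mul_of_nonneg_right hT2 hq.le
  have h2 : t ^ 4 * (x - 1) ^ 2 ≤ T ^ 4 * (x - 1) ^ 2 :=
    mul_le_mul_of_nonneg_right hT4 (by positivity)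
  linarith

private theorem main_ineq {x t T D : ℝ} (hx : 6 ≤ x) (ht : 0 < t) (htT : t ≤ T)
    (hT : T = 34907 / 10000 / x) (hD0 : 0 ≤ D)
    (hDb : D ≤ 164494 / 100000 * ((2 * x - 1) / (x ^ 2 * (x - 1) ^ 2))) :
    (1 + t ^ 2 / 3) * (1 / 3 + t ^ 2 * (x ^ 2 - 4 * x + 14) / 45 + t ^ 4 * (x - 1) ^ 2 / 27) *
      (1 + D) ≤ 1 / 3 * (x * (2 * x - 1) / (x - 1) ^ 2) * (1 + t ^ 2 / 3 - 5 * t / 11) := by
  have hx0 : 0 < x := by linarith
  have hx1 : 0 < x - 1 := by linarith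
  have h2x : 0 < 2 * x - 1 := by linarith
  have hq : 0 < x ^ 2 - 4 * x + 14 := by nlinarith [sq_nonneg (x - 2)]
  have hT1 : T ≤ 0.5819 := by
    rw [hT, div_le_iff₀ hx0]
    norm_num
    linarith
  have hh : 1 + T ^ 2 / 3 - 5 * T / 11 ≤ 1 + t ^ 2 / 3 - 5 * t / 11 := by nlinarith
  have h1 : (1 + t ^ 2 / 3) * (1 / 3 + t ^ 2 * (x ^ 2 - 4 * x + 14) / 45
        + t ^ 4 * (x - 1) ^ 2 / 27) * (1 + D) ≤
      (1 + T ^ 2 / 3) * (1 / 3 + T ^ 2 * (x ^ 2 - 4 * x + 14) / 45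
        + T ^ 4 * (x - 1) ^ 2 / 27) *
        (1 + 164494 / 100000 * ((2 * x - 1) / (x ^ 2 * (x - 1) ^ 2))) := by
    apply mul_le_mul _ (by linarith) (by linarith) (by positivity)
    apply mul_le_mul _ (kap_mono hx ht htT) (by positivity) (by positivity)
    nlinarith
  have h2 : 1 / 3 * (x * (2 * x - 1) / (x - 1) ^ 2) * (1 + T ^ 2 / 3 - 5 * T / 11) ≤
      1 / 3 * (x * (2 * x - 1) / (x - 1) ^ 2) * (1 + t ^ 2 / 3 - 5 * t / 11) :=
    mul_le_mul_of_nonneg_left hh (by positivity)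
  refine h1.trans (le_trans ?_ h2)
  rw [bar_eq hx hT]
  have hp := poly_ineq (w := x - 6) (by linarith) (x := x) (c := 34907 / 10000) (by ring) rfl
  have e2 : 1 / 3 * (x * (2 * x - 1) / (x - 1) ^ 2) * (1 + T ^ 2 / 3 - 5 * T / 11) =
      (x ^ 7 * (2 * x - 1) * (3 * x ^ 2 + (34907 / 10000) ^ 2 - 15 / 11 * (34907 / 10000) * x)) /
      (9 * x ^ 8 * (x - 1) ^ 2) := by
    have e3 : 1 + T ^ 2 / 3 - 5 * T / 11 =
        (3 * x ^ 2 + (34907 / 10000) ^ 2 - 15 / 11 * (34907 / 10000) * x) / (3 * x ^ 2) := by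
      rw [hT, eq_div_iff (by positivity)]
      field_simp
      ring
    rw [e3, mul_assoc, div_mul_div_comm, mul_div_assoc', div_eq_div_iff (by positivity)
      (by positivity)]
    ring
  rw [e2]
  exact div_le_div_of_nonneg_right hp (by positivity)

private theorem eps_six {n : ℕ} (hn : 6 ≤ n) :
    epsN n * (1 + π ^ 2 / 6 * (1 / ((n : ℝ) - 1) ^ 2 - 1 / (n : ℝ) ^ 2)) ≤
      π ^ 2 / 6 * (1 / ((n : ℝ) - 1) ^ 2 - 1 / (n : ℝ) ^ 2) := by
  have hx6 : (6 : ℝ) ≤ n := by exact_mod_cast hn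
  have ht := tau_pos (n := n) (by omega)
  have ha := arctan_tau (n := n) (by omega)
  have hpade := arctan_ge_pade ht.le
  have ht6 : tauN n ≤ tauN 6 := tau_anti (by norm_num) hn
  have ht2 : tauN n ^ 2 ≤ 1 / 3 := by
    rw [← tau_six_sq]
    exact pow_le_pow_left₀ ht.le ht6 2
  unfold epsN kapN delN
  generalize tauN n = t at *
  generalize (n : ℝ) = x at *
  have hx0 : 0 < x := by linarith
  have hx1 : 0 < x - 1 := by linarith
  have hπ1 : π ≤ 3.141593 := pi_lt_d6.le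
  have hat : arctan t = π / x := by
    rw [eq_div_iff hx0.ne']
    linarith
  rw [hat] at hpade
  have hδ2 : 1 + t ^ 2 / 3 ≤ 10 / 9 := by linarith
  -- `t ≤ c / x`
  have htT : t ≤ 34907 / 10000 / x := by
    have h1 : (1 + t ^ 2 / 3) * (π / x) ≤ 10 / 9 * (3.141593 / x) := by
      apply mul_le_mul hδ2 _ (by positivity) (by norm_num)
      exact div_le_div_of_nonneg_right hπ1 hx0.le
    have h2 : 10 / 9 * (3.141593 / x) ≤ 34907 / 10000 / x := by
      rw [← mul_div_assoc]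
      apply div_le_div_of_nonneg_right _ hx0.le
      norm_num
    linarith
  have hT1 : 34907 / 10000 / x ≤ 0.5819 := by
    rw [div_le_iff₀ hx0]
    norm_num
    linarith
  -- `D`
  have hDe : π ^ 2 / 6 * (1 / (x - 1) ^ 2 - 1 / x ^ 2) =
      π ^ 2 / 6 * ((2 * x - 1) / (x ^ 2 * (x - 1) ^ 2)) := by
    congr 1
    field_simp
    ring
  rw [hDe]
  have h2x : 0 < 2 * x - 1 := by linarith
  have hD0 : 0 < π ^ 2 / 6 * ((2 * x - 1) / (x ^ 2 * (x - 1) ^ 2)) := by positivity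
  have hDb : π ^ 2 / 6 * ((2 * x - 1) / (x ^ 2 * (x - 1) ^ 2)) ≤
      164494 / 100000 * ((2 * x - 1) / (x ^ 2 * (x - 1) ^ 2)) := by
    apply mul_le_mul_of_nonneg_right _ (by positivity)
    have : π ^ 2 ≤ 3.141593 ^ 2 := pow_le_pow_left₀ pi_pos.le hπ1 2
    norm_num at this ⊢
    linarith
  have hmain := main_ineq hx6 ht htT rfl hD0.le hDb
  have hhp : 0 < 1 + t ^ 2 / 3 - 5 * t / 11 := by
    nlinarith [sq_nonneg t]
  have hq : 0 < x ^ 2 - 4 * x + 14 := by nlinarith [sq_nonneg (x - 2)]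
  have hκ0 : 0 < 1 / 3 + t ^ 2 * (x ^ 2 - 4 * x + 14) / 45 + t ^ 4 * (x - 1) ^ 2 / 27 := by
    positivity
  have hτ2 : t ^ 2 ≤ ((1 + t ^ 2 / 3) * (π / x)) ^ 2 := pow_le_pow_left₀ ht.le hpade 2
  generalize hκ : 1 / 3 + t ^ 2 * (x ^ 2 - 4 * x + 14) / 45 + t ^ 4 * (x - 1) ^ 2 / 27 = κ at *
  have hδ0 : 0 < 1 + t ^ 2 / 3 := by positivity
  generalize hδ : 1 + t ^ 2 / 3 = δ at *
  have hden : 0 < 2 * x * δ * (δ - 5 * t / 11) := by positivity
  rw [div_mul_eq_mul_div, div_le_iff₀ hden]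
  calc t ^ 2 * κ * (1 + π ^ 2 / 6 * ((2 * x - 1) / (x ^ 2 * (x - 1) ^ 2))) ≤
        (δ * (π / x)) ^ 2 * κ * (1 + π ^ 2 / 6 * ((2 * x - 1) / (x ^ 2 * (x - 1) ^ 2))) := by
        apply mul_le_mul_of_nonneg_right _ (by linarith)
        exact mul_le_mul_of_nonneg_right hτ2 hκ0.le
    _ = π ^ 2 / x ^ 2 * δ * (δ * κ * (1 + π ^ 2 / 6 * ((2 * x - 1) /
          (x ^ 2 * (x - 1) ^ 2)))) := by ring
    _ ≤ π ^ 2 / x ^ 2 * δ * (1 / 3 * (x * (2 * x - 1) / (x - 1) ^ 2) * (δ - 5 * t / 11)) :=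
        mul_le_mul_of_nonneg_left hmain (by positivity)
    _ = π ^ 2 / 6 * ((2 * x - 1) / (x ^ 2 * (x - 1) ^ 2)) *
          (2 * x * δ * (δ - 5 * t / 11)) := by
        field_simp
        ring

private theorem num_five : BB 4 < (1 - epsN 5) * BB 5 := by
  have h5 : √5 ^ 2 = 5 := sq_sqrt (by norm_num)
  have h5a : √5 ≤ 2.23607 := by
    apply sqrt_le_iff.2
    norm_num
  have h5b : 2.23606 ≤ √5 := by
    apply le_sqrt_of_sq_le
    norm_num
  have hsq := tau_five_sq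
  have ht := tau_pos (n := 5) (by norm_num)
  have hs1 : tauN 5 ^ 2 ≤ 0.52788 := by rw [hsq]; norm_num at h5b ⊢; linarith
  have hs2 : 0.52786 ≤ tauN 5 ^ 2 := by rw [hsq]; norm_num at h5a ⊢; linarith
  have ht1 : tauN 5 ≤ 0.7266 := by nlinarith
  have ht2 : 0.7265 ≤ tauN 5 := by nlinarith
  have hB4 : BB 4 = 1.5 := by
    unfold BB delN
    rw [tau_four]
    have : √(((4 : ℕ) : ℝ) * 1) = 2 := by
      rw [show ((4 : ℕ) : ℝ) * 1 = 2 ^ 2 by norm_num]
      exact sqrt_sq (by norm_num)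
    rw [this]
    norm_num
  have hB5 : 1.6 ≤ BB 5 := by
    unfold BB delN
    rw [le_div_iff₀ (by positivity)]
    apply le_sqrt_of_sq_le
    push_cast
    have h1 : (1.6 * (1 + tauN 5 ^ 2 / 3)) ^ 2 ≤ (1.6 * (1 + 0.52788 / 3)) ^ 2 := by
      apply pow_le_pow_left₀ (by positivity)
      linarith
    refine h1.trans ?_
    norm_num at ht2 ⊢
    linarith
  have he : epsN 5 ≤ 0.05 := by
    unfold epsN kapN delN
    push_cast
    have h4 : tauN 5 ^ 4 ≤ 0.52788 ^ 2 := by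
      have : tauN 5 ^ 4 = (tauN 5 ^ 2) ^ 2 := by ring
      rw [this]
      exact pow_le_pow_left₀ (by positivity) hs1 2
    have hd : 0.8 ≤ 1 + tauN 5 ^ 2 / 3 - 5 * tauN 5 / 11 := by
      norm_num at hs2 ht1 ⊢
      linarith
    rw [div_le_iff₀ (by
      have : 0 < 1 + tauN 5 ^ 2 / 3 - 5 * tauN 5 / 11 := by linarith
      positivity)]
    have hk : 1 / 3 + tauN 5 ^ 2 * ((5 : ℝ) ^ 2 - 4 * 5 + 14) / 45
        + tauN 5 ^ 4 * (5 - 1) ^ 2 / 27 ≤ 0.7214 := by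
      norm_num at hs1 h4 ⊢
      linarith
    have h6 : tauN 5 ^ 2 * (1 / 3 + tauN 5 ^ 2 * ((5 : ℝ) ^ 2 - 4 * 5 + 14) / 45
        + tauN 5 ^ 4 * (5 - 1) ^ 2 / 27) ≤ 0.52788 * 0.7214 :=
      mul_le_mul hs1 hk (by
        have : (0 : ℝ) ≤ (5 : ℝ) ^ 2 - 4 * 5 + 14 := by norm_num
        positivity) (by norm_num)
    have h7 : (1.175 : ℝ) ≤ 1 + tauN 5 ^ 2 / 3 := by
      norm_num at hs2 ⊢
      linarith
    have h8 : (1.175 : ℝ) * 0.8 ≤ (1 + tauN 5 ^ 2 / 3) * (1 + tauN 5 ^ 2 / 3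
        - 5 * tauN 5 / 11) := mul_le_mul h7 hd (by norm_num) (by positivity)
    refine h6.trans ?_
    have e : 0.05 * (2 * 5 * (1 + tauN 5 ^ 2 / 3) * (1 + tauN 5 ^ 2 / 3 - 5 * tauN 5 / 11)) =
        0.5 * ((1 + tauN 5 ^ 2 / 3) * (1 + tauN 5 ^ 2 / 3 - 5 * tauN 5 / 11)) := by ring
    rw [e]
    refine le_trans ?_ (mul_le_mul_of_nonneg_left h8 (by norm_num))
    norm_num
  rw [hB4]
  have h9 : (0.95 : ℝ) * 1.6 ≤ (1 - epsN 5) * BB 5 :=
    mul_le_mul (by linarith) hB5 (by norm_num) (by linarith)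
  refine lt_of_lt_of_le ?_ h9
  norm_num

end A

/-- Strict form of `A_num`. -/
theorem A_num_lt {n : ℕ} (hn : 5 ≤ n) : BB (n - 1) < (1 - epsN n) * BB n := by
  rcases Nat.lt_or_ge n 6 with h | h
  · have : n = 5 := by omega
    subst this
    exact A.num_five
  · have h1 := A.BB_ratio hn
    have h2 := A.eps_six h
    have hn' : (6 : ℝ) ≤ n := by exact_mod_cast h
    set D := Real.pi ^ 2 / 6 * (1 / ((n : ℝ) - 1) ^ 2 - 1 / (n : ℝ) ^ 2) with hD
    have hD0 : 0 < D := by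
      apply mul_pos (by positivity)
      have : 1 / (n : ℝ) ^ 2 < 1 / ((n : ℝ) - 1) ^ 2 := by
        apply one_div_lt_one_div_of_lt
        · have : 0 < (n : ℝ) - 1 := by linarith
          positivity
        · nlinarith
      linarith
    have h3 : 0 < 1 - epsN n := by
      by_contra hneg
      push Not at hneg
      nlinarith
    have hB : 0 ≤ BB (n - 1) := div_nonneg (Real.sqrt_nonneg _) (by unfold delN; positivity)
    have h4 : 1 ≤ (1 - epsN n) * (1 + D) := by linarith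
    calc BB (n - 1) = 1 * BB (n - 1) := (one_mul _).symm
      _ ≤ (1 - epsN n) * (1 + D) * BB (n - 1) := mul_le_mul_of_nonneg_right h4 hB
      _ = (1 - epsN n) * ((1 + D) * BB (n - 1)) := by ring
      _ < (1 - epsN n) * BB n := mul_lt_mul_of_pos_left h1 h3

theorem A_num {n : ℕ} (hn : 5 ≤ n) : BB (n - 1) ≤ (1 - epsN n) * BB n := (A_num_lt hn).le

end Pool.Agent.NGN
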