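import Pool.Agent.NGN.Hull

/-!
# Part A: the area is at most the sum of the areas of the triangles
-/

set_option autoImplicit false

noncomputable section

namespace Pool.Agent.NGN

open MeasureTheory Pool.Agent.Stk

/-- The area is at most (in fact exactly) the sum of the areas of the triangles. -/
theorem A_vol {n : ℕ} [NeZero n] (hn : 3 ≤ n) {P : ZMod n → ℂ} (h : Cvx P) {c : ℂ} {Ω : Set ℂ}
    (hO : Ω ⊆ convexHull ℝ (Set.range fun i => P i + c)) :
    volume.real Ω ≤ ∑ i, cr (P i) (P (i + 1)) / 2 := by
  have hsub : convexHull ℝ (Set.range fun i => P i + c) ⊆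
      (fun z => z + (-c)) ⁻¹' (convexHull ℝ (Set.range P)) := by
    apply convexHull_min
    · rintro _ ⟨i, rfl⟩
      change P i + c + -c ∈ convexHull ℝ (Set.range P)
      rw [add_neg_cancel_right]
      exact subset_convexHull ℝ _ (Set.mem_range_self i)
    · exact (convex_convexHull ℝ (Set.range P)).translate_preimage_left (-c)
  have h1 : volume ((fun z => z + (-c)) ⁻¹' (convexHull ℝ (Set.range P))) =
      volume (convexHull ℝ (Set.range P)) := measure_preimage_add_right volume (-c) _
  rw [← volume_hull hn h, measureReal_def, measureReal_def, ← h1]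
  apply ENNReal.toReal_mono
  · rw [h1]
    exact isCompact_hull.measure_lt_top.ne
  · exact measure_mono (hO.trans hsub)

end Pool.Agent.NGN
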